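import Pool.Agent.Lib_helper40.RND.Defs
import Pool.Agent.Lib_helper40.RND.RL
import Pool.Agent.Lib_helper40.GF.Auto

set_option autoImplicit false

/-! Definitions for the generic freeness of bireversible transducers over any alphabet. -/

namespace RNK40

open Equiv Equiv.Perm RND40 GF40

/-- bireversible transducers with states `Fin n` and letters `Fin k`: transitions `A.1.1`, outputs
`A.1.2` -/
abbrev BT (n k : ℕ) := {A : (Fin k → Perm (Fin n)) × (Fin n → Perm (Fin k)) // Bir A.1 A.2}

/-- transitions of the letters on the inverse states -/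
noncomputable def MM {n k : ℕ} (A : BT n k) (y : Fin k) : Perm (Fin n) :=
  Dm A.1.1 A.1.2 A.2 y

/-- some letter has two outputs, each at a positive proportion of the states -/
def Spread {n k : ℕ} (ε : ℝ) (O : Fin n → Perm (Fin k)) : Prop :=
  ∃ x y y' : Fin k, y ≠ y' ∧ ε * (n : ℝ) ≤ (Nat.card {q // O q x = y} : ℝ) ∧
    ε * (n : ℝ) ≤ (Nat.card {q // O q x = y'} : ℝ)

/-- number of cycles of `s` with a length in `L` -/
noncomputable def XX {α : Type*} [Fintype α] [DecidableEq α] (L : Finset ℕ) (s : Perm α) : ℝ :=
  ∑ x, if len s x ∈ L then (1 : ℝ) / (len s x : ℝ) else 0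

/-- number of cycles of `s` whose length is divisible by `q` -/
noncomputable def CC {α : Type*} [Fintype α] [DecidableEq α] (q : ℕ) (s : Perm α) : ℝ :=
  ∑ y, if q ∣ len s y then (1 : ℝ) / (len s y : ℝ) else 0

end RNK40
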