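import Pool.Agent.Lib_helper40.RNK.Main3
import Pool.Agent.Lib_helper40.RNF.Final

set_option autoImplicit false
set_option linter.unusedSectionVars false

/-! Assembly, part 4: the final theorem. -/

namespace RNK40

open Equiv Equiv.Perm RND40 GF40 Filter Topology

lemma inv_card {n k : ℕ} (P : BT n k → Prop) :
    Nat.card {A : BT n k // P (inv A)} = Nat.card {A : BT n k // P A} := by
  apply Nat.card_congr
  exact (Equiv.mk (fun A : BT n k => inv A) (fun A => inv A) inv_inv inv_inv).subtypeEquiv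
    (fun A => Iff.rfl)

/-- uniform version of `few_fixed` for finitely many words and both signs -/
lemma few_fixed_all (k M : ℕ) (η : ℝ) (hη : 0 < η) : ∃ n0 : ℕ, ∀ n ≥ n0, ∀ u ∈ UU' k M, ∀ e,
    (Nat.card {A : BT n k // η * (n : ℝ) < (Nat.card {q : Fin n //
      FreeGroup.lift (Es A e) u q = q} : ℝ)} : ℝ) ≤ η * (Nat.card (BT n k) : ℝ) := by
  classical
  have h1 : ∀ u : FreeGroup (Fin k), ∃ n0 : ℕ, u ∈ UU' k M → ∀ n ≥ n0, ∀ e,
      (Nat.card {A : BT n k // η * (n : ℝ) < (Nat.card {q : Fin n //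
        FreeGroup.lift (Es A e) u q = q} : ℝ)} : ℝ) ≤ η * (Nat.card (BT n k) : ℝ) := by
    intro u
    by_cases hu : u ∈ UU' k M
    · obtain ⟨n1, h1⟩ := few_fixed k u (UU'_ne hu) η hη
      obtain ⟨n2, h2⟩ := few_fixed_inv k u (UU'_ne hu) η hη
      refine ⟨max n1 n2, fun _ n hn e => ?_⟩
      cases e
      · exact h2 n (le_trans (le_max_right _ _) hn)
      · exact h1 n (le_trans (le_max_left _ _) hn)
    · exact ⟨0, fun h => absurd h hu⟩
  choose N hN using h1
  refine ⟨(UU' k M).sup N, fun n hn u hu e => ?_⟩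
  exact hN u hu n (le_trans (Finset.le_sup hu) hn) e

theorem G1_generic (k : ℕ) (hk : 3 ≤ k) (η : ℝ) (hη : 0 < η) : ∃ n0 : ℕ, ∀ n ≥ n0,
    (Nat.card {A : BT n k // ¬ G1 A} : ℝ) ≤ η * (Nat.card (BT n k) : ℝ) := by
  classical
  obtain ⟨ε, hε, hsp⟩ := spread k hk
  obtain ⟨n1, hn1⟩ := hsp (η / 8) (by positivity)
  have hε4 : 0 < ε ^ 4 := by positivity
  have hk0 : (0 : ℝ) < (k : ℝ) := by
    have : 0 < k := by omega
    exact_mod_cast this
  -- the number of words
  obtain ⟨M, hM⟩ := exists_nat_gt (32 / (η * ε ^ 4))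
  have hMpos : (0 : ℝ) < (M : ℝ) := lt_trans (by positivity) hM
  have hM1 : 1 ≤ M := by
    have : 0 < M := by exact_mod_cast hMpos
    omega
  have hMb : 4 / (M : ℝ) / ε ^ 4 ≤ η / 8 := by
    rw [div_div, div_le_iff₀ (by positivity)]
    rw [div_lt_iff₀ (by positivity)] at hM
    nlinarith
  -- the threshold
  obtain ⟨η', hη'⟩ : ∃ η' : ℝ, η' = min (η * ε ^ 4 / 64) (min (ε / (2 * k)) (1 / 2)) := ⟨_, rfl⟩
  have hη'pos : 0 < η' := by
    rw [hη']
    exact lt_min (by positivity) (lt_min (by positivity) (by norm_num))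
  have hη'1 : 8 * η' / ε ^ 4 ≤ η / 8 := by
    rw [div_le_iff₀ hε4]
    have : η' ≤ η * ε ^ 4 / 64 := by rw [hη']; exact min_le_left _ _
    nlinarith
  have hη'2 : η' * (k : ℝ) ≤ ε / 2 := by
    have : η' ≤ ε / (2 * k) := by rw [hη']; exact (min_le_right _ _).trans (min_le_left _ _)
    calc η' * (k : ℝ) ≤ ε / (2 * k) * k := mul_le_mul_of_nonneg_right this hk0.le
      _ = ε / 2 := by field_simp
  have hη'3 : η' ≤ 1 / 2 := by rw [hη']; exact (min_le_right _ _).trans (min_le_right _ _)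
  -- the orders
  obtain ⟨C, hC⟩ : ∃ C : ℝ, C = 1 + ∑ i ∈ Finset.range M, 2 * ((WW k i).card : ℝ) ^ 2 := ⟨_, rfl⟩
  have hCpos : 0 < C := by
    have : 0 ≤ ∑ i ∈ Finset.range M, 2 * ((WW k i).card : ℝ) ^ 2 :=
      Finset.sum_nonneg (fun i _ => by positivity)
    linarith
  obtain ⟨n2, hn2⟩ := order_ne (1 / 2) (by norm_num) (η / (8 * C)) (by positivity)
  obtain ⟨n3, hn3⟩ := order_ne (ε / 2) (by positivity) (η / (8 * C)) (by positivity)
  -- the fixed points
  obtain ⟨U, hU⟩ : ∃ U : ℝ, U = ((UU' k M).card : ℝ) := ⟨_, rfl⟩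
  have hU0 : 0 ≤ U := by rw [hU]; exact Nat.cast_nonneg _
  obtain ⟨η3, hη3⟩ : ∃ η3 : ℝ, η3 = min η' (η / (16 * (U + 1))) := ⟨_, rfl⟩
  have hη3pos : 0 < η3 := by rw [hη3]; exact lt_min hη'pos (by positivity)
  obtain ⟨n4, hn4⟩ := few_fixed_all k M η3 hη3pos
  obtain ⟨n5, hn5⟩ := exists_nat_gt (160 / (η * ε ^ 4))
  refine ⟨max (max n1 n2) (max (max n3 n4) (max n5 4)), fun n hn => ?_⟩
  simp only [ge_iff_le, max_le_iff] at hn
  obtain ⟨⟨k1, k2⟩, ⟨k3, k4⟩, k5, k6⟩ := hn
  have hnpos : (0 : ℝ) < (n : ℝ) := by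
    have : 0 < n := by omega
    exact_mod_cast this
  have hn5' : 20 / (n : ℝ) / ε ^ 4 ≤ η / 8 := by
    have h1 : 160 / (η * ε ^ 4) < (n : ℝ) := lt_of_lt_of_le hn5 (by exact_mod_cast k5)
    rw [div_lt_iff₀ (by positivity)] at h1
    rw [div_div, div_le_iff₀ (by positivity)]
    nlinarith
  obtain ⟨B, hB⟩ : ∃ B : ℝ, B = (Nat.card (BT n k) : ℝ) := ⟨_, rfl⟩
  have hB0 : 0 ≤ B := by rw [hB]; exact Nat.cast_nonneg _
  rw [← hB]
  let Typ : BT n k → Prop := fun A => Spread ε A.1.2 ∧ ∀ e, ∀ u ∈ UU' k M,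
    (Nat.card {q : Fin n // FreeGroup.lift (Es A e) u q = q} : ℝ) ≤ η' * (n : ℝ)
  have hav := averaging (fun A : BT n k => ¬ G1 A) Typ (η / 2) (by positivity) (by
    rintro A ⟨hA1, hA2⟩
    have h1 := per_A A ε η' (η / (8 * C)) M hM1 (by omega) hε hA1 hA2 hη'pos.le hη'2 hη'3 k6
      (fun a ha => hn2 n k2 a ha) (fun a ha => hn3 n k3 a ha)
    rw [← hC] at h1
    refine h1.trans ?_
    have h2 : (4 / (M : ℝ) + 8 * η' + 20 / (n : ℝ)) / ε ^ 4 ≤ 3 * (η / 8) := by
      rw [add_div, add_div]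
      linarith
    have hF : (0 : ℝ) ≤ (n.factorial : ℝ) := Nat.cast_nonneg _
    have h3 : C * (η / (8 * C) * (n.factorial : ℝ)) = η / 8 * (n.factorial : ℝ) := by
      field_simp
    rw [h3]
    have h4 := mul_le_mul_of_nonneg_left h2 hF
    linarith)
  have hnt : (Nat.card {A : BT n k // ¬ Typ A} : ℝ) ≤ η / 4 * B := by
    have h1 : ∀ A : BT n k, ¬ Typ A → (¬ Spread ε A.1.2) ∨
        ∃ p ∈ UU' k M ×ˢ (Finset.univ : Finset Bool), η3 * (n : ℝ) <
          (Nat.card {q : Fin n // FreeGroup.lift (Es A p.2) p.1 q = q} : ℝ) := by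
      intro A hA
      by_contra hcon
      push Not at hcon
      apply hA
      refine ⟨hcon.1, fun e u hu => ?_⟩
      have h2 := hcon.2 (u, e) (Finset.mem_product.2 ⟨hu, Finset.mem_univ _⟩)
      refine h2.trans ?_
      exact mul_le_mul_of_nonneg_right (by rw [hη3]; exact min_le_left _ _) hnpos.le
    refine (cd_mono _ _ h1).trans ((cd_or _ _).trans ?_)
    have h2 := cd_ex (UU' k M ×ˢ (Finset.univ : Finset Bool)) (fun p (A : BT n k) =>
      η3 * (n : ℝ) < (Nat.card {q : Fin n // FreeGroup.lift (Es A p.2) p.1 q = q} : ℝ))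
    have h3 : ∑ p ∈ UU' k M ×ˢ (Finset.univ : Finset Bool), (Nat.card {A : BT n k //
        η3 * (n : ℝ) < (Nat.card {q : Fin n // FreeGroup.lift (Es A p.2) p.1 q = q} : ℝ)} : ℝ) ≤
        η / 8 * B := by
      calc _ ≤ ∑ _p ∈ UU' k M ×ˢ (Finset.univ : Finset Bool), η3 * B := by
            apply Finset.sum_le_sum
            rintro ⟨u, e⟩ hp
            rw [hB]
            exact hn4 n k4 u (Finset.mem_product.1 hp).1 e
        _ = 2 * U * η3 * B := by
            rw [Finset.sum_const, nsmul_eq_mul, Finset.card_product, Finset.card_univ,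
              Fintype.card_bool]
            push_cast
            rw [← hU]
            ring
        _ ≤ η / 8 * B := by
            apply mul_le_mul_of_nonneg_right _ hB0
            have h4 : η3 ≤ η / (16 * (U + 1)) := by rw [hη3]; exact min_le_right _ _
            calc 2 * U * η3 ≤ 2 * U * (η / (16 * (U + 1))) :=
                  mul_le_mul_of_nonneg_left h4 (by positivity)
              _ ≤ η / 8 := by
                  rw [mul_div_assoc', div_le_div_iff₀ (by positivity) (by norm_num)]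
                  nlinarith
    have h6 := hn1 n k1
    rw [← hB] at h6
    linarith [h2.trans h3]
  rw [← hB] at hav
  refine hav.trans ?_
  have : η / 4 * B + η / 2 * B ≤ η * B := by nlinarith
  linarith

theorem G0_generic (k : ℕ) (hk : 2 ≤ k) (η : ℝ) (hη : 0 < η) : ∃ n0 : ℕ, ∀ n ≥ n0,
    (Nat.card {A : BT n k // ¬ G0 A} : ℝ) ≤ η * (Nat.card (BT n k) : ℝ) := by
  obtain ⟨n0, h0⟩ := generic_bir k hk η hη
  refine ⟨n0, fun n hn => ?_⟩
  have h1 := h0 n hn
  have h2 : Nat.card {A : BT n k // ¬ G0 A} =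
      Nat.card {A : (Fin k → Perm (Fin n)) × (Fin n → Perm (Fin k)) //
      Bir A.1 A.2 ∧ ¬ alternatingGroup (Fin n) ≤ Subgroup.closure (Set.range A.1)} :=
    Nat.card_congr (Equiv.subtypeSubtypeEquivSubtypeInter
      (fun A : (Fin k → Perm (Fin n)) × (Fin n → Perm (Fin k)) => Bir A.1 A.2)
      (fun A => ¬ alternatingGroup (Fin n) ≤ Subgroup.closure (Set.range A.1)))
  rw [h2]
  exact h1

/-- all good events together -/
def Good {n k : ℕ} (A : BT n k) : Prop := (G0 A ∧ G0 (inv A)) ∧ (G1 A ∧ G1 (inv A))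

theorem good_generic (k : ℕ) (hk : 3 ≤ k) (η : ℝ) (hη : 0 < η) : ∃ n0 : ℕ, ∀ n ≥ n0,
    (Nat.card {A : BT n k // ¬ Good A} : ℝ) ≤ η * (Nat.card (BT n k) : ℝ) := by
  obtain ⟨n1, h1⟩ := G0_generic k (by omega) (η / 4) (by positivity)
  obtain ⟨n2, h2⟩ := G1_generic k hk (η / 4) (by positivity)
  refine ⟨max n1 n2, fun n hn => ?_⟩
  have e1 := h1 n (le_trans (le_max_left _ _) hn)
  have e2 := h2 n (le_trans (le_max_right _ _) hn)
  have e3 := inv_card (fun A : BT n k => ¬ G0 A)
  have e4 := inv_card (fun A : BT n k => ¬ G1 A)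
  have h3 : ∀ A : BT n k, ¬ Good A → ((¬ G0 A ∨ ¬ G0 (inv A)) ∨ (¬ G1 A ∨ ¬ G1 (inv A))) := by
    intro A hA
    unfold Good at hA
    tauto
  have h4 := (cd_mono _ _ h3).trans (cd_or _ _)
  have h5 := cd_or (fun A : BT n k => ¬ G0 A) (fun A => ¬ G0 (inv A))
  have h6 := cd_or (fun A : BT n k => ¬ G1 A) (fun A => ¬ G1 (inv A))
  rw [e3] at h5
  rw [e4] at h6
  linarith

/-- A transducer with states `Fin n` and letters `Fin k`, given by its transition map `δ` and its
output map `out`, is bireversible: it is invertible, it is reversible, and its inverse transducer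
is reversible (for every letter `b`, the map `q ↦ δ q (a q)` is a permutation, where `a q` is the
letter with output `b`). -/
def Bireversible {n k : ℕ} (δ : Fin n → Fin k → Fin n) (out : Fin n → Fin k → Fin k) : Prop :=
  (∀ q, Function.Bijective (out q)) ∧ (∀ x, Function.Bijective (fun q => δ q x)) ∧
    ∀ (b : Fin k) (a : Fin n → Fin k), (∀ q, out q (a q) = b) →
      Function.Bijective (fun q => δ q (a q))

/-- The states act on the words by the permutations `f q`; these permutations are a basis of the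
group that they generate (a free group), and this group has no nontrivial element of finite
order. -/
def FreeOnStates {n k : ℕ} (δ : Fin n → Fin k → Fin n) (out : Fin n → Fin k → Fin k) : Prop :=
  ∃ f : Fin n → Equiv.Perm (List (Fin k)), (∀ q, f q [] = []) ∧
    (∀ q a w, f q (a :: w) = out q a :: f (δ q a) w) ∧
    Function.Injective (FreeGroup.lift f) ∧
    ∀ g ∈ Subgroup.closure (Set.range f), IsOfFinOrder g → g = 1

lemma bir_iff {n k : ℕ} (δ : Fin n → Fin k → Fin n) (out : Fin n → Fin k → Fin k) :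
    Bireversible δ out ↔ BirT δ out := by
  unfold Bireversible BirT
  constructor
  · rintro ⟨h1, h2, h3⟩
    exact ⟨h1, h2, (RNF40.inverse_iff δ out h1).1 h3⟩
  · rintro ⟨h1, h2, h3⟩
    exact ⟨h1, h2, (RNF40.inverse_iff δ out h1).2 h3⟩

/-- the transducer as functions -/
noncomputable def toBT {n k : ℕ} (A : {A : (Fin n → Fin k → Fin n) × (Fin n → Fin k → Fin k) //
    Bireversible A.1 A.2}) : BT n k :=
  ⟨(fun x => Equiv.ofBijective _ (A.2.2.1 x), fun q => Equiv.ofBijective _ (A.2.1 q)),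
    (conv_bir _ _).2 ((bir_iff _ _).1 A.2).2.2⟩

lemma toBT_inj {n k : ℕ} : Function.Injective (toBT : {A : (Fin n → Fin k → Fin n) ×
    (Fin n → Fin k → Fin k) // Bireversible A.1 A.2} → BT n k) := by
  intro A B hAB
  have h2 := congrArg Subtype.val hAB
  apply Subtype.ext
  apply Prod.ext
  · funext q x
    exact congrArg (fun z => z.1 x q) h2
  · funext q x
    exact congrArg (fun z => z.2 q x) h2

lemma card_BT_le {n k : ℕ} : Nat.card (BT n k) ≤ Nat.card {A : (Fin n → Fin k → Fin n) ×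
    (Fin n → Fin k → Fin k) // Bireversible A.1 A.2} := by
  let g : BT n k → {A : (Fin n → Fin k → Fin n) × (Fin n → Fin k → Fin k) //
      Bireversible A.1 A.2} := fun A =>
      ⟨(fun q x => A.1.1 x q, fun q x => A.1.2 q x), (bir_iff _ _).2
        ⟨fun q => (A.1.2 q).bijective, fun x => (A.1.1 x).bijective, (conv_bir _ _).1 A.2⟩⟩
  apply Nat.card_le_card_of_injective g
  intro A B hAB
  have h2 := congrArg Subtype.val hAB
  apply Subtype.ext
  apply Prod.ext
  · funext x
    ext q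
    have h3 := congrArg (fun z => z.1 q x) h2
    exact congrArg Fin.val h3
  · funext q
    ext x
    have h3 := congrArg (fun z => z.2 q x) h2
    exact congrArg Fin.val h3

/-- Asymptotically almost all bireversible transducers over an alphabet of size at least three
generate a free group with basis the states. -/
theorem free_three (k : ℕ) (hk : 3 ≤ k) : Tendsto (fun n : ℕ =>
      (Nat.card {A : (Fin n → Fin k → Fin n) × (Fin n → Fin k → Fin k) //
        Bireversible A.1 A.2 ∧ FreeOnStates A.1 A.2} : ℝ) /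
      (Nat.card {A : (Fin n → Fin k → Fin n) × (Fin n → Fin k → Fin k) //
        Bireversible A.1 A.2} : ℝ)) atTop (𝓝 1) := by
  classical
  refine RNF40.tendsto_of_bad
    (fun n => Nat.card {A : (Fin n → Fin k → Fin n) × (Fin n → Fin k → Fin k) //
        Bireversible A.1 A.2 ∧ ¬ FreeOnStates A.1 A.2})
    (fun n => Nat.card {A : (Fin n → Fin k → Fin n) × (Fin n → Fin k → Fin k) //
        Bireversible A.1 A.2 ∧ FreeOnStates A.1 A.2})
    (fun n => Nat.card {A : (Fin n → Fin k → Fin n) × (Fin n → Fin k → Fin k) //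
        Bireversible A.1 A.2}) ?_ ?_ ?_
  · intro n _
    have : Nonempty {A : (Fin n → Fin k → Fin n) × (Fin n → Fin k → Fin k) //
        Bireversible A.1 A.2} := by
      refine ⟨⟨(fun q _ => q, fun _ a => a), ?_, ?_, ?_⟩⟩
      · intro q; exact Function.bijective_id
      · intro x; exact Function.bijective_id
      · intro b a _; exact Function.bijective_id
    exact Nat.card_pos
  · intro n
    rw [Nat.card_eq_fintype_card, Nat.card_eq_fintype_card, Nat.card_eq_fintype_card,
      Fintype.card_subtype, Fintype.card_subtype, Fintype.card_subtype,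
      ← Finset.card_union_of_disjoint]
    · congr 1
      ext A
      simp only [Finset.mem_union, Finset.mem_filter, Finset.mem_univ, true_and]
      tauto
    · rw [Finset.disjoint_left]
      intro A h1 h2
      rw [Finset.mem_filter] at h1 h2
      exact h2.2.2 h1.2.2
  · intro ε hε
    obtain ⟨n0, h0⟩ := good_generic k hk ε hε
    refine ⟨max n0 6, fun n hn => ?_⟩
    have h1 := h0 n (le_trans (le_max_left _ _) hn)
    have h6 : 6 ≤ n := le_trans (le_max_right _ _) hn
    have h2 : Nat.card {A : (Fin n → Fin k → Fin n) × (Fin n → Fin k → Fin k) //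
        Bireversible A.1 A.2 ∧ ¬ FreeOnStates A.1 A.2} ≤ Nat.card {A : BT n k // ¬ Good A} := by
      apply Nat.card_le_card_of_injective (fun A => (⟨toBT ⟨A.1, A.2.1⟩, by
        rintro ⟨⟨g0, g0'⟩, g1, g1'⟩
        apply A.2.2
        have hfree := free_of_good h6 (toBT ⟨A.1, A.2.1⟩) g0 g0' g1 g1'
        obtain ⟨f, hf0, hf⟩ := RNF40.exists_f A.1.1 A.1.2 A.2.1.1
        obtain ⟨e1, e2⟩ := hfree f hf0 hf
        exact ⟨f, hf0, hf, e1, e2⟩⟩ : {A : BT n k // ¬ Good A}))
      intro A B hAB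
      have h3 : toBT ⟨A.1, A.2.1⟩ = toBT ⟨B.1, B.2.1⟩ := congrArg Subtype.val hAB
      have h4 := toBT_inj h3
      apply Subtype.ext
      exact congrArg (fun z : {A : (Fin n → Fin k → Fin n) × (Fin n → Fin k → Fin k) //
        Bireversible A.1 A.2} => z.1) h4
    calc (Nat.card {A : (Fin n → Fin k → Fin n) × (Fin n → Fin k → Fin k) //
        Bireversible A.1 A.2 ∧ ¬ FreeOnStates A.1 A.2} : ℝ) ≤
        (Nat.card {A : BT n k // ¬ Good A} : ℝ) := by exact_mod_cast h2
      _ ≤ ε * (Nat.card (BT n k) : ℝ) := h1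
      _ ≤ _ := mul_le_mul_of_nonneg_left
          (by exact_mod_cast (card_BT_le : Nat.card (BT n k) ≤ _)) hε.le

/-- Asymptotically almost all bireversible transducers over a fixed alphabet generate a free
group with basis the states. -/
theorem free_all (k : ℕ) (hk : 2 ≤ k) : Tendsto (fun n : ℕ =>
      (Nat.card {A : (Fin n → Fin k → Fin n) × (Fin n → Fin k → Fin k) //
        Bireversible A.1 A.2 ∧ FreeOnStates A.1 A.2} : ℝ) /
      (Nat.card {A : (Fin n → Fin k → Fin n) × (Fin n → Fin k → Fin k) //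
        Bireversible A.1 A.2} : ℝ)) atTop (𝓝 1) := by
  rcases Nat.lt_or_ge k 3 with h | h
  · have h2 : k = 2 := by omega
    subst h2
    exact RNF40.generic_free
  · exact free_three k h

end RNK40
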