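import Pool.Agent.Lib_helper40.RNK.Defs

set_option autoImplicit false

namespace RNK40

open Equiv Equiv.Perm RND40 GF40

section det

variable {F Q : Type*} [Group F] [Fintype Q] [DecidableEq Q] (S : Sys F Q)

private theorem KA_dich (h6 : 6 ≤ Fintype.card Q)
    (hA : ∀ b, alternatingGroup Q ≤ (S.ρ b).range) (b : Bool) (w : F) (h1 : S.ρ (!b) w = 1)
    (h2 : S.ρ b w ≠ 1) : ∀ s ∈ alternatingGroup Q, ∃ v, S.ρ (!b) v = 1 ∧ S.ρ b v = s := by
  have key := normal_alt (by omega) ((S.ρ (!b)).ker.map (S.ρ b)) (by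
    intro t ht h hh
    obtain ⟨w, hw, rfl⟩ := hh
    obtain ⟨u, rfl⟩ := hA b ht
    refine ⟨u * w * u⁻¹, ?_, by simp⟩
    exact (inferInstance : (S.ρ (!b)).ker.Normal).conj_mem w hw u)
  rcases key with hb | ht
  · exfalso
    have h3 : S.ρ b w ∈ (S.ρ (!b)).ker.map (S.ρ b) := ⟨w, h1, rfl⟩
    rw [hb, Subgroup.mem_bot] at h3
    exact h2 h3
  · intro s hs
    obtain ⟨v, hv, hvs⟩ := ht hs
    exact ⟨v, hv, hvs⟩

private theorem KA_other (h6 : 6 ≤ Fintype.card Q)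
    (hA : ∀ b, alternatingGroup Q ≤ (S.ρ b).range) (b : Bool)
    (h : ∀ s ∈ alternatingGroup Q, ∃ v, S.ρ (!b) v = 1 ∧ S.ρ b v = s) :
    ∃ w, S.ρ b w = 1 ∧ S.ρ (!b) w ≠ 1 := by
  by_contra hcon
  push Not at hcon
  obtain ⟨q⟩ : Nonempty Q := Fintype.card_pos_iff.1 (by omega)
  obtain ⟨x, hx, y, hy, hxy⟩ := TT_noncomm h6 ((true, q) : Lt Q) true
  obtain ⟨u, rfl⟩ := hA (!b) hx.2
  obtain ⟨v, rfl⟩ := hA (!b) hy.2
  have h1 : S.ρ b (u * v * u⁻¹ * v⁻¹) ∈ alternatingGroup Q := by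
    rw [Perm.mem_alternatingGroup]
    simp only [map_mul, map_inv]
    rcases Int.units_eq_one_or (sign (S.ρ b u)) with h | h <;>
      rcases Int.units_eq_one_or (sign (S.ρ b v)) with h' | h' <;> rw [h, h'] <;> decide
  obtain ⟨z, hz1, hz2⟩ := h _ h1
  have h2 : S.ρ (!b) (z⁻¹ * (u * v * u⁻¹ * v⁻¹)) = 1 := by
    apply hcon
    rw [map_mul, map_inv, hz2, inv_mul_cancel]
  rw [map_mul, map_inv, hz1, inv_one, one_mul, map_mul, map_mul, map_mul, map_inv, map_inv] at h2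
  apply hxy
  have h3 := congrArg (fun f => f * S.ρ (!b) v * S.ρ (!b) u) h2
  simpa [mul_assoc] using h3

theorem H2_of (h6 : 6 ≤ Fintype.card Q) (hA : ∀ b, alternatingGroup Q ≤ (S.ρ b).range)
    (w : F) (hw : orderOf (S.ρ true w) ≠ orderOf (S.ρ false w)) : S.H2 := by
  have h0 : ∃ b, ∃ v, S.ρ (!b) v = 1 ∧ S.ρ b v ≠ 1 := by
    by_contra hcon
    push Not at hcon
    apply hw
    apply Nat.dvd_antisymm
    · rw [orderOf_dvd_iff_pow_eq_one, ← map_pow]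
      apply hcon true
      rw [map_pow]
      exact pow_orderOf_eq_one _
    · rw [orderOf_dvd_iff_pow_eq_one, ← map_pow]
      apply hcon false
      rw [map_pow]
      exact pow_orderOf_eq_one _
  obtain ⟨b, v, hv1, hv2⟩ := h0
  have h1 := KA_dich S h6 hA b v hv1 hv2
  obtain ⟨u, hu1, hu2⟩ := KA_other S h6 hA b h1
  have h2 := KA_dich S h6 hA (!b) u (by rwa [Bool.not_not]) hu2
  intro c
  rcases Bool.eq_or_eq_not c b with rfl | rfl
  · exact h1
  · exact h2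

end det

end RNK40
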