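import Pool.Agent.Lib_helper40.RNK.Defs
import Pool.Agent.Lib_helper40.GF.Crit2

set_option autoImplicit false

/-! Block KB (helper37): hypothesis H3 from H2 and the orders of sections at fixed points. -/

namespace RNK40

open Equiv Equiv.Perm RND40 GF40 GF40.Sys

section abs

variable {Q : Type*} [Fintype Q] [DecidableEq Q]

private theorem KB_no_inj (h6 : 6 ≤ Fintype.card Q) (q : Q) (f : Perm Q → Perm Q)
    (hf : ∀ s ∈ alternatingGroup Q, f s q = q)
    (hinj : ∀ s ∈ alternatingGroup Q, ∀ t ∈ alternatingGroup Q, f s = f t → s = t) : False := by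
  have hnt : Nontrivial Q := Fintype.one_lt_card_iff_nontrivial.1 (by omega)
  have h1 : Nat.card (alternatingGroup Q) ≤ Nat.card (MulAction.stabilizer (Perm Q) q) := by
    refine Nat.card_le_card_of_injective
      (fun s : alternatingGroup Q => (⟨f s.1, hf s.1 s.2⟩ : MulAction.stabilizer (Perm Q) q)) ?_
    intro s t hst
    have := congrArg Subtype.val hst
    exact Subtype.ext (hinj s.1 s.2 t.1 t.2 this)
  have h2 : Fintype.card Q * Nat.card (MulAction.stabilizer (Perm Q) q) =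
      Nat.card (Perm Q) := by
    have h := MulAction.index_stabilizer (Perm Q) q
    have h' : (MulAction.orbit (Perm Q) q) = Set.univ := MulAction.orbit_eq_univ (Perm Q) q
    rw [h', Set.ncard_univ, Nat.card_eq_fintype_card] at h
    rw [← h]
    exact Subgroup.index_mul_card _
  have h3 : 2 * Nat.card (alternatingGroup Q) = Nat.card (Perm Q) :=
    two_mul_nat_card_alternatingGroup
  have hpos : 0 < Nat.card (MulAction.stabilizer (Perm Q) q) := Nat.card_pos
  nlinarith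

variable {G0 : Type*} [Group G0]

/-- a square which is not trivial -/
private theorem KB_sq (h6 : 6 ≤ Fintype.card Q) (y : Lt Q) (e : Bool) (r : G0 →* Perm Q)
    (hT : ∀ s ∈ TT y e, ∃ w, r w = s) : ∃ g, r g * r g ≠ 1 := by
  by_contra hc
  push Not at hc
  obtain ⟨a, ha, b, hb, hab⟩ := TT_noncomm h6 y e
  obtain ⟨wa, rfl⟩ := hT a ha
  obtain ⟨wb, rfl⟩ := hT b hb
  apply hab
  have h1 := hc wa
  have h2 := hc wb
  have h3 := hc (wa * wb)
  rw [map_mul] at h3
  have h4 : r wa = (r wa)⁻¹ := eq_inv_of_mul_eq_one_left h1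
  have h5 : r wb = (r wb)⁻¹ := eq_inv_of_mul_eq_one_left h2
  have h6 : r wa * r wb = (r wa * r wb)⁻¹ := eq_inv_of_mul_eq_one_left h3
  rw [h6, mul_inv_rev, ← h4, ← h5]

private theorem KB_or (h6 : 6 ≤ Fintype.card Q) (y : Lt Q) (e : Bool) (r a c : G0 →* Perm Q)
    (hN : ∀ g, a g = 1 → c g = 1 → r g = 1)
    (hU : ∀ w, r w ∈ UU y e) (hT : ∀ s ∈ TT y e, ∃ w, r w = s) :
    (∀ g, a g = 1 → r g = 1) ∨ (∀ g, c g = 1 → r g = 1) := by
  by_contra hc
  push Not at hc
  obtain ⟨⟨g1, h1, h1'⟩, g2, h2, h2'⟩ := hc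
  have k1 := surj_of_ne h6 y e r hU hT a.ker inferInstance ⟨g1, h1, h1'⟩
  have k2 := surj_of_ne h6 y e r hU hT c.ker inferInstance ⟨g2, h2, h2'⟩
  obtain ⟨s, hs, t, ht, hst⟩ := TT_noncomm h6 y e
  obtain ⟨w, hw, rfl⟩ := k1 s hs
  obtain ⟨v, hv, rfl⟩ := k2 t ht
  apply hst
  have hw' : a w = 1 := hw
  have hv' : c v = 1 := hv
  have h3 : r (w * v * w⁻¹ * v⁻¹) = 1 := by
    refine hN _ ?_ ?_
    · rw [map_mul, map_mul, map_mul, map_inv, map_inv, hw']
      simp
    · rw [map_mul, map_mul, map_mul, map_inv, map_inv, hv']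
      simp
  rw [map_mul, map_mul, map_mul, map_inv, map_inv] at h3
  have := congrArg (fun f => f * r v * r w) h3
  simpa [mul_assoc] using this

private theorem KB_back (h6 : 6 ≤ Fintype.card Q) (y : Lt Q) (e : Bool) (r : G0 →* Perm Q)
    (hT : ∀ s ∈ TT y e, ∃ w, r w = s) (y' : Lt Q) (e' : Bool) (a : G0 →* Perm Q)
    (hU' : ∀ w, a w ∈ UU y' e') (hT' : ∀ s ∈ TT y' e', ∃ w, a w = s)
    (h : ∀ g, a g = 1 → r g = 1) : ∀ g, r g = 1 → a g = 1 := by
  intro g0 hg0
  by_contra hne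
  have k1 := surj_of_ne h6 y' e' a hU' hT' r.ker inferInstance ⟨g0, hg0, hne⟩
  obtain ⟨g, hg⟩ := KB_sq h6 y e r hT
  apply hg
  have h1 : a g * a g ∈ TT y' e' := by
    refine ⟨(UU y' e').mul_mem (hU' g) (hU' g), ?_⟩
    show a g * a g ∈ alternatingGroup Q
    rw [Perm.mem_alternatingGroup, Perm.sign_mul, Int.units_mul_self]
  obtain ⟨w, hw, hwg⟩ := k1 _ h1
  have hw' : r w = 1 := hw
  have h2 : a (w⁻¹ * (g * g)) = 1 := by
    rw [map_mul, map_inv, map_mul, hwg, inv_mul_cancel]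
  have h3 := h _ h2
  rw [map_mul, map_inv, hw', inv_one, one_mul, map_mul] at h3
  exact h3

end abs

variable {F Q : Type*} [Group F] [Fintype Q] [DecidableEq Q] {S : Sys F Q}

private theorem KB_rhoT (h2 : S.H2) (z : Lt Q) (e : Bool) :
    ∀ s ∈ TT z e, ∃ w : S.St [z], ((S.ρ e).comp (S.St [z]).subtype) w = s := by
  intro s hs
  obtain ⟨w, hw, hws⟩ := F1 h2 z e s hs
  exact ⟨⟨w, (S.mem_St_singleton z w).2 ((S.Mk_one z w).1 hw)⟩, hws⟩

omit [Fintype Q] [DecidableEq Q] in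
private theorem KB_rhoU (z : Lt Q) (e : Bool) (w : S.St [z]) :
    ((S.ρ e).comp (S.St [z]).subtype) w ∈ UU z e :=
  S.rho_mem_UU z e w.1 ((S.mem_St_singleton z _).1 w.2)

private theorem KB_lamT (h2 : S.H2) (z : Lt Q) (e : Bool) :
    ∀ s ∈ TT (linv z) e, ∃ w : S.St [z], (S.lam (S.St [z]) [z] le_rfl e) w = s := by
  intro s hs
  have hz : (winv [z]).head? = some (linv z) := by simp [winv]
  obtain ⟨w, hw, hws⟩ := S.lam_T (F1 h2) (red_singleton z) (by simp) hz e s hs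
  exact ⟨⟨w, hw⟩, hws⟩

omit [Fintype Q] [DecidableEq Q] in
private theorem KB_lamU (z : Lt Q) (e : Bool) (w : S.St [z]) :
    (S.lam (S.St [z]) [z] le_rfl e) w ∈ UU (linv z) e := by
  have hz : (winv [z]).head? = some (linv z) := by simp [winv]
  exact S.lam_U hz e w.2

/-- If `N` acts trivially below `z`, then the local action at `z` of sign `e` has the same kernel as
the action of sign `!e`. -/
private theorem KB_iff (h6 : 6 ≤ Fintype.card Q) (h2 : S.H2) (z : Lt Q) (e : Bool)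
    (hN : ∀ h ∈ S.N, S.ρ e (S.ls h z) = 1) (v : F) (hv : S.la v z = z) :
    S.ρ (!e) v = 1 ↔ S.ρ e (S.ls v z) = 1 := by
  have hN' : ∀ g : S.St [z], ((S.ρ e).comp (S.St [z]).subtype) g = 1 →
      ((S.ρ (!e)).comp (S.St [z]).subtype) g = 1 → (S.lam (S.St [z]) [z] le_rfl e) g = 1 := by
    intro g h1 h3
    have h1' : S.ρ e g.1 = 1 := h1
    have h3' : S.ρ (!e) g.1 = 1 := h3
    have h4 : g.1 ∈ S.N := by
      rw [S.mem_N]
      intro b
      by_cases hb : b = e
      · rw [hb]; exact h1'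
      · have : b = !e := by cases b <;> cases e <;> simp_all
        rw [this]; exact h3'
    have := hN g.1 h4
    rw [S.lam_apply]
    simpa using this
  have key : ¬ ∀ g : S.St [z], ((S.ρ e).comp (S.St [z]).subtype) g = 1 →
      (S.lam (S.St [z]) [z] le_rfl e) g = 1 := by
    intro hcon
    by_cases he : e = z.1
    · -- the image contains the alternating group, the other one fixes `z.2`
      have hTT : ∀ s ∈ alternatingGroup Q, s ∈ TT (linv z) e := by
        intro s hs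
        refine ⟨fun h => ?_, hs⟩
        rw [linv_fst, ← he] at h
        exact absurd h ((by decide : ∀ x : Bool, x ≠ !x) e)
      choose! f hf using fun s (hs : s ∈ alternatingGroup Q) => KB_lamT h2 z e s (hTT s hs)
      refine KB_no_inj h6 z.2 (fun s => ((S.ρ e).comp (S.St [z]).subtype) (f s)) ?_ ?_
      · intro s _
        exact KB_rhoU z e (f s) he
      · intro s hs t ht hst
        have hst' : ((S.ρ e).comp (S.St [z]).subtype) (f s) =
          ((S.ρ e).comp (S.St [z]).subtype) (f t) := hst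
        have h1 : ((S.ρ e).comp (S.St [z]).subtype) ((f s)⁻¹ * f t) = 1 := by
          rw [map_mul, map_inv, hst', inv_mul_cancel]
        have h3 := hcon _ h1
        rw [map_mul, map_inv, hf s hs, hf t ht] at h3
        exact inv_mul_eq_one.1 h3
    · have hback := KB_back h6 (linv z) e (S.lam (S.St [z]) [z] le_rfl e) (KB_lamT h2 z e) z e
        ((S.ρ e).comp (S.St [z]).subtype) (KB_rhoU z e) (KB_rhoT h2 z e) hcon
      have hTT : ∀ s ∈ alternatingGroup Q, s ∈ TT z e := by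
        intro s hs
        exact ⟨fun h => absurd h he, hs⟩
      have he' : e = (linv z).1 := by
        rw [linv_fst]
        cases e <;> cases hz : z.1 <;> simp_all
      choose! f hf using fun s (hs : s ∈ alternatingGroup Q) => KB_rhoT h2 z e s (hTT s hs)
      refine KB_no_inj h6 z.2 (fun s => (S.lam (S.St [z]) [z] le_rfl e) (f s)) ?_ ?_
      · intro s _
        exact KB_lamU z e (f s) he'
      · intro s hs t ht hst
        have hst' : (S.lam (S.St [z]) [z] le_rfl e) (f s) =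
          (S.lam (S.St [z]) [z] le_rfl e) (f t) := hst
        have h1 : (S.lam (S.St [z]) [z] le_rfl e) ((f s)⁻¹ * f t) = 1 := by
          rw [map_mul, map_inv, hst', inv_mul_cancel]
        have h3 := hback _ h1
        rw [map_mul, map_inv, hf s hs, hf t ht] at h3
        exact inv_mul_eq_one.1 h3
  have h3 : ∀ g : S.St [z], ((S.ρ (!e)).comp (S.St [z]).subtype) g = 1 →
      (S.lam (S.St [z]) [z] le_rfl e) g = 1 := by
    rcases KB_or h6 (linv z) e (S.lam (S.St [z]) [z] le_rfl e)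
      ((S.ρ e).comp (S.St [z]).subtype) ((S.ρ (!e)).comp (S.St [z]).subtype) hN'
      (KB_lamU z e) (KB_lamT h2 z e) with h | h
    · exact absurd h key
    · exact h
  have h4 := KB_back h6 (linv z) e (S.lam (S.St [z]) [z] le_rfl e) (KB_lamT h2 z e) z (!e)
        ((S.ρ (!e)).comp (S.St [z]).subtype) (KB_rhoU z (!e)) (KB_rhoT h2 z (!e)) h3
  have hvm : v ∈ S.St [z] := (S.mem_St_singleton z v).2 hv
  constructor
  · intro h
    have := h3 ⟨v, hvm⟩ h
    rw [S.lam_apply] at this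
    simpa using this
  · intro h
    refine h4 ⟨v, hvm⟩ ?_
    rw [S.lam_apply]
    simpa using h

omit [Fintype Q] [DecidableEq Q] in
/-- powers and sections -/
private theorem KB_pow (z : Lt Q) (w : F) (hw : S.la w z = z) (m : ℕ) :
    S.la (w ^ m) z = z ∧ S.ls (w ^ m) z = S.ls w z ^ m := by
  induction m with
  | zero => simp [S.la_one, S.ls_one]
  | succ m ih =>
    constructor
    · rw [pow_succ, S.la_mul, hw, ih.1]
    · rw [pow_succ, S.ls_mul, hw, ih.2, pow_succ]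

/-- the claim: if H3 fails for the sign of `z1`, `z2` and `e` -/
private theorem KB_claim (h6 : 6 ≤ Fintype.card Q) (h2 : S.H2) (b e : Bool)
    (hno : ∀ h ∈ S.N, ∀ q1 q2, S.ρ e (S.sc b h q1) = 1 → S.ρ e (S.sc b h q2) = 1)
    (w : F) (q1 q2 : Q) (h1 : S.ρ b w q1 = q1) (h2' : S.ρ b w q2 = q2)
    (h : S.ρ e (S.sc b w q1) = 1) : S.ρ e (S.sc b w q2) = 1 := by
  have hla1 : S.la w (b, q1) = (b, q1) := Prod.ext rfl h1
  have hla2 : S.la w (b, q2) = (b, q2) := Prod.ext rfl h2'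
  by_cases hB : ∀ g ∈ S.N, S.ρ e (S.ls g ((b, q2) : Lt Q)) = 1
  · have hB1 : ∀ g ∈ S.N, S.ρ e (S.ls g ((b, q1) : Lt Q)) = 1 :=
      fun g hg => hno g hg q2 q1 (hB g hg)
    have h3 := (KB_iff h6 h2 (b, q1) e hB1 w hla1).2 h
    exact (KB_iff h6 h2 (b, q2) e hB w hla2).1 h3
  · push Not at hB
    obtain ⟨g0, hg0, hg0'⟩ := hB
    have hK : ((S.N).subgroupOf (S.St [((b, q2) : Lt Q)])).Normal := by
      constructor
      intro w hw g
      rw [Subgroup.mem_subgroupOf] at hw ⊢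
      exact S.N_normal.conj_mem _ hw _
    have hsurj := surj_of_ne h6 (linv ((b, q2) : Lt Q)) e
      (S.lam (S.St [((b, q2) : Lt Q)]) [(b, q2)] le_rfl e) (KB_lamU (b, q2) e)
      (KB_lamT h2 (b, q2) e) _ hK
      ⟨⟨g0, N_le_St (b, q2) hg0⟩, (Subgroup.mem_subgroupOf).2 hg0, hg0'⟩
    have hU : S.ρ e (S.sc b w q2) ∈ UU (linv ((b, q2) : Lt Q)) e :=
      KB_lamU (b, q2) e ⟨w, (S.mem_St_singleton _ _).2 hla2⟩
    refine central (by omega) (linv ((b, q2) : Lt Q)) e _ hU ?_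
    intro t ht
    obtain ⟨g, hg, hgt⟩ := hsurj t ht
    have hgN : g.1 ∈ S.N := (Subgroup.mem_subgroupOf).1 hg
    have hgt' : S.ρ e (S.ls g.1 ((b, q2) : Lt Q)) = t := hgt
    -- the commutator
    have hinvla : ∀ z : Lt Q, S.la w z = z → S.la w⁻¹ z = z := by
      intro z hz
      have := S.la_mul w⁻¹ w z
      rw [inv_mul_cancel, S.la_one, hz] at this
      exact this.symm
    have hinvls : ∀ (v : F) (z : Lt Q), S.la v z = z → S.ls v⁻¹ z = (S.ls v z)⁻¹ := by
      intro v z hz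
      have := S.ls_mul v⁻¹ v z
      rw [inv_mul_cancel, S.ls_one, hz] at this
      exact eq_inv_of_mul_eq_one_left this.symm
    have hcomm : ∀ z : Lt Q, S.la w z = z →
        S.ls (w * g.1 * w⁻¹ * (g.1)⁻¹) z =
          S.ls w z * S.ls g.1 z * (S.ls w z)⁻¹ * (S.ls g.1 z)⁻¹ := by
      intro z hz
      have hgz : S.la g.1 z = z := S.la_of_N hgN z
      have hgz' : S.la (g.1)⁻¹ z = z := S.la_of_N (S.N.inv_mem hgN) z
      rw [S.ls_mul, hgz', S.ls_mul, hinvla z hz, S.ls_mul, hgz, hinvls w z hz,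
        hinvls g.1 z hgz]
    have hcN : w * g.1 * w⁻¹ * (g.1)⁻¹ ∈ S.N :=
      S.N.mul_mem (S.N_normal.conj_mem _ hgN w) (S.N.inv_mem hgN)
    have hc1 : S.ρ e (S.ls (w * g.1 * w⁻¹ * (g.1)⁻¹) ((b, q1) : Lt Q)) = 1 := by
      rw [hcomm _ hla1, map_mul, map_mul, map_mul, map_inv, map_inv]
      have : S.ρ e (S.ls w ((b, q1) : Lt Q)) = 1 := h
      rw [this]
      simp
    have hc2 := hno _ hcN q1 q2 hc1
    have hc3 : S.ρ e (S.ls (w * g.1 * w⁻¹ * (g.1)⁻¹) ((b, q2) : Lt Q)) = 1 := hc2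
    rw [hcomm _ hla2, map_mul, map_mul, map_mul, map_inv, map_inv, hgt'] at hc3
    have h5 : S.ρ e (S.ls w ((b, q2) : Lt Q)) = S.ρ e (S.sc b w q2) := rfl
    rw [h5] at hc3
    have := congrArg (fun f => f * t * S.ρ e (S.sc b w q2)) hc3
    simpa [mul_assoc] using this

variable (S)

theorem H3_of (h6 : 6 ≤ Fintype.card Q) (h2 : S.H2)
    (h : ∀ b e, ∃ (w : F) (q1 q2 : Q), S.ρ b w q1 = q1 ∧ S.ρ b w q2 = q2 ∧
      orderOf (S.ρ e (S.sc b w q1)) ≠ orderOf (S.ρ e (S.sc b w q2))) : S.H3 := by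
  intro b e
  by_contra hcon
  have hno : ∀ h ∈ S.N, ∀ q1 q2, S.ρ e (S.sc b h q1) = 1 → S.ρ e (S.sc b h q2) = 1 := by
    intro g hg q1 q2 h1
    by_contra h3
    exact hcon ⟨g, hg, q1, q2, h1, h3⟩
  obtain ⟨w, q1, q2, h1, h3, hne⟩ := h b e
  apply hne
  have key : ∀ p1 p2 : Q, S.ρ b w p1 = p1 → S.ρ b w p2 = p2 →
      orderOf (S.ρ e (S.sc b w p2)) ∣ orderOf (S.ρ e (S.sc b w p1)) := by
    intro p1 p2 hp1 hp2
    refine orderOf_dvd_of_pow_eq_one ?_
    obtain ⟨k1, k2⟩ := KB_pow (S := S) (b, p1) w (Prod.ext rfl hp1)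
      (orderOf (S.ρ e (S.sc b w p1)))
    obtain ⟨k3, k4⟩ := KB_pow (S := S) (b, p2) w (Prod.ext rfl hp2)
      (orderOf (S.ρ e (S.sc b w p1)))
    have k5 : S.ρ b (w ^ orderOf (S.ρ e (S.sc b w p1))) p1 = p1 := congrArg Prod.snd k1
    have k6 : S.ρ b (w ^ orderOf (S.ρ e (S.sc b w p1))) p2 = p2 := congrArg Prod.snd k3
    have k7 : S.sc b (w ^ orderOf (S.ρ e (S.sc b w p1))) p1 =
      S.sc b w p1 ^ orderOf (S.ρ e (S.sc b w p1)) := k2
    have k8 : S.sc b (w ^ orderOf (S.ρ e (S.sc b w p1))) p2 =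
      S.sc b w p2 ^ orderOf (S.ρ e (S.sc b w p1)) := k4
    have := KB_claim h6 h2 b e hno _ p1 p2 k5 k6 (by rw [k7, map_pow, pow_orderOf_eq_one])
    rwa [k8, map_pow] at this
  exact Nat.dvd_antisymm (key q2 q1 h3 h1) (key q1 q2 h1 h3)

end RNK40
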