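import Pool.Agent.Lib_helper40.RNK.Defs

set_option autoImplicit false

/-! RNK, block KC: the inverse transducer. -/

namespace RNK40

open Equiv Equiv.Perm RND40 GF40

section inv

variable {n k : ℕ}

theorem KC_MM_apply (A : BT n k) (y : Fin k) (q : Fin n) :
    MM A y q = A.1.1 ((A.1.2 q)⁻¹ y) q := rfl

theorem inv_bir (A : BT n k) : Bir (fun y => MM A y) (fun q => (A.1.2 q)⁻¹) := by
  intro x
  have h : (fun q => (fun y => MM A y) (((fun q => (A.1.2 q)⁻¹) q)⁻¹ x) q) = A.1.1 x := by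
    funext q
    show MM A ((A.1.2 q)⁻¹⁻¹ x) q = A.1.1 x q
    rw [KC_MM_apply, _root_.inv_inv]
    simp
  show Function.Bijective (fun q => (fun y => MM A y) (((fun q => (A.1.2 q)⁻¹) q)⁻¹ x) q)
  rw [h]
  exact (A.1.1 x).bijective

/-- the inverse transducer -/
noncomputable def inv (A : BT n k) : BT n k := ⟨(fun y => MM A y, fun q => (A.1.2 q)⁻¹), inv_bir A⟩

theorem MM_inv (A : BT n k) (y : Fin k) : MM (inv A) y = A.1.1 y := by
  ext1 q
  rw [KC_MM_apply]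
  show MM A ((A.1.2 q)⁻¹⁻¹ y) q = A.1.1 y q
  rw [KC_MM_apply, _root_.inv_inv]
  simp

theorem inv_inv (A : BT n k) : inv (inv A) = A := by
  apply Subtype.ext
  apply Prod.ext
  · funext y
    exact MM_inv A y
  · funext q
    show (A.1.2 q)⁻¹⁻¹ = A.1.2 q
    exact _root_.inv_inv _

theorem KC_Eb (A : BT n k) (b : Bool) :
    Eb (inv A).1.1 (inv A).1.2 (inv A).2 b = Eb A.1.1 A.1.2 A.2 (!b) := by
  cases b
  · funext y
    exact MM_inv A y
  · rfl

theorem KC_lb (A : BT n k) (b : Bool) : lb (inv A).1.2 b = lb A.1.2 (!b) := by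
  cases b
  · funext q x
    show (A.1.2 q)⁻¹⁻¹ x = A.1.2 q x
    rw [_root_.inv_inv]
  · rfl

theorem inv_rho (A : BT n k) (b : Bool) (w : FreeGroup (Fin k)) :
    (autoSys (inv A).1.1 (inv A).1.2 (inv A).2).ρ b w =
      (autoSys A.1.1 A.1.2 A.2).ρ (!b) w := by
  show FreeGroup.lift (Eb (inv A).1.1 (inv A).1.2 (inv A).2 b) w =
    FreeGroup.lift (Eb A.1.1 A.1.2 A.2 (!b)) w
  rw [KC_Eb]

theorem inv_sc (A : BT n k) (b : Bool) (w : FreeGroup (Fin k)) (q : Fin n) :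
    (autoSys (inv A).1.1 (inv A).1.2 (inv A).2).sc b w q =
      (autoSys A.1.1 A.1.2 A.2).sc (!b) w q := by
  show secl (Eb (inv A).1.1 (inv A).1.2 (inv A).2 b) (lb (inv A).1.2 b) w q =
    secl (Eb A.1.1 A.1.2 A.2 (!b)) (lb A.1.2 (!b)) w q
  rw [KC_Eb, KC_lb]

end inv

end RNK40
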