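import Pool.Agent.Lib_helper40.RNK.Defs

set_option autoImplicit false

/-! Block KD (helper39): sections of the words `x (y⁻¹ x)^i`. -/

namespace RNK40

open Equiv Equiv.Perm RND40 GF40

/-- the words -/
def wrd {k : ℕ} (x y : Fin k) (i : ℕ) : FreeGroup (Fin k) :=
  FreeGroup.of x * ((FreeGroup.of y)⁻¹ * FreeGroup.of x) ^ i

open Classical in
/-- the words `c₀ d₁⁻¹ c₁ ... dᵢ⁻¹ cᵢ` -/
noncomputable def WW (k : ℕ) : ℕ → Finset (FreeGroup (Fin k))
  | 0 => Finset.univ.image FreeGroup.of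
  | i + 1 => (WW k i ×ˢ (Finset.univ : Finset (Fin k × Fin k))).image
      (fun p => p.1 * (FreeGroup.of p.2.1)⁻¹ * FreeGroup.of p.2.2)

private theorem kd_wrd_succ {k : ℕ} (x y : Fin k) (i : ℕ) :
    wrd x y (i + 1) = wrd x y i * ((FreeGroup.of y)⁻¹ * FreeGroup.of x) := by
  unfold wrd
  rw [pow_succ, mul_assoc]

private theorem kd_secl_inv {Q X : Type*} (E : X → Perm Q) (l : Q → X → X) (y : X) (p : Q) :
    secl E l (FreeGroup.of y)⁻¹ p = (FreeGroup.of (l ((E y)⁻¹ p) y))⁻¹ := by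
  have h1 := secl_mul E l (FreeGroup.of y) (FreeGroup.of y)⁻¹ p
  rw [mul_inv_cancel, secl_one, secl_of, map_inv, FreeGroup.lift_apply_of] at h1
  exact eq_inv_of_mul_eq_one_right h1.symm

private theorem kd_step {Q X : Type*} (E : X → Perm Q) (l : Q → X → X) (x y : X) (q : Q)
    (w : FreeGroup X) :
    secl E l (w * ((FreeGroup.of y)⁻¹ * FreeGroup.of x)) q =
      secl E l w ((E y)⁻¹ (E x q)) * (FreeGroup.of (l ((E y)⁻¹ (E x q)) y))⁻¹ *
        FreeGroup.of (l q x) := by
  rw [secl_mul, secl_mul, secl_of, map_mul, map_inv, FreeGroup.lift_apply_of,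
    FreeGroup.lift_apply_of, Perm.mul_apply, kd_secl_inv, mul_assoc]

theorem sc_wrd_mem {n k : ℕ} (A : BT n k) (x y : Fin k) (i : ℕ) (q : Fin n) :
    (autoSys A.1.1 A.1.2 A.2).sc true (wrd x y i) q ∈ WW k i := by
  classical
  show secl (Eb A.1.1 A.1.2 A.2 true) (lb A.1.2 true) (wrd x y i) q ∈ WW k i
  induction i generalizing q with
  | zero =>
    have h1 : wrd x y 0 = FreeGroup.of x := by
      unfold wrd
      rw [pow_zero, mul_one]
    rw [h1, secl_of]
    exact Finset.mem_image_of_mem _ (Finset.mem_univ _)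
  | succ i ih =>
    rw [kd_wrd_succ, kd_step, WW, Finset.mem_image]
    exact ⟨(_, (_, _)), Finset.mem_product.2 ⟨ih _, Finset.mem_univ _⟩, rfl⟩

private theorem kd_key {n k : ℕ} (A : BT n k) (x y : Fin k) (hxy : x ≠ y) (i : ℕ) (q : Fin n) :
    ∃ L : List (Fin k × Bool),
      secl (Eb A.1.1 A.1.2 A.2 true) (lb A.1.2 true) (wrd x y i) q =
        FreeGroup.mk (L ++ [(A.1.2 q x, true)]) ∧
      FreeGroup.IsReduced (L ++ [(A.1.2 q x, true)]) := by
  induction i generalizing q with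
  | zero =>
    refine ⟨[], ?_, FreeGroup.IsReduced.singleton⟩
    have h1 : wrd x y 0 = FreeGroup.of x := by
      unfold wrd
      rw [pow_zero, mul_one]
    rw [h1, secl_of]
    rfl
  | succ i ih =>
    set q1 : Fin n := (A.1.1 y)⁻¹ (A.1.1 x q) with hq1
    obtain ⟨L, hL, hr⟩ := ih q1
    refine ⟨L ++ [(A.1.2 q1 x, true)] ++ [(A.1.2 q1 y, false)], ?_, ?_⟩
    · rw [kd_wrd_succ, kd_step]
      have h1 : (Eb A.1.1 A.1.2 A.2 true y)⁻¹ (Eb A.1.1 A.1.2 A.2 true x q) = q1 := rfl
      rw [h1, hL]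
      have h2 : (FreeGroup.of (lb A.1.2 true q1 y))⁻¹ = FreeGroup.mk [(A.1.2 q1 y, false)] := rfl
      have h3 : FreeGroup.of (lb A.1.2 true q x) = FreeGroup.mk [(A.1.2 q x, true)] := rfl
      rw [h2, h3, FreeGroup.mul_mk, FreeGroup.mul_mk]
    · have hne1 : A.1.2 q1 x ≠ A.1.2 q1 y := fun h => hxy ((A.1.2 q1).injective h)
      have hne2 : A.1.2 q1 y ≠ A.1.2 q x := by
        intro h
        have hb := (A.2 (A.1.2 q x)).1
        have h4 : A.1.1 ((A.1.2 q1)⁻¹ (A.1.2 q x)) q1 = A.1.1 ((A.1.2 q)⁻¹ (A.1.2 q x)) q := by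
          have e1 : (A.1.2 q1)⁻¹ (A.1.2 q x) = y := by
            rw [Perm.inv_eq_iff_eq]
            exact h.symm
          have e2 : (A.1.2 q)⁻¹ (A.1.2 q x) = x := by
            rw [Perm.inv_eq_iff_eq]
          have e3 : A.1.1 y q1 = A.1.1 x q := by
            rw [hq1]
            exact (Perm.inv_eq_iff_eq.1 rfl).symm
          rw [e1, e2, e3]
        have h5 : q1 = q := hb h4
        rw [h5] at h
        exact hxy ((A.1.2 q).injective h).symm
      unfold FreeGroup.IsReduced at hr ⊢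
      rw [List.append_assoc, List.isChain_append]
      refine ⟨hr, ?_, ?_⟩
      · rw [List.singleton_append, List.isChain_cons_cons]
        exact ⟨fun h => absurd h hne2, List.isChain_singleton _⟩
      · intro a ha b hb
        rw [List.getLast?_append, List.getLast?_singleton, Option.some_or, Option.mem_def,
          Option.some.injEq] at ha
        rw [List.singleton_append, List.head?_cons, Option.mem_def, Option.some.injEq] at hb
        subst ha
        subst hb
        exact fun h => absurd h hne1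

theorem sc_wrd_ne {n k : ℕ} (A : BT n k) (x y : Fin k) (hxy : x ≠ y) (i : ℕ) (q q' : Fin n)
    (hq : A.1.2 q x ≠ A.1.2 q' x) :
    (autoSys A.1.1 A.1.2 A.2).sc true (wrd x y i) q ≠
      (autoSys A.1.1 A.1.2 A.2).sc true (wrd x y i) q' := by
  show secl (Eb A.1.1 A.1.2 A.2 true) (lb A.1.2 true) (wrd x y i) q ≠
    secl (Eb A.1.1 A.1.2 A.2 true) (lb A.1.2 true) (wrd x y i) q'
  obtain ⟨L, hL, hr⟩ := kd_key A x y hxy i q
  obtain ⟨L', hL', hr'⟩ := kd_key A x y hxy i q'
  intro h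
  rw [hL, hL'] at h
  have h1 := congrArg FreeGroup.toWord h
  rw [FreeGroup.toWord_mk, FreeGroup.toWord_mk, hr.reduce_eq, hr'.reduce_eq] at h1
  have h2 := congrArg List.getLast? h1
  rw [List.getLast?_append, List.getLast?_append, List.getLast?_singleton,
    List.getLast?_singleton, Option.some_or, Option.some_or, Option.some.injEq] at h2
  exact hq (congrArg Prod.fst h2)

end RNK40
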