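import Pool.Agent.Lib_helper40.RNK.Defs

set_option autoImplicit false

/-! Block KE: words have few fixed points (walk and switching). -/

namespace RNK40

open Equiv Equiv.Perm RND40 GF40

section KE

variable {n k : ℕ}

/-- one letter -/
def KE_act (D : Fin k → Perm (Fin n)) (a : Fin k × Bool) : Perm (Fin n) :=
  cond a.2 (D a.1) (D a.1)⁻¹

/-- the walk -/
def KE_W (D : Fin k → Perm (Fin n)) (h : ℕ → Fin k × Bool) (q : Fin n) : ℕ → Fin n
  | 0 => q
  | j + 1 => KE_act D (h j) (KE_W D h q j)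

/-- source of the edge of step `j` -/
def KE_src (D : Fin k → Perm (Fin n)) (h : ℕ → Fin k × Bool) (q : Fin n) (j : ℕ) : Fin n :=
  cond (h j).2 (KE_W D h q j) (KE_W D h q (j + 1))

theorem KE_D_src (D : Fin k → Perm (Fin n)) (h : ℕ → Fin k × Bool) (q : Fin n) (j : ℕ) :
    D (h j).1 (KE_src D h q j) = cond (h j).2 (KE_W D h q (j + 1)) (KE_W D h q j) := by
  unfold KE_src
  cases hb : (h j).2
  · simp [KE_W, KE_act, hb]
  · simp [KE_W, KE_act, hb]

theorem KE_W_inj (D : Fin k → Perm (Fin n)) (h : ℕ → Fin k × Bool) (j : ℕ) :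
    Function.Injective (fun q => KE_W D h q j) := by
  induction j with
  | zero => exact fun _ _ e => e
  | succ j ih =>
    intro q q' e
    exact ih ((KE_act D (h j)).injective e)

theorem KE_src_inj (D : Fin k → Perm (Fin n)) (h : ℕ → Fin k × Bool) (j : ℕ) :
    Function.Injective (fun q => KE_src D h q j) := by
  intro q q' e
  simp only [KE_src] at e
  cases hb : (h j).2
  · rw [hb] at e
    exact KE_W_inj D h (j + 1) e
  · rw [hb] at e
    exact KE_W_inj D h j e

theorem KE_W_succ (D : Fin k → Perm (Fin n)) (h : ℕ → Fin k × Bool) (q : Fin n) (j : ℕ) :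
    KE_W D h q (j + 1) = KE_W D (fun i => h (i + 1)) (KE_act D (h 0) q) j := by
  induction j with
  | zero => rfl
  | succ j ih =>
    rw [KE_W, ih]
    rfl

theorem KE_prod (D : Fin k → Perm (Fin n)) (a0 : Fin k × Bool) (l : List (Fin k × Bool)) :
    ∀ q, ((l.reverse.map (KE_act D)).prod) q = KE_W D (fun j => l.getD j a0) q l.length := by
  induction l with
  | nil => intro q; rfl
  | cons a l ih =>
    intro q
    rw [List.reverse_cons, List.map_append, List.prod_append, Perm.mul_apply, ih]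
    rw [List.length_cons, KE_W_succ]
    simp

theorem KE_lift (D : Fin k → Perm (Fin n)) (a0 : Fin k × Bool) (g : List (Fin k × Bool))
    (q : Fin n) : FreeGroup.lift D (FreeGroup.mk g) q =
      KE_W D (fun j => g.reverse.getD j a0) q g.length := by
  rw [FreeGroup.lift_mk, ← List.length_reverse, ← KE_prod, List.reverse_reverse]
  rfl

theorem KE_red (a0 : Fin k × Bool) (g : List (Fin k × Bool)) (hg : FreeGroup.IsReduced g) (j : ℕ)
    (hj : j + 1 < g.length) (h1 : (g.reverse.getD j a0).1 = (g.reverse.getD (j + 1) a0).1) :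
    (g.reverse.getD j a0).2 = (g.reverse.getD (j + 1) a0).2 := by
  have h2 : g.reverse.IsChain fun a b => b.1 = a.1 → b.2 = a.2 := by
    rw [List.isChain_reverse]
    exact hg
  rw [List.isChain_iff_getElem] at h2
  have h3 := h2 j (by rw [List.length_reverse]; exact hj)
  rw [List.getD_eq_getElem _ _ (by rw [List.length_reverse]; omega),
    List.getD_eq_getElem _ _ (by rw [List.length_reverse]; omega)] at h1 ⊢
  exact (h3 h1.symm).symm

/-! ### The switch -/

/-- the switch -/
def KE_sw (D : Fin k → Perm (Fin n)) (x : Fin k) (p p' : Fin n) : Fin k → Perm (Fin n) :=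
  Function.update D x (D x * swap p p')

theorem KE_sw_self (D : Fin k → Perm (Fin n)) (x : Fin k) (p p' : Fin n) :
    KE_sw D x p p' x = D x * swap p p' := by
  simp [KE_sw]

theorem KE_sw_ne (D : Fin k → Perm (Fin n)) (x : Fin k) (p p' : Fin n) {y : Fin k} (h : y ≠ x) :
    KE_sw D x p p' y = D y := by
  simp [KE_sw, h]

theorem KE_sw_sw (D : Fin k → Perm (Fin n)) (x : Fin k) (p p' : Fin n) :
    KE_sw (KE_sw D x p p') x p p' = D := by
  funext y
  by_cases h : y = x
  · subst h
    rw [KE_sw_self, KE_sw_self, mul_assoc, swap_mul_self, mul_one]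
  · rw [KE_sw_ne _ _ _ _ h, KE_sw_ne _ _ _ _ h]

theorem KE_sw_apply_of_ne (D : Fin k → Perm (Fin n)) (x : Fin k) (p p' : Fin n) (y : Fin k)
    (q : Fin n) (h : y = x → q ≠ p ∧ q ≠ p') : KE_sw D x p p' y q = D y q := by
  by_cases hy : y = x
  · obtain ⟨h1, h2⟩ := h hy
    subst hy
    rw [KE_sw_self, Perm.mul_apply, swap_apply_of_ne_of_ne h1 h2]
  · rw [KE_sw_ne _ _ _ _ hy]

theorem KE_bir (D : Fin k → Perm (Fin n)) (O : Fin n → Perm (Fin k)) (hB : Bir D O) (x : Fin k)
    (p p' : Fin n) (h : O p x = O p' x) : Bir (KE_sw D x p p') O := by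
  intro y
  have hx : (O p)⁻¹ (O p x) = x := (O p).symm_apply_apply x
  have hx' : (O p')⁻¹ (O p x) = x := by
    rw [h]
    exact (O p').symm_apply_apply x
  by_cases hy : y = O p x
  · have e : (fun q => KE_sw D x p p' ((O q)⁻¹ y) q) =
        (fun q => D ((O q)⁻¹ y) q) ∘ (swap p p') := by
      funext q
      simp only [Function.comp]
      rcases eq_or_ne q p with rfl | h1
      · rw [swap_apply_left, hy, hx, hx', KE_sw_self, Perm.mul_apply, swap_apply_left]
      · rcases eq_or_ne q p' with rfl | h2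
        · rw [swap_apply_right, hy, hx, hx', KE_sw_self, Perm.mul_apply, swap_apply_right]
        · rw [swap_apply_of_ne_of_ne h1 h2]
          exact KE_sw_apply_of_ne D x p p' _ q fun _ => ⟨h1, h2⟩
    rw [e]
    exact (hB y).comp (swap p p').bijective
  · have e : (fun q => KE_sw D x p p' ((O q)⁻¹ y) q) = fun q => D ((O q)⁻¹ y) q := by
      funext q
      refine KE_sw_apply_of_ne D x p p' _ q fun hq => ?_
      have h1 : O q x = y := by
        rw [← hq]
        exact (O q).apply_symm_apply y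
      constructor
      · rintro rfl
        exact hy h1.symm
      · rintro rfl
        exact hy (h1.symm.trans h.symm)
    rw [e]
    exact hB y

/-- the walk up to the switched step does not change -/
theorem KE_walk (D : Fin k → Perm (Fin n)) (h : ℕ → Fin k × Bool) (q : Fin n) (j : ℕ)
    (hred : ∀ i, i + 1 ≤ j → (h i).1 = (h (i + 1)).1 → (h i).2 = (h (i + 1)).2)
    (hd : ∀ a b, a < b → b ≤ j → KE_W D h q a ≠ KE_W D h q b) (p' : Fin n)
    (hp' : ∀ a ≤ j, (cond (h j).2 (D (h j).1 p') p') ≠ KE_W D h q a) :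
    ∀ i ≤ j, KE_W (KE_sw D (h j).1 (KE_src D h q j) p') h q i = KE_W D h q i := by
  have hd' : ∀ a b, a ≤ j → b ≤ j → KE_W D h q a = KE_W D h q b → a = b := by
    intro a b ha hb e
    rcases lt_trichotomy a b with h1 | h1 | h1
    · exact absurd e (hd a b h1 hb)
    · exact h1
    · exact absurd e.symm (hd b a h1 ha)
  -- the sources are different
  have key : ∀ i, i < j → (h i).1 = (h j).1 →
      KE_src D h q i ≠ KE_src D h q j ∧ KE_src D h q i ≠ p' := by
    intro i hi hx
    have e1 := KE_D_src D h q i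
    have e2 := KE_D_src D h q j
    have e3 : KE_src D h q i = cond (h i).2 (KE_W D h q i) (KE_W D h q (i + 1)) := rfl
    have e4 : KE_src D h q j = cond (h j).2 (KE_W D h q j) (KE_W D h q (j + 1)) := rfl
    have hr : i + 1 = j → (h i).2 = (h j).2 := by
      rintro rfl
      exact hred i le_rfl hx
    rw [hx] at e1
    constructor
    · intro he
      cases hb : (h i).2 <;> cases hc : (h j).2 <;> simp only [hb, hc, cond_true, cond_false] at *
      · -- false, false
        rw [he, e2] at e1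
        have := hd' j i le_rfl hi.le e1
        omega
      · -- false, true
        rw [e3, e4] at he
        have := hd' (i + 1) j hi le_rfl he
        simpa using hr this
      · -- true, false
        rw [he, e2] at e1
        have := hd' j (i + 1) le_rfl hi e1
        simpa using hr this.symm
      · rw [e3, e4] at he
        have := hd' i j hi.le le_rfl he
        omega
    · intro he
      cases hb : (h i).2 <;> cases hc : (h j).2 <;> simp only [hb, hc, cond_true, cond_false] at *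
      · exact hp' (i + 1) hi (by rw [← he, e3])
      · exact hp' i hi.le (by rw [← he, e1])
      · exact hp' i hi.le (by rw [← he, e3])
      · exact hp' (i + 1) hi (by rw [← he, e1])
  intro i
  induction i with
  | zero => intro _; rfl
  | succ i ih =>
    intro hi
    rw [KE_W, ih (by omega)]
    have hne := key i hi
    have e1 := KE_D_src D h q i
    have e3 : KE_src D h q i = cond (h i).2 (KE_W D h q i) (KE_W D h q (i + 1)) := rfl
    have e5 : KE_sw D (h j).1 (KE_src D h q j) p' (h i).1 (KE_src D h q i) =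
        D (h i).1 (KE_src D h q i) := KE_sw_apply_of_ne _ _ _ _ _ _ hne
    rw [e1] at e5
    unfold KE_act
    cases hb : (h i).2 <;> simp only [hb, cond_true, cond_false] at *
    · rw [Perm.inv_eq_iff_eq, ← e3]
      exact e5.symm
    · rw [← e3]
      exact e5

/-- the switched step -/
theorem KE_walk_step (D : Fin k → Perm (Fin n)) (h : ℕ → Fin k × Bool) (q : Fin n) (j : ℕ)
    (hred : ∀ i, i + 1 ≤ j → (h i).1 = (h (i + 1)).1 → (h i).2 = (h (i + 1)).2)
    (hd : ∀ a b, a < b → b ≤ j → KE_W D h q a ≠ KE_W D h q b) (p' : Fin n)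
    (hp' : ∀ a ≤ j, (cond (h j).2 (D (h j).1 p') p') ≠ KE_W D h q a) :
    KE_W (KE_sw D (h j).1 (KE_src D h q j) p') h q (j + 1) =
      cond (h j).2 (D (h j).1 p') p' := by
  rw [KE_W, KE_walk D h q j hred hd p' hp' j le_rfl]
  have e2 := KE_D_src D h q j
  have e4 : KE_src D h q j = cond (h j).2 (KE_W D h q j) (KE_W D h q (j + 1)) := rfl
  unfold KE_act
  cases hb : (h j).2 <;> simp only [hb, cond_true, cond_false] at *
  · rw [Perm.inv_eq_iff_eq, KE_sw_self, Perm.mul_apply, swap_apply_right, e2]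
  · rw [← e4, KE_sw_self, Perm.mul_apply, swap_apply_left]

/-! ### Counting -/

/-- step `j` is small -/
def KE_small (ε : ℝ) (h : ℕ → Fin k × Bool) (j : ℕ) (q : Fin n) (A : BT n k) : Prop :=
  (Nat.card {p : Fin n // A.1.2 p (h j).1 = A.1.2 (KE_src A.1.1 h q j) (h j).1} : ℝ) < ε * (n : ℝ)

/-- step `j` is not small, and it gives the first repetition, of the state at time `i` -/
def KE_B (ε : ℝ) (h : ℕ → Fin k × Bool) (i j : ℕ) (q : Fin n) (A : BT n k) : Prop :=
  (∀ a b, a < b → b ≤ j → KE_W A.1.1 h q a ≠ KE_W A.1.1 h q b) ∧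
  KE_W A.1.1 h q (j + 1) = KE_W A.1.1 h q i ∧
  ε * (n : ℝ) ≤
    (Nat.card {p : Fin n // A.1.2 p (h j).1 = A.1.2 (KE_src A.1.1 h q j) (h j).1} : ℝ)

theorem KE_recover (D : Fin k → Perm (Fin n)) (h : ℕ → Fin k × Bool) (q : Fin n) (i j : ℕ)
    (hij : i ≤ j) (hred : ∀ i, i + 1 ≤ j → (h i).1 = (h (i + 1)).1 → (h i).2 = (h (i + 1)).2)
    (hd : ∀ a b, a < b → b ≤ j → KE_W D h q a ≠ KE_W D h q b)
    (hi : KE_W D h q (j + 1) = KE_W D h q i) (p' : Fin n)
    (hp' : ∀ a ≤ j, (cond (h j).2 (D (h j).1 p') p') ≠ KE_W D h q a) (D' : Fin k → Perm (Fin n))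
    (hD' : D' = KE_sw D (h j).1 (KE_src D h q j) p') :
    cond (h j).2 (KE_W D' h q j) (KE_W D' h q i) = KE_src D h q j ∧
    cond (h j).2 ((D' (h j).1)⁻¹ (KE_W D' h q i)) (KE_W D' h q (j + 1)) = p' := by
  have h1 := KE_walk D h q j hred hd p' hp'
  have h2 := KE_walk_step D h q j hred hd p' hp'
  rw [← hD'] at h1 h2
  have e2 := KE_D_src D h q j
  have e4 : KE_src D h q j = cond (h j).2 (KE_W D h q j) (KE_W D h q (j + 1)) := rfl
  have e5 : D' (h j).1 p' = D (h j).1 (KE_src D h q j) := by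
    rw [hD', KE_sw_self, Perm.mul_apply, swap_apply_right]
  rw [h1 j le_rfl, h1 i hij, h2]
  cases hb : (h j).2 <;> simp only [hb, cond_true, cond_false] at *
  · exact ⟨by rw [e4, hi], trivial⟩
  · refine ⟨e4.symm, ?_⟩
    rw [Perm.inv_eq_iff_eq, e5, e2, hi]

open Classical in
theorem KE_card_B (ε : ℝ) (h : ℕ → Fin k × Bool) (i j m : ℕ) (hij : i ≤ j) (hjm : j + 1 ≤ m)
    (hred : ∀ i, i + 1 ≤ j → (h i).1 = (h (i + 1)).1 → (h i).2 = (h (i + 1)).2) (q : Fin n) :
    (Nat.card {A : BT n k // KE_B ε h i j q A} : ℝ) * (ε * (n : ℝ) - (m : ℝ)) ≤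
      (Nat.card (BT n k) : ℝ) := by
  set R : BT n k → Finset (Fin n) := fun A => Finset.univ.filter (fun p' =>
    A.1.2 p' (h j).1 = A.1.2 (KE_src A.1.1 h q j) (h j).1 ∧
      ∀ a ≤ j, (cond (h j).2 (A.1.1 (h j).1 p') p') ≠ KE_W A.1.1 h q a) with hR
  set B : Finset (BT n k) := Finset.univ.filter (fun A => KE_B ε h i j q A) with hB
  have h1 : ∀ A ∈ B, ε * (n : ℝ) - (m : ℝ) ≤ ((R A).card : ℝ) := by
    intro A hA
    obtain ⟨-, -, hc⟩ := (Finset.mem_filter.1 hA).2
    set C : Finset (Fin n) := Finset.univ.filter (fun p' =>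
      A.1.2 p' (h j).1 = A.1.2 (KE_src A.1.1 h q j) (h j).1) with hC'
    set E : Finset (Fin n) := Finset.univ.filter (fun p' => ∃ a ≤ j,
      (cond (h j).2 (A.1.1 (h j).1 p') p') = KE_W A.1.1 h q a) with hE'
    have hCE : R A = C \ E := by
      ext p'
      simp only [hR, hC', hE', Finset.mem_sdiff, Finset.mem_filter, Finset.mem_univ, true_and,
        not_exists, not_and]
    have hE : E.card ≤ m := by
      have h3 : E ⊆ (Finset.range (j + 1)).image (fun a =>
          cond (h j).2 ((A.1.1 (h j).1)⁻¹ (KE_W A.1.1 h q a)) (KE_W A.1.1 h q a)) := by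
        intro p' hp'
        obtain ⟨a, ha, e⟩ := (Finset.mem_filter.1 hp').2
        refine Finset.mem_image.2 ⟨a, Finset.mem_range.2 (by omega), ?_⟩
        rw [← e]
        cases (h j).2 <;> simp
      refine (Finset.card_le_card h3).trans (Finset.card_image_le.trans ?_)
      rw [Finset.card_range]
      exact hjm
    have hC : ε * (n : ℝ) ≤ (C.card : ℝ) := by
      rw [Nat.card_eq_fintype_card, Fintype.card_subtype] at hc
      exact hc
    have h3 := Finset.le_card_sdiff E C
    rw [hCE]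
    have h4 : C.card ≤ (C \ E).card + E.card := by omega
    have h5 : (C.card : ℝ) ≤ ((C \ E).card : ℝ) + (E.card : ℝ) := by exact_mod_cast h4
    have h6 : (E.card : ℝ) ≤ (m : ℝ) := by exact_mod_cast hE
    linarith
  have h2 : (B.sigma R).card ≤ (Finset.univ.filter
      (fun a : (Fin k → Perm (Fin n)) × (Fin n → Perm (Fin k)) => Bir a.1 a.2)).card := by
    refine Finset.card_le_card_of_injOn (fun s =>
      (KE_sw s.1.1.1 (h j).1 (KE_src s.1.1.1 h q j) s.2, s.1.1.2)) ?_ ?_
    · rintro ⟨A, p'⟩ hs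
      obtain ⟨hA, hp⟩ := Finset.mem_sigma.1 hs
      obtain ⟨hp1, hp2⟩ := (Finset.mem_filter.1 hp).2
      refine Finset.mem_coe.2 (Finset.mem_filter.2 ⟨Finset.mem_univ _, ?_⟩)
      exact KE_bir A.1.1 A.1.2 A.2 _ _ _ hp1.symm
    · rintro ⟨A, p⟩ hs ⟨A', p'⟩ hs' e
      obtain ⟨hA, hp⟩ := Finset.mem_sigma.1 hs
      obtain ⟨hp1, hp2⟩ := (Finset.mem_filter.1 hp).2
      obtain ⟨a1, a2, a3⟩ := (Finset.mem_filter.1 hA).2
      obtain ⟨hA', hp'⟩ := Finset.mem_sigma.1 hs'
      obtain ⟨hp1', hp2'⟩ := (Finset.mem_filter.1 hp').2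
      obtain ⟨b1, b2, b3⟩ := (Finset.mem_filter.1 hA').2
      have e1 := (Prod.mk.inj e).1
      have e2 := (Prod.mk.inj e).2
      obtain ⟨c1, c2⟩ := KE_recover A.1.1 h q i j hij hred a1 a2 p hp2 _ rfl
      obtain ⟨d1, d2⟩ := KE_recover A'.1.1 h q i j hij hred b1 b2 p' hp2' _ rfl
      simp only at e1 e2
      rw [← e1] at d1 d2
      have f1 : KE_src A.1.1 h q j = KE_src A'.1.1 h q j := c1.symm.trans d1
      have f2 : p = p' := c2.symm.trans d2
      have f3 : A.1.1 = A'.1.1 := by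
        rw [← KE_sw_sw A.1.1 (h j).1 (KE_src A.1.1 h q j) p,
          ← KE_sw_sw A'.1.1 (h j).1 (KE_src A'.1.1 h q j) p', e1, f1, f2]
      have f4 : A = A' := Subtype.ext (Prod.ext f3 e2)
      rw [f4, f2]
  have h3 : (Finset.univ.filter
      (fun a : (Fin k → Perm (Fin n)) × (Fin n → Perm (Fin k)) => Bir a.1 a.2)).card =
      Nat.card (BT n k) := by
    rw [Nat.card_eq_fintype_card, Fintype.card_subtype]
  have h4 : Nat.card {A : BT n k // KE_B ε h i j q A} = B.card := by
    rw [Nat.card_eq_fintype_card, Fintype.card_subtype]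
  rw [h4, ← h3]
  have h5 : ((B.sigma R).card : ℝ) = ∑ A ∈ B, ((R A).card : ℝ) := by
    rw [Finset.card_sigma]
    push_cast
    rfl
  have h6 : (B.card : ℝ) * (ε * (n : ℝ) - (m : ℝ)) ≤ ∑ A ∈ B, ((R A).card : ℝ) := by
    rw [← nsmul_eq_mul]
    exact Finset.card_nsmul_le_sum _ _ _ h1
  rw [← h5] at h6
  exact h6.trans (by exact_mod_cast h2)

open Classical in
theorem KE_card_small (ε : ℝ) (h : ℕ → Fin k × Bool) (j : ℕ) (A : BT n k)
    (hε : 0 ≤ ε * (n : ℝ)) :
    (Nat.card {q : Fin n // KE_small ε h j q A} : ℝ) ≤ (k : ℝ) * (ε * (n : ℝ)) := by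
  set x := (h j).1 with hx
  set O := A.1.2 with hO
  set G : Finset (Fin n) := Finset.univ.filter (fun p =>
    (Nat.card {p' : Fin n // O p' x = O p x} : ℝ) < ε * (n : ℝ)) with hG
  have h1 : Nat.card {q : Fin n // KE_small ε h j q A} ≤ G.card := by
    rw [Nat.card_eq_fintype_card, Fintype.card_subtype]
    refine Finset.card_le_card_of_injOn (fun q => KE_src A.1.1 h q j) ?_ ?_
    · intro q hq
      have h2 : KE_small ε h j q A := (Finset.mem_filter.1 hq).2
      exact Finset.mem_coe.2 (Finset.mem_filter.2 ⟨Finset.mem_univ _, h2⟩)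
    · exact (KE_src_inj A.1.1 h j).injOn
  have h2 : G.card = ∑ y : Fin k, (G.filter (fun p => O p x = y)).card :=
    Finset.card_eq_sum_card_fiberwise (fun p _ => Finset.mem_coe.2 (Finset.mem_univ _))
  have h3 : ∀ y : Fin k, ((G.filter (fun p => O p x = y)).card : ℝ) ≤ ε * (n : ℝ) := by
    intro y
    rcases (G.filter (fun p => O p x = y)).eq_empty_or_nonempty with h4 | ⟨p, hp⟩
    · rw [h4, Finset.card_empty, Nat.cast_zero]
      exact hε
    · obtain ⟨hp1, hp2⟩ := Finset.mem_filter.1 hp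
      have h5 := (Finset.mem_filter.1 hp1).2
      rw [Nat.card_eq_fintype_card, Fintype.card_subtype] at h5
      refine le_trans ?_ h5.le
      have h6 : G.filter (fun p => O p x = y) ⊆
          Finset.univ.filter (fun p' => O p' x = O p x) := by
        intro z hz
        obtain ⟨_, hz2⟩ := Finset.mem_filter.1 hz
        exact Finset.mem_filter.2 ⟨Finset.mem_univ _, hz2.trans hp2.symm⟩
      exact_mod_cast Finset.card_le_card h6
  calc (Nat.card {q : Fin n // KE_small ε h j q A} : ℝ) ≤ (G.card : ℝ) := by exact_mod_cast h1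
    _ = ∑ y : Fin k, ((G.filter (fun p => O p x = y)).card : ℝ) := by
        rw [h2]
        push_cast
        rfl
    _ ≤ ∑ _y : Fin k, ε * (n : ℝ) := Finset.sum_le_sum fun y _ => h3 y
    _ = (k : ℝ) * (ε * (n : ℝ)) := by
        rw [Finset.sum_const, Finset.card_univ, Fintype.card_fin, nsmul_eq_mul]

/-- the first repetition -/
theorem KE_first (ε : ℝ) (h : ℕ → Fin k × Bool) (m : ℕ) (hm : 1 ≤ m) (q : Fin n) (A : BT n k)
    (hq : KE_W A.1.1 h q m = q) :
    (∃ j < m, KE_small ε h j q A) ∨ ∃ j < m, ∃ i ≤ j, KE_B ε h i j q A := by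
  classical
  have hex : ∃ J, ∃ i < J, KE_W A.1.1 h q J = KE_W A.1.1 h q i := ⟨m, 0, hm, hq⟩
  obtain ⟨i, hi, he⟩ := Nat.find_spec hex
  have hle : Nat.find hex ≤ m := Nat.find_min' hex ⟨0, hm, hq⟩
  have hmin : ∀ b < Nat.find hex, ¬ ∃ i < b, KE_W A.1.1 h q b = KE_W A.1.1 h q i :=
    fun b hb => Nat.find_min hex hb
  obtain ⟨j, hj⟩ : ∃ j, Nat.find hex = j + 1 := ⟨Nat.find hex - 1, by omega⟩
  rw [hj] at hi he hle hmin
  by_cases hs : KE_small ε h j q A
  · exact Or.inl ⟨j, hle, hs⟩
  · refine Or.inr ⟨j, hle, i, Nat.lt_succ_iff.1 hi, ?_, he, not_lt.1 hs⟩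
    intro a b hab hb e
    exact hmin b (Nat.lt_succ_of_le hb) ⟨a, hab, e.symm⟩

end KE

open Classical in
theorem sum_fixed_le {n k : ℕ} (g : List (Fin k × Bool)) (hg : FreeGroup.IsReduced g)
    (hne : g ≠ []) (ε : ℝ) (hε : (g.length : ℝ) < ε * (n : ℝ)) :
    ∑ A : BT n k, (Nat.card {q : Fin n // FreeGroup.lift A.1.1 (FreeGroup.mk g) q = q} : ℝ) ≤
      (Nat.card (BT n k) : ℝ) * ((g.length : ℝ) * (k : ℝ) * ε * (n : ℝ) +
        (n : ℝ) * (g.length : ℝ) ^ 2 / (ε * (n : ℝ) - (g.length : ℝ))) := by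
  obtain ⟨a0, -⟩ := List.exists_mem_of_ne_nil g hne
  set m := g.length with hm
  have hm1 : 1 ≤ m := List.length_pos_iff.2 hne
  set h : ℕ → Fin k × Bool := fun j => g.reverse.getD j a0 with hh
  have hred : ∀ j < m, ∀ i, i + 1 ≤ j → (h i).1 = (h (i + 1)).1 → (h i).2 = (h (i + 1)).2 :=
    fun j hj i hi => KE_red a0 g hg i (by omega)
  have hpos : 0 < ε * (n : ℝ) - (m : ℝ) := by linarith
  have hε0 : 0 ≤ ε * (n : ℝ) := le_trans (Nat.cast_nonneg m) hε.le
  have step1 : ∀ A : BT n k,
      (Nat.card {q : Fin n // FreeGroup.lift A.1.1 (FreeGroup.mk g) q = q} : ℝ) ≤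
      (m : ℝ) * ((k : ℝ) * (ε * (n : ℝ))) + ∑ q : Fin n, ∑ j ∈ Finset.range m,
        ∑ i ∈ Finset.range m, if i ≤ j ∧ KE_B ε h i j q A then (1 : ℝ) else 0 := by
    intro A
    have e1 : (Nat.card {q : Fin n // FreeGroup.lift A.1.1 (FreeGroup.mk g) q = q} : ℝ) =
        ∑ q : Fin n, if KE_W A.1.1 h q m = q then (1 : ℝ) else 0 := by
      rw [Finset.sum_boole, Nat.card_eq_fintype_card, Fintype.card_subtype]
      simp only [KE_lift A.1.1 a0 g]
      rfl
    have e2 : ∀ q : Fin n, (if KE_W A.1.1 h q m = q then (1 : ℝ) else 0) ≤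
        (∑ j ∈ Finset.range m, if KE_small ε h j q A then (1 : ℝ) else 0) +
        ∑ j ∈ Finset.range m, ∑ i ∈ Finset.range m,
          if i ≤ j ∧ KE_B ε h i j q A then (1 : ℝ) else 0 := by
      intro q
      have n1 : ∀ j ∈ Finset.range m, (0 : ℝ) ≤ if KE_small ε h j q A then (1 : ℝ) else 0 := by
        intro j _
        split_ifs <;> norm_num
      have n2 : ∀ j ∈ Finset.range m, ∀ i ∈ Finset.range m,
          (0 : ℝ) ≤ if i ≤ j ∧ KE_B ε h i j q A then (1 : ℝ) else 0 := by
        intro j _ i _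
        split_ifs <;> norm_num
      have n3 : ∀ j ∈ Finset.range m, (0 : ℝ) ≤ ∑ i ∈ Finset.range m,
          if i ≤ j ∧ KE_B ε h i j q A then (1 : ℝ) else 0 :=
        fun j hj => Finset.sum_nonneg (n2 j hj)
      split_ifs with hq
      · rcases KE_first ε h m hm1 q A hq with ⟨j, hj, hs⟩ | ⟨j, hj, i, hi, hs⟩
        · have h1 := Finset.single_le_sum n1 (Finset.mem_range.2 hj)
          rw [if_pos hs] at h1
          have h2 := Finset.sum_nonneg n3
          linarith
        · have h1 := Finset.single_le_sum n3 (Finset.mem_range.2 hj)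
          have h2 := Finset.single_le_sum (n2 j (Finset.mem_range.2 hj))
            (Finset.mem_range.2 (lt_of_le_of_lt hi hj))
          rw [if_pos ⟨hi, hs⟩] at h2
          have h3 := Finset.sum_nonneg n1
          linarith
      · have h2 := Finset.sum_nonneg n3
        have h3 := Finset.sum_nonneg n1
        linarith
    have e3 : ∑ q : Fin n, (∑ j ∈ Finset.range m, if KE_small ε h j q A then (1 : ℝ) else 0) ≤
        (m : ℝ) * ((k : ℝ) * (ε * (n : ℝ))) := by
      rw [Finset.sum_comm]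
      have h1 : ∀ j ∈ Finset.range m,
          (∑ q : Fin n, if KE_small ε h j q A then (1 : ℝ) else 0) ≤ (k : ℝ) * (ε * (n : ℝ)) := by
        intro j _
        have h2 := KE_card_small ε h j A hε0
        rw [Nat.card_eq_fintype_card, Fintype.card_subtype] at h2
        rw [Finset.sum_boole]
        exact h2
      have h2 := Finset.sum_le_card_nsmul _ _ _ h1
      rw [Finset.card_range, nsmul_eq_mul] at h2
      exact h2
    rw [e1]
    have e4 := Finset.sum_le_sum fun q (_ : q ∈ (Finset.univ : Finset (Fin n))) => e2 q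
    rw [Finset.sum_add_distrib] at e4
    linarith
  have step2 : ∀ (q : Fin n), ∀ j ∈ Finset.range m, ∀ i ∈ Finset.range m,
      (∑ A : BT n k, if i ≤ j ∧ KE_B ε h i j q A then (1 : ℝ) else 0) ≤
        (Nat.card (BT n k) : ℝ) / (ε * (n : ℝ) - (m : ℝ)) := by
    intro q j hj i hi
    have hj' := Finset.mem_range.1 hj
    by_cases hij : i ≤ j
    · have h1 := KE_card_B ε h i j m hij (by omega) (hred j hj') q
      rw [le_div_iff₀ hpos]
      have h2 : (∑ A : BT n k, if i ≤ j ∧ KE_B ε h i j q A then (1 : ℝ) else 0) =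
          (Nat.card {A : BT n k // KE_B ε h i j q A} : ℝ) := by
        rw [Nat.card_eq_fintype_card, Fintype.card_subtype, Finset.sum_boole]
        simp only [hij, true_and]
      rw [h2]
      exact h1
    · have h2 : (∑ A : BT n k, if i ≤ j ∧ KE_B ε h i j q A then (1 : ℝ) else 0) = 0 := by
        refine Finset.sum_eq_zero fun A _ => ?_
        rw [if_neg fun h => hij h.1]
      rw [h2]
      exact div_nonneg (Nat.cast_nonneg _) hpos.le
  calc ∑ A : BT n k, (Nat.card {q : Fin n // FreeGroup.lift A.1.1 (FreeGroup.mk g) q = q} : ℝ)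
      ≤ ∑ A : BT n k, ((m : ℝ) * ((k : ℝ) * (ε * (n : ℝ))) + ∑ q : Fin n,
        ∑ j ∈ Finset.range m, ∑ i ∈ Finset.range m,
          if i ≤ j ∧ KE_B ε h i j q A then (1 : ℝ) else 0) :=
        Finset.sum_le_sum fun A _ => step1 A
    _ = (Nat.card (BT n k) : ℝ) * ((m : ℝ) * ((k : ℝ) * (ε * (n : ℝ)))) +
        ∑ q : Fin n, ∑ j ∈ Finset.range m, ∑ i ∈ Finset.range m, ∑ A : BT n k,
          (if i ≤ j ∧ KE_B ε h i j q A then (1 : ℝ) else 0) := by
        rw [Finset.sum_add_distrib, Finset.sum_const, nsmul_eq_mul, Finset.card_univ,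
          Nat.card_eq_fintype_card]
        congr 1
        rw [Finset.sum_comm]
        refine Finset.sum_congr rfl fun q _ => ?_
        rw [Finset.sum_comm]
        refine Finset.sum_congr rfl fun j _ => ?_
        rw [Finset.sum_comm]
    _ ≤ (Nat.card (BT n k) : ℝ) * ((m : ℝ) * ((k : ℝ) * (ε * (n : ℝ)))) +
        ∑ _q : Fin n, ∑ _j ∈ Finset.range m, ∑ _i ∈ Finset.range m,
          (Nat.card (BT n k) : ℝ) / (ε * (n : ℝ) - (m : ℝ)) := by
        refine add_le_add le_rfl ?_
        exact Finset.sum_le_sum fun q _ => Finset.sum_le_sum fun j hj =>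
          Finset.sum_le_sum fun i hi => step2 q j hj i hi
    _ = (Nat.card (BT n k) : ℝ) * ((m : ℝ) * (k : ℝ) * ε * (n : ℝ) +
        (n : ℝ) * (m : ℝ) ^ 2 / (ε * (n : ℝ) - (m : ℝ))) := by
        simp only [Finset.sum_const, Finset.card_range, Finset.card_univ, Fintype.card_fin,
          nsmul_eq_mul]
        ring

end RNK40
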