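import Pool.Agent.Lib_helper40.RNK.KC
import Pool.Agent.Lib_helper40.RNK.KE

set_option autoImplicit false

/-! RNK, block KF: words have few fixed points. -/

namespace RNK40

open Equiv Equiv.Perm RND40 GF40

theorem KF_markov {β : Type*} [Fintype β] (f : β → ℝ) (h0 : ∀ b, 0 ≤ f b) (c : ℝ) :
    (Nat.card {b // c < f b} : ℝ) * c ≤ ∑ b, f b := by
  classical
  rw [Nat.card_eq_fintype_card, Fintype.card_subtype]
  calc ((Finset.univ.filter (fun b => c < f b)).card : ℝ) * c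
      = ∑ _b ∈ Finset.univ.filter (fun b => c < f b), c := by
        rw [Finset.sum_const, nsmul_eq_mul]
    _ ≤ ∑ b ∈ Finset.univ.filter (fun b => c < f b), f b :=
        Finset.sum_le_sum (fun b hb => (Finset.mem_filter.1 hb).2.le)
    _ ≤ ∑ b, f b :=
        Finset.sum_le_sum_of_subset_of_nonneg (Finset.filter_subset _ _) (fun b _ _ => h0 b)

theorem few_fixed (k : ℕ) (u : FreeGroup (Fin k)) (hu : u ≠ 1) (η : ℝ) (hη : 0 < η) :
    ∃ n0 : ℕ, ∀ n ≥ n0,
    (Nat.card {A : BT n k // η * (n : ℝ) < (Nat.card {q : Fin n //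
      FreeGroup.lift A.1.1 u q = q} : ℝ)} : ℝ) ≤ η * (Nat.card (BT n k) : ℝ) := by
  classical
  have hne : u.toWord ≠ [] := fun h => hu (FreeGroup.toWord_eq_nil_iff.1 h)
  have hm : 1 ≤ u.toWord.length := List.length_pos_iff.2 hne
  obtain ⟨m, hmd⟩ : ∃ m : ℕ, m = u.toWord.length := ⟨_, rfl⟩
  rw [← hmd] at hm
  have hm' : (1 : ℝ) ≤ m := by exact_mod_cast hm
  have hk0 : (0 : ℝ) ≤ (m : ℝ) * k := by positivity
  set ε : ℝ := η ^ 2 / (2 * (m * k) + 1) with hε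
  have hε0 : 0 < ε := by positivity
  obtain ⟨n0, hn0⟩ := exists_nat_gt ((m + 2 * m ^ 2 / η ^ 2) / ε)
  refine ⟨n0, fun n hn => ?_⟩
  have hn1 : (m : ℝ) + 2 * m ^ 2 / η ^ 2 < ε * n := by
    have h1 : (n0 : ℝ) ≤ n := by exact_mod_cast hn
    have h2 := (div_lt_iff₀ hε0).1 (hn0.trans_le h1)
    linarith
  have hpos : 0 < 2 * (m : ℝ) ^ 2 / η ^ 2 := by positivity
  have hεn : (u.toWord.length : ℝ) < ε * n := by
    rw [← hmd]
    linarith
  have hnpos : (0 : ℝ) < n := by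
    by_contra h
    have h3 : ε * (n : ℝ) ≤ 0 := mul_nonpos_of_nonneg_of_nonpos hε0.le (not_lt.1 h)
    linarith
  have hsum := sum_fixed_le (n := n) u.toWord FreeGroup.isReduced_toWord hne ε hεn
  rw [FreeGroup.mk_toWord, ← hmd] at hsum
  have hmk := KF_markov (fun A : BT n k =>
    (Nat.card {q : Fin n // FreeGroup.lift A.1.1 u q = q} : ℝ)) (fun A => by positivity)
    (η * n)
  have h4 := hmk.trans hsum
  set N : ℝ := (Nat.card (BT n k) : ℝ)
  set X : ℝ := (Nat.card {A : BT n k // η * (n : ℝ) < (Nat.card {q : Fin n //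
      FreeGroup.lift A.1.1 u q = q} : ℝ)} : ℝ)
  have hN : 0 ≤ N := by positivity
  have hb1 : (m : ℝ) * k * ε * n ≤ η ^ 2 * n / 2 := by
    have h5 : (m : ℝ) * k * ε ≤ η ^ 2 / 2 := by
      rw [hε, ← mul_div_assoc, div_le_div_iff₀ (by positivity) (by norm_num)]
      nlinarith [sq_nonneg η]
    calc (m : ℝ) * k * ε * n ≤ η ^ 2 / 2 * n := by gcongr
      _ = η ^ 2 * n / 2 := by ring
  have hb2 : (n : ℝ) * m ^ 2 / (ε * n - m) ≤ η ^ 2 * n / 2 := by
    have h6 : 2 * (m : ℝ) ^ 2 / η ^ 2 ≤ ε * n - m := by linarith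
    have h7 : (0 : ℝ) < ε * n - m := by linarith
    rw [div_le_iff₀ h7]
    have h8 : 2 * (m : ℝ) ^ 2 ≤ (ε * n - m) * η ^ 2 := by
      rwa [div_le_iff₀ (by positivity)] at h6
    nlinarith
  have h9 : X * (η * n) ≤ N * (η ^ 2 * n) := by
    refine h4.trans ?_
    apply mul_le_mul_of_nonneg_left _ hN
    linarith
  have h10 : 0 < η * (n : ℝ) := by positivity
  refine le_of_mul_le_mul_right ?_ h10
  calc X * (η * n) ≤ N * (η ^ 2 * n) := h9
    _ = η * N * (η * n) := by ring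

theorem few_fixed_inv (k : ℕ) (u : FreeGroup (Fin k)) (hu : u ≠ 1) (η : ℝ) (hη : 0 < η) :
    ∃ n0 : ℕ, ∀ n ≥ n0,
    (Nat.card {A : BT n k // η * (n : ℝ) < (Nat.card {q : Fin n //
      FreeGroup.lift (MM A) u q = q} : ℝ)} : ℝ) ≤ η * (Nat.card (BT n k) : ℝ) := by
  obtain ⟨n0, hn0⟩ := few_fixed k u hu η hη
  refine ⟨n0, fun n hn => ?_⟩
  have h1 := hn0 n hn
  have e : {A : BT n k // η * (n : ℝ) < (Nat.card {q : Fin n //
      FreeGroup.lift (MM A) u q = q} : ℝ)} ≃ {A : BT n k // η * (n : ℝ) < (Nat.card {q : Fin n //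
      FreeGroup.lift A.1.1 u q = q} : ℝ)} :=
    (Function.Involutive.toPerm (inv : BT n k → BT n k) inv_inv).subtypeEquiv
      (fun A => Iff.rfl)
  rw [Nat.card_congr e]
  exact h1

end RNK40
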