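import Pool.Agent.Lib_helper40.RNK.Defs

set_option autoImplicit false

/-! Block KG (RNK): a lower bound for the number of bireversible transducers. -/

namespace RNK40

open Equiv Equiv.Perm RND40 GF40

private theorem KG_fib {α κ : Type*} [Fintype α] [DecidableEq α] [Fintype κ] [DecidableEq κ]
    (f g : α → κ) (h : ∀ y, Fintype.card {q // f q = y} = Fintype.card {r // g r = y}) :
    (Fintype.card α).factorial ≤
      Fintype.card κ ^ Fintype.card α * Fintype.card {D : Perm α // ∀ q, g (D q) = f q} := by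
  have hE : ∃ E : Perm α, ∀ q, g (E q) = f q := by
    have e : ∀ y, Nonempty ({q // f q = y} ≃ {r // g r = y}) := fun y => Fintype.card_eq.1 (h y)
    refine ⟨((Equiv.sigmaFiberEquiv f).symm.trans
      (Equiv.sigmaCongrRight fun y => (e y).some)).trans (Equiv.sigmaFiberEquiv g), fun q => ?_⟩
    exact ((e (f q)).some ⟨q, rfl⟩).2
  obtain ⟨E, hE⟩ := hE
  have h1 : Fintype.card (Perm α) =
      ∑ g' : α → κ, Fintype.card {D : Perm α // ∀ q, g' (D q) = f q} := by
    rw [← Fintype.card_sigma]
    refine Fintype.card_congr ⟨fun D => ⟨fun r => f (D.symm r), D, fun q => by simp⟩,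
      fun s => s.2.1, fun D => rfl, ?_⟩
    rintro ⟨g', D, hD⟩
    have : (fun r => f (D.symm r)) = g' := by
      funext r
      rw [← hD]
      simp
    subst this
    rfl
  rw [← Fintype.card_perm, h1]
  calc ∑ g' : α → κ, Fintype.card {D : Perm α // ∀ q, g' (D q) = f q}
      ≤ ∑ g' : α → κ, Fintype.card {D : Perm α // ∀ q, g (D q) = f q} := by
        refine Finset.sum_le_sum (fun g' _ => ?_)
        rcases isEmpty_or_nonempty {D : Perm α // ∀ q, g' (D q) = f q} with h0 | ⟨⟨D0, hD0⟩⟩
        · rw [Fintype.card_eq_zero]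
          exact Nat.zero_le _
        · refine Fintype.card_le_of_injective
            (fun D => ⟨(D.1.trans D0.symm).trans E, fun q => ?_⟩) ?_
          · show g (E (D0.symm (D.1 q))) = f q
            rw [hE, ← hD0 (D0.symm (D.1 q)), Equiv.apply_symm_apply]
            exact D.2 q
          · intro D D' hD
            apply Subtype.ext
            apply Equiv.ext
            intro q
            have h3 := congrArg (fun s => s.1 q) hD
            have h4 : E (D0.symm (D.1 q)) = E (D0.symm (D'.1 q)) := h3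
            exact D0.symm.injective (E.injective h4)
    _ = _ := by simp

private theorem KG_fib' {α κ : Type*} [Fintype α] [DecidableEq α] [Fintype κ] [DecidableEq κ]
    (f g : α → κ) (h : ∀ y, Fintype.card {q // f q = y} = Fintype.card {r // g r = y})
    (i : Fintype {D : Perm α // ∀ q, g (D q) = f q}) :
    (Fintype.card α).factorial ≤
      Fintype.card κ ^ Fintype.card α * @Fintype.card {D : Perm α // ∀ q, g (D q) = f q} i := by
  have h1 := KG_fib f g h
  convert h1

private theorem KG_pairs {A B : Type*} [Fintype A] [Fintype B] [DecidableEq B] (c : A → B) :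
    Fintype.card A ^ 2 ≤ Fintype.card B * Fintype.card {p : A × A // c p.1 = c p.2} := by
  have h1 : Fintype.card A = ∑ b : B, Fintype.card {a // c a = b} := by
    rw [← Fintype.card_sigma]
    exact (Fintype.card_congr (Equiv.sigmaFiberEquiv c)).symm
  have h2 : Fintype.card {p : A × A // c p.1 = c p.2} =
      ∑ b : B, Fintype.card {a // c a = b} ^ 2 := by
    have h3 : ∀ b : B, Fintype.card {a // c a = b} ^ 2 =
        Fintype.card ({a // c a = b} × {a // c a = b}) := by
      intro b
      rw [Fintype.card_prod, sq]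
    simp_rw [h3]
    rw [← Fintype.card_sigma]
    refine Fintype.card_congr ⟨fun p => ⟨c p.1.2, ⟨p.1.1, p.2⟩, ⟨p.1.2, rfl⟩⟩,
      fun s => ⟨(s.2.1.1, s.2.2.1), by rw [s.2.1.2, s.2.2.2]⟩, fun p => rfl, ?_⟩
    rintro ⟨b, ⟨a, ha⟩, ⟨a', ha'⟩⟩
    subst ha'
    rfl
  rw [h2, h1]
  exact sq_sum_le_card_mul_sum_sq

/-- the numbers `#{q | O q x = y}` -/
private noncomputable def KG_c {n k : ℕ} (O : Fin n → Perm (Fin k)) :
    Fin k × Fin k → Fin (n + 1) :=
  fun p => ⟨Fintype.card {q // O q p.1 = p.2}, by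
    have := Fintype.card_subtype_le (fun q => O q p.1 = p.2)
    rw [Fintype.card_fin] at this
    omega⟩

private theorem KG_bir {n k : ℕ} (O I : Fin n → Perm (Fin k)) (D : Fin k → Perm (Fin n))
    (h : ∀ x q, I (D x q) x = O q x) : Bir D O := by
  intro y
  rw [← Finite.injective_iff_bijective]
  intro q q' hq
  have hq' : D ((O q)⁻¹ y) q = D ((O q')⁻¹ y) q' := hq
  have h1 : I (D ((O q)⁻¹ y) q) ((O q)⁻¹ y) = y := by
    rw [h]
    simp
  have h2 : I (D ((O q')⁻¹ y) q') ((O q')⁻¹ y) = y := by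
    rw [h]
    simp
  have h3 : (O q)⁻¹ y = (O q')⁻¹ y := by
    rw [← hq'] at h2
    exact (I (D ((O q)⁻¹ y) q)).injective (h1.trans h2.symm)
  rw [h3] at hq'
  exact (D ((O q')⁻¹ y)).injective hq'

private theorem KG_nat (n k : ℕ) :
    (n.factorial) ^ k * ((k.factorial) ^ n) ^ 2 ≤
      (n + 1) ^ (k * k) * ((k ^ n) ^ k * Nat.card (BT n k)) := by
  classical
  set P := {p : (Fin n → Perm (Fin k)) × (Fin n → Perm (Fin k)) // KG_c p.1 = KG_c p.2} with hP
  have h1 : ((k.factorial) ^ n) ^ 2 ≤ (n + 1) ^ (k * k) * Fintype.card P := by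
    have h := KG_pairs (KG_c (n := n) (k := k))
    have e1 : Fintype.card (Fin n → Perm (Fin k)) = (k.factorial) ^ n := by
      rw [Fintype.card_fun, Fintype.card_perm, Fintype.card_fin, Fintype.card_fin]
    have e2 : Fintype.card (Fin k × Fin k → Fin (n + 1)) = (n + 1) ^ (k * k) := by
      rw [Fintype.card_fun, Fintype.card_prod, Fintype.card_fin, Fintype.card_fin]
    rw [e1, e2] at h
    exact h
  have h2 : Fintype.card P * (n.factorial) ^ k ≤ (k ^ n) ^ k * Nat.card (BT n k) := by
    have h3 : Fintype.card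
        (Σ p : P, (x : Fin k) → {D : Perm (Fin n) // ∀ q, p.1.2 (D q) x = p.1.1 q x}) ≤
        Fintype.card (BT n k) := by
      refine Fintype.card_le_of_injective
        (fun s => ⟨(fun x => (s.2 x).1, s.1.1.1), KG_bir s.1.1.1 s.1.1.2 (fun x => (s.2 x).1)
          (fun x q => (s.2 x).2 q)⟩) ?_
      rintro ⟨⟨⟨O, I⟩, hOI⟩, D⟩ ⟨⟨⟨O', I'⟩, hOI'⟩, D'⟩ hs
      have hs1 : (fun x => (D x).1) = (fun x => (D' x).1) := congrArg (fun s => s.1.1) hs
      have hs2 : O = O' := congrArg (fun s => s.1.2) hs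
      subst hs2
      have hI : I = I' := by
        funext r
        apply Equiv.ext
        intro x
        have e1 := (D x).2 ((D x).1.symm r)
        have e2 := (D' x).2 ((D x).1.symm r)
        have e3 : (D x).1 = (D' x).1 := congrFun hs1 x
        rw [← e3] at e2
        have e4 : (D x).1 ((D x).1.symm r) = r := Equiv.apply_symm_apply _ _
        rw [e4] at e1 e2
        exact e1.trans e2.symm
      subst hI
      have hD : D = D' := by
        funext x
        exact Subtype.ext (congrFun hs1 x)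
      subst hD
      rfl
    rw [Fintype.card_sigma] at h3
    rw [Nat.card_eq_fintype_card]
    refine le_trans ?_ (Nat.mul_le_mul_left _ h3)
    rw [Finset.mul_sum, Fintype.card, ← smul_eq_mul]
    refine Finset.card_nsmul_le_sum _ _ _ (fun p _ => ?_)
    rw [Fintype.card_pi]
    have e5 : (k ^ n) ^ k = ∏ _x : Fin k, k ^ n := by simp
    have e6 : (n.factorial) ^ k = ∏ _x : Fin k, n.factorial := by simp
    rw [e5, e6, ← Finset.prod_mul_distrib]
    refine Finset.prod_le_prod (fun x _ => Nat.zero_le _) (fun x _ => ?_)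
    have h7 := KG_fib' (fun q => p.1.1 q x) (fun r => p.1.2 r x) (fun y => by
      have h8 := congrArg Fin.val (congrFun p.2 (x, y))
      exact h8) inferInstance
    rw [Fintype.card_fin, Fintype.card_fin] at h7
    exact h7
  calc (n.factorial) ^ k * ((k.factorial) ^ n) ^ 2
      ≤ (n.factorial) ^ k * ((n + 1) ^ (k * k) * Fintype.card P) := Nat.mul_le_mul_left _ h1
    _ = (n + 1) ^ (k * k) * (Fintype.card P * (n.factorial) ^ k) := by ring
    _ ≤ _ := Nat.mul_le_mul_left _ h2

theorem card_BT_lower (n k : ℕ) (hk : 1 ≤ k) :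
    (n.factorial : ℝ) ^ k * ((k.factorial : ℝ) ^ 2 / (k : ℝ) ^ k) ^ n ≤
      ((n : ℝ) + 1) ^ (k ^ 2) * (Nat.card (BT n k) : ℝ) := by
  have h : ((n.factorial : ℝ)) ^ k * (((k.factorial : ℝ)) ^ n) ^ 2 ≤
      ((n : ℝ) + 1) ^ (k * k) * (((k : ℝ) ^ n) ^ k * (Nat.card (BT n k) : ℝ)) := by
    exact_mod_cast KG_nat n k
  have hk' : (0 : ℝ) < (k : ℝ) := by exact_mod_cast hk
  have hkp : (0 : ℝ) < ((k : ℝ) ^ n) ^ k := by positivity
  have e1 : (n.factorial : ℝ) ^ k * ((k.factorial : ℝ) ^ 2 / (k : ℝ) ^ k) ^ n =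
      ((n.factorial : ℝ)) ^ k * (((k.factorial : ℝ)) ^ n) ^ 2 / ((k : ℝ) ^ n) ^ k := by
    rw [div_pow, mul_div_assoc]
    congr 2
    · rw [← pow_mul, ← pow_mul, mul_comm]
    · rw [← pow_mul, ← pow_mul, mul_comm]
  rw [e1, div_le_iff₀ hkp]
  have e2 : k ^ 2 = k * k := sq k
  rw [e2]
  linarith

end RNK40
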