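import Pool.Agent.Lib_helper40.RNK.KG

set_option autoImplicit false

/-! Block KH (RNK): the outputs of most bireversible transducers are spread. -/

namespace RNK40

open Equiv Equiv.Perm RND40 GF40

private theorem KH_fact (k : ℕ) (hk : 3 ≤ k) :
    (4 : ℝ) / 3 ≤ (k.factorial : ℝ) ^ 2 / (k : ℝ) ^ k := by
  induction k, hk using Nat.le_induction with
  | base => norm_num [Nat.factorial]
  | succ m hm ih =>
    have hm3 : (3 : ℝ) ≤ (m : ℝ) := by exact_mod_cast hm
    have hm0 : (0 : ℝ) < (m : ℝ) := by linarith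
    have h1 : ((m : ℝ) + 1) ^ m ≤ 3 * (m : ℝ) ^ m := by
      have h2 : (1 + 1 / (m : ℝ)) ^ m ≤ Real.exp 1 := by
        have h3 : 1 + 1 / (m : ℝ) ≤ Real.exp (1 / (m : ℝ)) := by
          linarith [Real.add_one_le_exp (1 / (m : ℝ))]
        calc (1 + 1 / (m : ℝ)) ^ m ≤ (Real.exp (1 / (m : ℝ))) ^ m :=
              pow_le_pow_left₀ (by positivity) h3 m
          _ = Real.exp 1 := by
              rw [← Real.exp_nat_mul]
              congr 1
              field_simp
      have h4 : Real.exp 1 ≤ 3 := by linarith [Real.exp_one_lt_d9]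
      have h5 : ((m : ℝ) + 1) = (m : ℝ) * (1 + 1 / (m : ℝ)) := by
        field_simp
      rw [h5, mul_pow, mul_comm]
      exact mul_le_mul_of_nonneg_right (h2.trans h4) (by positivity)
    rw [le_div_iff₀ (by positivity)] at ih ⊢
    push_cast [Nat.factorial_succ]
    calc 4 / 3 * ((m : ℝ) + 1) ^ (m + 1) = 4 / 3 * (((m : ℝ) + 1) ^ m * ((m : ℝ) + 1)) := by
          rw [pow_succ]
      _ ≤ 4 / 3 * ((3 * (m : ℝ) ^ m) * ((m : ℝ) + 1)) := by gcongr
      _ = (4 / 3 * (m : ℝ) ^ m) * (3 * ((m : ℝ) + 1)) := by ring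
      _ ≤ (m.factorial : ℝ) ^ 2 * (3 * ((m : ℝ) + 1)) := by gcongr
      _ ≤ (m.factorial : ℝ) ^ 2 * (((m : ℝ) + 1) * ((m : ℝ) + 1)) := by gcongr; linarith
      _ = (((m : ℝ) + 1) * (m.factorial : ℝ)) ^ 2 := by ring

open Classical in
private theorem KH_near (n k : ℕ) (π : Perm (Fin k)) (e : ℝ)
    (he : (1 / (8 * (k.factorial : ℝ))) ^ e = 15 / 16) :
    (Nat.card {O : Fin n → Perm (Fin k) // (Nat.card {q // O q ≠ π} : ℝ) ≤ e * (n : ℝ)} : ℝ) ≤
      (6 / 5) ^ n := by
  set t : ℝ := 1 / (8 * (k.factorial : ℝ)) with ht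
  have hk : (1 : ℝ) ≤ (k.factorial : ℝ) := by exact_mod_cast Nat.factorial_pos k
  have ht0 : 0 < t := by positivity
  have ht1 : t ≤ 1 := by
    rw [ht, div_le_one (by positivity)]
    linarith
  have h1 : ∑ O : Fin n → Perm (Fin k), t ^ (Nat.card {q // O q ≠ π}) =
      (∑ σ : Perm (Fin k), if σ = π then (1 : ℝ) else t) ^ n := by
    rw [Fintype.sum_pow]
    refine Finset.sum_congr rfl (fun O _ => ?_)
    have h6 : Nat.card {q // O q ≠ π} = (Finset.univ.filter (fun q => O q ≠ π)).card := by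
      rw [Nat.card_eq_fintype_card, Fintype.card_subtype]
    rw [h6, ← Finset.prod_const, Finset.prod_filter]
    refine Finset.prod_congr rfl (fun q _ => ?_)
    by_cases h : O q = π <;> simp [h]
  have h2 : (∑ σ : Perm (Fin k), if σ = π then (1 : ℝ) else t) ≤ 9 / 8 := by
    calc (∑ σ : Perm (Fin k), if σ = π then (1 : ℝ) else t)
        ≤ ∑ σ : Perm (Fin k), ((if σ = π then (1 : ℝ) else 0) + t) := by
          refine Finset.sum_le_sum (fun σ _ => ?_)
          split_ifs <;> linarith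
      _ = 1 + (k.factorial : ℝ) * t := by
          rw [Finset.sum_add_distrib]
          simp [Fintype.card_perm]
      _ = 9 / 8 := by
          rw [ht]
          field_simp
          norm_num
  have h20 : 0 ≤ (∑ σ : Perm (Fin k), if σ = π then (1 : ℝ) else t) := by
    refine Finset.sum_nonneg (fun σ _ => ?_)
    split_ifs <;> linarith
  have h3 : (Nat.card {O : Fin n → Perm (Fin k) // (Nat.card {q // O q ≠ π} : ℝ) ≤
      e * (n : ℝ)} : ℝ) * (15 / 16) ^ n ≤
      ∑ O : Fin n → Perm (Fin k), t ^ (Nat.card {q // O q ≠ π}) := by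
    rw [Nat.card_eq_fintype_card, Fintype.card_subtype, ← nsmul_eq_mul, ← Finset.sum_const]
    refine (Finset.sum_le_sum ?_).trans (Finset.sum_le_sum_of_subset_of_nonneg
      (Finset.subset_univ _) (fun _ _ _ => by positivity))
    intro O hO
    have hO2 := (Finset.mem_filter.1 hO).2
    rw [← he, ← Real.rpow_natCast, ← Real.rpow_mul ht0.le, ← Real.rpow_natCast]
    exact Real.rpow_le_rpow_of_exponent_ge ht0 ht1 hO2
  have h4 : (∑ σ : Perm (Fin k), if σ = π then (1 : ℝ) else t) ^ n ≤ (9 / 8) ^ n :=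
    pow_le_pow_left₀ h20 h2 n
  have h5 : (6 / 5 : ℝ) ^ n * (15 / 16) ^ n = (9 / 8) ^ n := by
    rw [← mul_pow]
    norm_num
  have h7 : (0 : ℝ) < (15 / 16) ^ n := by positivity
  refine le_of_mul_le_mul_right ?_ h7
  rw [h5]
  exact h3.trans (h1.le.trans h4)

private theorem KH_card {n : ℕ} (P : Fin n → Prop) [DecidablePred P] :
    (Nat.card {q // P q} : ℝ) = ∑ q, if P q then (1 : ℝ) else 0 := by
  rw [Nat.card_eq_fintype_card, Fintype.card_subtype, Finset.card_filter]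
  push_cast
  rfl

open Classical in
private theorem KH_perm {n k : ℕ} (hn : 1 ≤ n) (hk : 1 ≤ k) (O : Fin n → Perm (Fin k)) (ε : ℝ)
    (hε : 0 < ε) (hεk : ε * (k : ℝ) ^ 2 < 1) (h : ¬ Spread ε O) :
    ∃ π : Perm (Fin k), (Nat.card {q // O q ≠ π} : ℝ) ≤ ε * (k : ℝ) ^ 2 * (n : ℝ) := by
  have hn0 : (0 : ℝ) < (n : ℝ) := by exact_mod_cast hn
  have hk1 : (1 : ℝ) ≤ (k : ℝ) := by exact_mod_cast hk
  have hc : ∀ x y, (Nat.card {q // O q x = y} : ℝ) =
      ∑ q, if O q x = y then (1 : ℝ) else 0 := fun x y => KH_card _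
  have hy : ∀ x, ∃ y, ε * (n : ℝ) ≤ (Nat.card {q // O q x = y} : ℝ) := by
    intro x
    by_contra hcon
    push Not at hcon
    have h1 : ∑ y, (Nat.card {q // O q x = y} : ℝ) = (n : ℝ) := by
      simp_rw [hc]
      rw [Finset.sum_comm]
      simp
    have h2 : ∑ y, (Nat.card {q // O q x = y} : ℝ) ≤ ∑ _y : Fin k, ε * (n : ℝ) :=
      Finset.sum_le_sum (fun y _ => (hcon y).le)
    rw [h1, Finset.sum_const, Finset.card_univ, Fintype.card_fin, nsmul_eq_mul] at h2
    have h3 : ε * (k : ℝ) ≤ ε * (k : ℝ) ^ 2 := by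
      have : (k : ℝ) ≤ (k : ℝ) ^ 2 := by nlinarith
      exact mul_le_mul_of_nonneg_left this hε.le
    have h4 : ε * (k : ℝ) < 1 := lt_of_le_of_lt h3 hεk
    nlinarith
  choose p hp using hy
  have hbad : ∀ x y, y ≠ p x → (Nat.card {q // O q x = y} : ℝ) ≤ ε * (n : ℝ) := by
    intro x y hyp
    by_contra hcon
    push Not at hcon
    exact h ⟨x, y, p x, hyp, hcon.le, hp x⟩
  have hx : ∀ x, ∑ q, (if O q x ≠ p x then (1 : ℝ) else 0) ≤ (k : ℝ) * (ε * (n : ℝ)) := by
    intro x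
    have h1 : ∀ q, (if O q x ≠ p x then (1 : ℝ) else 0) ≤
        ∑ y, (if y ≠ p x then (if O q x = y then (1 : ℝ) else 0) else 0) := by
      intro q
      by_cases hq : O q x ≠ p x
      · rw [if_pos hq]
        have h2 := Finset.single_le_sum (f := fun y => (if y ≠ p x then
          (if O q x = y then (1 : ℝ) else 0) else 0)) (s := Finset.univ)
          (fun y _ => by positivity) (Finset.mem_univ (O q x))
        simp only [if_pos hq, if_true] at h2
        simpa using h2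
      · rw [if_neg hq]
        exact Finset.sum_nonneg (fun y _ => by positivity)
    calc ∑ q, (if O q x ≠ p x then (1 : ℝ) else 0)
        ≤ ∑ q, ∑ y, (if y ≠ p x then (if O q x = y then (1 : ℝ) else 0) else 0) :=
          Finset.sum_le_sum (fun q _ => h1 q)
      _ = ∑ y, ∑ q, (if y ≠ p x then (if O q x = y then (1 : ℝ) else 0) else 0) :=
          Finset.sum_comm
      _ ≤ ∑ _y : Fin k, ε * (n : ℝ) := by
          refine Finset.sum_le_sum (fun y _ => ?_)
          by_cases hyp : y ≠ p x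
          · simp only [if_pos hyp]
            rw [← hc]
            exact hbad x y hyp
          · simp only [if_neg hyp, Finset.sum_const_zero]
            positivity
      _ = (k : ℝ) * (ε * (n : ℝ)) := by
          rw [Finset.sum_const, Finset.card_univ, Fintype.card_fin, nsmul_eq_mul]
  have hsum : ∑ q, ∑ x, (if O q x ≠ p x then (1 : ℝ) else 0) ≤ ε * (k : ℝ) ^ 2 * (n : ℝ) := by
    rw [Finset.sum_comm]
    refine (Finset.sum_le_sum (fun x _ => hx x)).trans (le_of_eq ?_)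
    rw [Finset.sum_const, Finset.card_univ, Fintype.card_fin, nsmul_eq_mul]
    ring
  have hone : ∀ q x, O q x ≠ p x → (1 : ℝ) ≤ ∑ x, (if O q x ≠ p x then (1 : ℝ) else 0) := by
    intro q x hqx
    have h2 := Finset.single_le_sum (f := fun x => (if O q x ≠ p x then (1 : ℝ) else 0))
      (s := Finset.univ) (fun y _ => by positivity) (Finset.mem_univ x)
    simp only [if_pos hqx] at h2
    exact h2
  obtain ⟨q0, hq0⟩ : ∃ q0, ∀ x, O q0 x = p x := by
    by_contra hcon
    push Not at hcon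
    have h1 : ∑ _q : Fin n, (1 : ℝ) ≤ ∑ q, ∑ x, (if O q x ≠ p x then (1 : ℝ) else 0) := by
      refine Finset.sum_le_sum (fun q _ => ?_)
      obtain ⟨x, hx'⟩ := hcon q
      exact hone q x hx'
    rw [Finset.sum_const, Finset.card_univ, Fintype.card_fin, nsmul_eq_mul, mul_one] at h1
    nlinarith
  refine ⟨O q0, ?_⟩
  rw [KH_card]
  refine (Finset.sum_le_sum (fun q _ => ?_)).trans hsum
  by_cases hq : O q ≠ O q0
  · rw [if_pos hq]
    have : ∃ x, O q x ≠ p x := by
      by_contra hcon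
      push Not at hcon
      exact hq (Equiv.ext (fun x => (hcon x).trans (hq0 x).symm))
    obtain ⟨x, hx'⟩ := this
    exact hone q x hx'
  · rw [if_neg hq]
    exact Finset.sum_nonneg (fun y _ => by positivity)

private theorem KH_lim (K : ℕ) (c η : ℝ) (hη : 0 < η) : ∃ n0 : ℕ, ∀ n ≥ n0,
    c * ((n : ℝ) + 1) ^ K * (9 / 10) ^ n ≤ η := by
  have h1 := tendsto_pow_const_mul_const_pow_of_abs_lt_one K
    (r := (9 / 10 : ℝ)) (by rw [abs_of_pos] <;> norm_num)
  have h2 := (h1.comp (Filter.tendsto_add_atTop_nat 1)).const_mul (c * (10 / 9))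
  rw [mul_zero] at h2
  have h3 := (h2.eventually (ge_mem_nhds hη)).exists_forall_of_atTop
  obtain ⟨n0, hn0⟩ := h3
  refine ⟨n0, fun n hn => ?_⟩
  have h4 := hn0 n hn
  simp only [Function.comp] at h4
  push_cast at h4
  rw [pow_succ] at h4
  refine le_trans (le_of_eq ?_) h4
  ring

theorem spread (k : ℕ) (hk : 3 ≤ k) : ∃ ε : ℝ, 0 < ε ∧ ∀ η : ℝ, 0 < η → ∃ n0 : ℕ, ∀ n ≥ n0,
    (Nat.card {A : BT n k // ¬ Spread ε A.1.2} : ℝ) ≤ η * (Nat.card (BT n k) : ℝ) := by
  classical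
  have hf : (1 : ℝ) ≤ (k.factorial : ℝ) := by exact_mod_cast Nat.factorial_pos k
  have hk0 : (0 : ℝ) < (k : ℝ) := by
    have : 0 < k := by omega
    exact_mod_cast this
  set K : ℝ := 8 * (k.factorial : ℝ) with hKd
  have hK : 8 ≤ K := by linarith
  have hlK : 0 < Real.log K := Real.log_pos (by linarith)
  have hl : 0 < Real.log (16 / 15) := Real.log_pos (by norm_num)
  set e : ℝ := Real.log (16 / 15) / Real.log K with hed
  have he0 : 0 < e := div_pos hl hlK
  have he1 : e < 1 := by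
    rw [hed, div_lt_one hlK]
    exact Real.log_lt_log (by norm_num) (by linarith)
  have he : (1 / K) ^ e = 15 / 16 := by
    rw [Real.rpow_def_of_pos (by positivity), one_div, Real.log_inv, hed]
    have h1 : -Real.log K * (Real.log (16 / 15) / Real.log K) = Real.log (15 / 16) := by
      have h2 : Real.log (15 / 16) = -Real.log (16 / 15) := by
        rw [← Real.log_inv]
        norm_num
      rw [h2]
      field_simp
    rw [h1, Real.exp_log (by norm_num)]
  refine ⟨e / (k : ℝ) ^ 2, by positivity, fun η hη => ?_⟩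
  obtain ⟨n0, hn0⟩ := KH_lim (k ^ 2) (k.factorial : ℝ) η hη
  refine ⟨max n0 1, fun n hn => ?_⟩
  have hn1 : n0 ≤ n := le_trans (le_max_left _ _) hn
  have hn2 : 1 ≤ n := le_trans (le_max_right _ _) hn
  have hek : e / (k : ℝ) ^ 2 * (k : ℝ) ^ 2 = e := by field_simp
  have h1 : (Nat.card {A : BT n k // ¬ Spread (e / (k : ℝ) ^ 2) A.1.2} : ℝ) ≤
      (k.factorial : ℝ) * (6 / 5) ^ n * (n.factorial : ℝ) ^ k := by
    have hπ : ∀ A : {A : BT n k // ¬ Spread (e / (k : ℝ) ^ 2) A.1.2}, ∃ π : Perm (Fin k),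
        (Nat.card {q // A.1.1.2 q ≠ π} : ℝ) ≤ e * (n : ℝ) := by
      intro A
      have h2 := KH_perm hn2 (by omega) A.1.1.2 (e / (k : ℝ) ^ 2) (by positivity)
        (by rw [hek]; exact he1) A.2
      rw [hek] at h2
      exact h2
    choose π hπ using hπ
    have h3 : Nat.card {A : BT n k // ¬ Spread (e / (k : ℝ) ^ 2) A.1.2} ≤
        Nat.card (Σ ρ : Perm (Fin k), ({O : Fin n → Perm (Fin k) //
          (Nat.card {q // O q ≠ ρ} : ℝ) ≤ e * (n : ℝ)} × (Fin k → Perm (Fin n)))) := by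
      refine Nat.card_le_card_of_injective
        (fun A => ⟨π A, (⟨A.1.1.2, hπ A⟩, A.1.1.1)⟩) ?_
      intro A A' hAA
      have e1 : A.1.1.1 = A'.1.1.1 := congrArg (fun s => s.2.2) hAA
      have e2 : A.1.1.2 = A'.1.1.2 := congrArg (fun s => s.2.1.1) hAA
      exact Subtype.ext (Subtype.ext (Prod.ext e1 e2))
    have h4 : (Nat.card (Σ ρ : Perm (Fin k), ({O : Fin n → Perm (Fin k) //
          (Nat.card {q // O q ≠ ρ} : ℝ) ≤ e * (n : ℝ)} × (Fin k → Perm (Fin n)))) : ℝ) =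
        ∑ ρ : Perm (Fin k), (Nat.card {O : Fin n → Perm (Fin k) //
          (Nat.card {q // O q ≠ ρ} : ℝ) ≤ e * (n : ℝ)} : ℝ) * (n.factorial : ℝ) ^ k := by
      rw [Nat.card_sigma]
      push_cast
      refine Finset.sum_congr rfl (fun ρ _ => ?_)
      rw [Nat.card_prod]
      push_cast
      congr 1
      rw [Nat.card_eq_fintype_card, Fintype.card_fun, Fintype.card_perm, Fintype.card_fin,
        Fintype.card_fin]
      push_cast
      rfl
    have h5 : (Nat.card {A : BT n k // ¬ Spread (e / (k : ℝ) ^ 2) A.1.2} : ℝ) ≤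
        ∑ ρ : Perm (Fin k), (Nat.card {O : Fin n → Perm (Fin k) //
          (Nat.card {q // O q ≠ ρ} : ℝ) ≤ e * (n : ℝ)} : ℝ) * (n.factorial : ℝ) ^ k := by
      rw [← h4]
      exact_mod_cast h3
    refine h5.trans ?_
    calc ∑ ρ : Perm (Fin k), (Nat.card {O : Fin n → Perm (Fin k) //
          (Nat.card {q // O q ≠ ρ} : ℝ) ≤ e * (n : ℝ)} : ℝ) * (n.factorial : ℝ) ^ k
        ≤ ∑ _ρ : Perm (Fin k), (6 / 5) ^ n * (n.factorial : ℝ) ^ k := by
          refine Finset.sum_le_sum (fun ρ _ => ?_)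
          exact mul_le_mul_of_nonneg_right (KH_near n k ρ e he) (by positivity)
      _ = (k.factorial : ℝ) * (6 / 5) ^ n * (n.factorial : ℝ) ^ k := by
          rw [Finset.sum_const, Finset.card_univ, Fintype.card_perm, Fintype.card_fin,
            nsmul_eq_mul]
          ring
  have h2 := card_BT_lower n k (by omega)
  have h3 : ((4 : ℝ) / 3) ^ n ≤ ((k.factorial : ℝ) ^ 2 / (k : ℝ) ^ k) ^ n :=
    pow_le_pow_left₀ (by norm_num) (KH_fact k hk) n
  have hP : (0 : ℝ) < ((n : ℝ) + 1) ^ (k ^ 2) := by positivity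
  refine h1.trans ?_
  refine le_of_mul_le_mul_right ?_ hP
  have h5 : (6 / 5 : ℝ) ^ n = (4 / 3) ^ n * (9 / 10) ^ n := by
    rw [← mul_pow]
    norm_num
  calc (k.factorial : ℝ) * (6 / 5) ^ n * (n.factorial : ℝ) ^ k * ((n : ℝ) + 1) ^ (k ^ 2)
      = ((n.factorial : ℝ) ^ k * (4 / 3) ^ n) *
          ((k.factorial : ℝ) * ((n : ℝ) + 1) ^ (k ^ 2) * (9 / 10) ^ n) := by
        rw [h5]
        ring
    _ ≤ ((n.factorial : ℝ) ^ k * (4 / 3) ^ n) * η :=
        mul_le_mul_of_nonneg_left (hn0 n hn1) (by positivity)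
    _ ≤ ((n.factorial : ℝ) ^ k * ((k.factorial : ℝ) ^ 2 / (k : ℝ) ^ k) ^ n) * η := by
        gcongr
    _ ≤ (((n : ℝ) + 1) ^ (k ^ 2) * (Nat.card (BT n k) : ℝ)) * η := by
        gcongr
    _ = η * (Nat.card (BT n k) : ℝ) * ((n : ℝ) + 1) ^ (k ^ 2) := by ring

end RNK40
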