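import Pool.Agent.Lib_helper40.RNK.Defs
import Pool.Agent.Lib_helper40.RND.RA

set_option autoImplicit false

/-! Block KI: two fixed points, second moment. -/

namespace RNK40

open Equiv Equiv.Perm RND40 GF40

section perm

variable {α : Type*} [Fintype α] [DecidableEq α]

theorem KI_cnt {J : Type*} [Fintype J] (a b : J → α) (hb : Function.Injective b) :
    Nat.card {δ : Perm α // ∀ j, δ (a j) = b j} ≤
      (Fintype.card α - Fintype.card J).factorial := by
  apply RA_gen (fun δ : Perm α => ∀ j, δ (a j) = b j) (fun _ => a) id a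
  · intro δ hδ j j' h
    apply hb
    rw [← hδ j, ← hδ j', h]
  · exact Function.injective_id
  · intro _ _ _
    rfl
  · intro s t hs ht _ i
    rw [hs i, ht i]

theorem KI_le {J : Type*} [Fintype J] (a b : J → α) (hb : Function.Injective b)
    (P : Perm α → Prop) [DecidablePred P] (hP : ∀ δ, P δ → ∀ j, δ (a j) = b j) :
    (Finset.univ.filter P).card ≤ (Fintype.card α - Fintype.card J).factorial := by
  classical
  refine le_trans ?_ (KI_cnt a b hb)
  rw [Nat.card_eq_fintype_card, Fintype.card_subtype]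
  apply Finset.card_le_card
  intro δ hδ
  rw [Finset.mem_filter] at hδ ⊢
  exact ⟨hδ.1, hP δ hδ.2⟩

/-- two values: exact count -/
theorem KI_two (x y q r : α) (hxy : x ≠ y) (hqr : q ≠ r) :
    (Finset.univ.filter fun δ : Perm α => δ x = q ∧ δ y = r).card =
      (Fintype.card α - 2).factorial := by
  have hle : ∀ p ∈ (Finset.univ : Finset α).offDiag,
      (Finset.univ.filter fun δ : Perm α => (δ x, δ y) = p).card ≤
        (Fintype.card α - 2).factorial := by
    intro p hp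
    rw [Finset.mem_offDiag] at hp
    have h := KI_le (J := Fin 2) ![x, y] ![p.1, p.2] (by
      intro i j h
      fin_cases i <;> fin_cases j <;> simp_all) (fun δ : Perm α => (δ x, δ y) = p) (by
      intro δ hδ j
      rw [← hδ]
      fin_cases j <;> rfl)
    simpa using h
  have hc : 2 ≤ Fintype.card α := Fintype.one_lt_card_iff.2 ⟨x, y, hxy⟩
  have hsum : ∑ p ∈ (Finset.univ : Finset α).offDiag,
      (Finset.univ.filter fun δ : Perm α => (δ x, δ y) = p).card =
      ∑ p ∈ (Finset.univ : Finset α).offDiag, (Fintype.card α - 2).factorial := by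
    rw [← Finset.card_eq_sum_card_fiberwise (f := fun δ : Perm α => (δ x, δ y))
      (s := Finset.univ) (t := (Finset.univ : Finset α).offDiag)]
    · rw [Finset.sum_const, Finset.offDiag_card, Finset.card_univ, Finset.card_univ,
        Fintype.card_perm, smul_eq_mul]
      obtain ⟨m, hm⟩ := Nat.exists_eq_add_of_le hc
      rw [hm]
      have e1 : 2 + m - 2 = m := by omega
      have e2 : (2 + m) * (2 + m) - (2 + m) = (m + 2) * (m + 1) := by
        have : (2 + m) * (2 + m) = (m + 2) * (m + 1) + (2 + m) := by ring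
        omega
      rw [e1, e2, show 2 + m = (m + 1) + 1 from by ring, Nat.factorial_succ, Nat.factorial_succ]
      ring
    · intro δ _
      rw [Finset.mem_coe, Finset.mem_offDiag]
      exact ⟨Finset.mem_univ _, Finset.mem_univ _, fun h => hxy (δ.injective h)⟩
  have := (Finset.sum_eq_sum_iff_of_le hle).1 hsum (q, r)
    (Finset.mem_offDiag.2 ⟨Finset.mem_univ _, Finset.mem_univ _, hqr⟩)
  rw [← this]
  congr 1
  ext δ
  simp only [Finset.mem_filter, Prod.mk.injEq]

/-- the indicator of `δ (t q) = q` -/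
noncomputable def KIu (t δ : Perm α) (q : α) : ℝ := if δ (t q) = q then 1 else 0

theorem KIu_nonneg (t δ : Perm α) (q : α) : 0 ≤ KIu t δ q := by
  unfold KIu
  split_ifs <;> norm_num

theorem KI_mul (t δ : Perm α) (q r : α) :
    KIu t δ q * KIu t δ r = if δ (t q) = q ∧ δ (t r) = r then 1 else 0 := by
  unfold KIu
  by_cases h1 : δ (t q) = q <;> by_cases h2 : δ (t r) = r <;> simp [h1, h2]

theorem KI_sum2 (t : Perm α) (q r : α) (hqr : q ≠ r) :
    ∑ δ : Perm α, KIu t δ q * KIu t δ r = ((Fintype.card α - 2).factorial : ℝ) := by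
  rw [Finset.sum_congr rfl fun δ _ => KI_mul t δ q r, Finset.sum_boole,
    KI_two (t q) (t r) q r (fun h => hqr (t.injective h)) hqr]

/-- the sum over four points -/
theorem KI_sum4 (s t : Perm α) (q1 q2 q3 q4 : α) (h12 : q1 ≠ q2) (h14 : q1 ≠ q4)
    (h32 : q3 ≠ q2) (h34 : q3 ≠ q4) :
    ∑ δ : Perm α, (KIu s δ q1 * KIu s δ q2) * (KIu t δ q3 * KIu t δ q4) ≤
      ((Fintype.card α - 4).factorial : ℝ) +
      (if q1 = q3 then (if s q1 = t q1 then ((Fintype.card α - 3).factorial : ℝ) else 0) else 0) +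
      (if q2 = q4 then (if s q2 = t q2 then ((Fintype.card α - 3).factorial : ℝ) else 0) else 0) +
      (if q1 = q3 then (if q2 = q4 then (if s q1 = t q1 then
        ((Fintype.card α - 2).factorial : ℝ) else 0) else 0) else 0) := by
  have e : ∀ δ : Perm α, (KIu s δ q1 * KIu s δ q2) * (KIu t δ q3 * KIu t δ q4) =
      if (δ (s q1) = q1 ∧ δ (s q2) = q2) ∧ (δ (t q3) = q3 ∧ δ (t q4) = q4) then 1 else 0 := by
    intro δ
    rw [KI_mul, KI_mul]
    by_cases h1 : δ (s q1) = q1 ∧ δ (s q2) = q2 <;>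
      by_cases h2 : δ (t q3) = q3 ∧ δ (t q4) = q4 <;> simp [h1, h2]
  rw [Finset.sum_congr rfl fun δ _ => e δ, Finset.sum_boole]
  have z2 : (0 : ℝ) ≤ ((Fintype.card α - 2).factorial : ℝ) := Nat.cast_nonneg _
  have z3 : (0 : ℝ) ≤ ((Fintype.card α - 3).factorial : ℝ) := Nat.cast_nonneg _
  have z4 : (0 : ℝ) ≤ ((Fintype.card α - 4).factorial : ℝ) := Nat.cast_nonneg _
  have i3 : (0 : ℝ) ≤ (if q1 = q3 then (if s q1 = t q1 then
      ((Fintype.card α - 3).factorial : ℝ) else 0) else 0) := by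
    split_ifs <;> first | exact z3 | exact le_rfl
  have i3' : (0 : ℝ) ≤ (if q2 = q4 then (if s q2 = t q2 then
      ((Fintype.card α - 3).factorial : ℝ) else 0) else 0) := by
    split_ifs <;> first | exact z3 | exact le_rfl
  have i2 : (0 : ℝ) ≤ (if q1 = q3 then (if q2 = q4 then (if s q1 = t q1 then
      ((Fintype.card α - 2).factorial : ℝ) else 0) else 0) else 0) := by
    split_ifs <;> first | exact z2 | exact le_rfl
  by_cases h13 : q1 = q3
  · by_cases h24 : q2 = q4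
    · subst h13
      subst h24
      by_cases hs : s q1 = t q1
      · have h := KI_le (J := Fin 2) ![s q1, s q2] ![q1, q2] (by
          intro i j h
          fin_cases i <;> fin_cases j <;> simp_all)
          (fun δ : Perm α => (δ (s q1) = q1 ∧ δ (s q2) = q2) ∧ (δ (t q1) = q1 ∧ δ (t q2) = q2)) (by
          intro δ hδ j
          fin_cases j
          · exact hδ.1.1
          · exact hδ.1.2)
        rw [Fintype.card_fin] at h
        have h' : ((Finset.univ.filter fun δ : Perm α => (δ (s q1) = q1 ∧ δ (s q2) = q2) ∧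
          (δ (t q1) = q1 ∧ δ (t q2) = q2)).card : ℝ) ≤
          ((Fintype.card α - 2).factorial : ℝ) := Nat.cast_le.2 h
        simp only [if_true, hs] at i3 i3' ⊢
        rw [hs] at h'
        linarith
      · have h0 : (Finset.univ.filter fun δ : Perm α => (δ (s q1) = q1 ∧ δ (s q2) = q2) ∧
          (δ (t q1) = q1 ∧ δ (t q2) = q2)) = ∅ := by
          apply Finset.filter_eq_empty_iff.2
          rintro δ _ ⟨⟨h1, _⟩, h2, _⟩
          exact hs (δ.injective (h1.trans h2.symm))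
        rw [h0, Finset.card_empty, Nat.cast_zero]
        linarith
    · subst h13
      by_cases hs : s q1 = t q1
      · have h := KI_le (J := Fin 3) ![s q1, s q2, t q4] ![q1, q2, q4] (by
          intro i j h
          fin_cases i <;> fin_cases j <;> simp_all)
          (fun δ : Perm α => (δ (s q1) = q1 ∧ δ (s q2) = q2) ∧ (δ (t q1) = q1 ∧ δ (t q4) = q4)) (by
          intro δ hδ j
          fin_cases j
          · exact hδ.1.1
          · exact hδ.1.2
          · exact hδ.2.2)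
        rw [Fintype.card_fin] at h
        have h' : ((Finset.univ.filter fun δ : Perm α => (δ (s q1) = q1 ∧ δ (s q2) = q2) ∧
          (δ (t q1) = q1 ∧ δ (t q4) = q4)).card : ℝ) ≤
          ((Fintype.card α - 3).factorial : ℝ) := Nat.cast_le.2 h
        rw [if_pos rfl, if_pos hs]
        linarith
      · have h0 : (Finset.univ.filter fun δ : Perm α => (δ (s q1) = q1 ∧ δ (s q2) = q2) ∧
          (δ (t q1) = q1 ∧ δ (t q4) = q4)) = ∅ := by
          apply Finset.filter_eq_empty_iff.2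
          rintro δ _ ⟨⟨h1, _⟩, h2, _⟩
          exact hs (δ.injective (h1.trans h2.symm))
        rw [h0, Finset.card_empty, Nat.cast_zero]
        linarith
  · by_cases h24 : q2 = q4
    · subst h24
      by_cases hs : s q2 = t q2
      · have h := KI_le (J := Fin 3) ![s q1, s q2, t q3] ![q1, q2, q3] (by
          intro i j h
          fin_cases i <;> fin_cases j <;> simp_all)
          (fun δ : Perm α => (δ (s q1) = q1 ∧ δ (s q2) = q2) ∧ (δ (t q3) = q3 ∧ δ (t q2) = q2)) (by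
          intro δ hδ j
          fin_cases j
          · exact hδ.1.1
          · exact hδ.1.2
          · exact hδ.2.1)
        rw [Fintype.card_fin] at h
        have h' : ((Finset.univ.filter fun δ : Perm α => (δ (s q1) = q1 ∧ δ (s q2) = q2) ∧
          (δ (t q3) = q3 ∧ δ (t q2) = q2)).card : ℝ) ≤
          ((Fintype.card α - 3).factorial : ℝ) := Nat.cast_le.2 h
        have e2 : (if q2 = q2 then (if s q2 = t q2 then
          ((Fintype.card α - 3).factorial : ℝ) else 0) else 0) =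
          ((Fintype.card α - 3).factorial : ℝ) := by
          rw [if_pos rfl, if_pos hs]
        rw [e2]
        linarith
      · have h0 : (Finset.univ.filter fun δ : Perm α => (δ (s q1) = q1 ∧ δ (s q2) = q2) ∧
          (δ (t q3) = q3 ∧ δ (t q2) = q2)) = ∅ := by
          apply Finset.filter_eq_empty_iff.2
          rintro δ _ ⟨⟨_, h1⟩, _, h2⟩
          exact hs (δ.injective (h1.trans h2.symm))
        rw [h0, Finset.card_empty, Nat.cast_zero]
        linarith
    · have h := KI_le (J := Fin 4) ![s q1, s q2, t q3, t q4] ![q1, q2, q3, q4] (by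
          intro i j h
          fin_cases i <;> fin_cases j <;> simp_all)
          (fun δ : Perm α => (δ (s q1) = q1 ∧ δ (s q2) = q2) ∧ (δ (t q3) = q3 ∧ δ (t q4) = q4)) (by
          intro δ hδ j
          fin_cases j
          · exact hδ.1.1
          · exact hδ.1.2
          · exact hδ.2.1
          · exact hδ.2.2)
      rw [Fintype.card_fin] at h
      have h' : ((Finset.univ.filter fun δ : Perm α => (δ (s q1) = q1 ∧ δ (s q2) = q2) ∧
        (δ (t q3) = q3 ∧ δ (t q4) = q4)).card : ℝ) ≤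
        ((Fintype.card α - 4).factorial : ℝ) := Nat.cast_le.2 h
      linarith

/-- number of fixed points in a set -/
noncomputable def KIX (A : Finset α) (t δ : Perm α) : ℝ := ∑ q ∈ A, KIu t δ q

theorem KI_EXY (A1 A2 : Finset α) (hd : _root_.Disjoint A1 A2) (t : Perm α) :
    ∑ δ : Perm α, KIX A1 t δ * KIX A2 t δ =
      (A1.card : ℝ) * (A2.card : ℝ) * ((Fintype.card α - 2).factorial : ℝ) := by
  have e : ∀ δ : Perm α, KIX A1 t δ * KIX A2 t δ =
      ∑ q ∈ A1, ∑ r ∈ A2, KIu t δ q * KIu t δ r := by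
    intro δ
    unfold KIX
    rw [Finset.sum_mul_sum]
  rw [Finset.sum_congr rfl fun δ _ => e δ, Finset.sum_comm]
  have e2 : ∀ q ∈ A1, ∑ δ : Perm α, ∑ r ∈ A2, KIu t δ q * KIu t δ r =
      (A2.card : ℝ) * ((Fintype.card α - 2).factorial : ℝ) := by
    intro q hq
    rw [Finset.sum_comm]
    rw [Finset.sum_congr rfl fun r hr => KI_sum2 t q r (by
      rintro rfl
      exact Finset.disjoint_left.1 hd hq hr)]
    rw [Finset.sum_const, nsmul_eq_mul]
  rw [Finset.sum_congr rfl e2, Finset.sum_const, nsmul_eq_mul]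
  ring

theorem KI_EXYXY (A1 A2 : Finset α) (hd : _root_.Disjoint A1 A2) (s t : Perm α) :
    ∑ δ : Perm α, (KIX A1 s δ * KIX A2 s δ) * (KIX A1 t δ * KIX A2 t δ) ≤
      (A1.card : ℝ) ^ 2 * (A2.card : ℝ) ^ 2 * ((Fintype.card α - 4).factorial : ℝ) +
      (A2.card : ℝ) ^ 2 * ((A1.filter fun q => s q = t q).card : ℝ) *
        ((Fintype.card α - 3).factorial : ℝ) +
      (A1.card : ℝ) ^ 2 * ((A2.filter fun q => s q = t q).card : ℝ) *
        ((Fintype.card α - 3).factorial : ℝ) +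
      (A2.card : ℝ) * ((A1.filter fun q => s q = t q).card : ℝ) *
        ((Fintype.card α - 2).factorial : ℝ) := by
  have e : ∀ δ : Perm α, (KIX A1 s δ * KIX A2 s δ) * (KIX A1 t δ * KIX A2 t δ) =
      ∑ q1 ∈ A1, ∑ q2 ∈ A2, ∑ q3 ∈ A1, ∑ q4 ∈ A2,
        (KIu s δ q1 * KIu s δ q2) * (KIu t δ q3 * KIu t δ q4) := by
    intro δ
    unfold KIX
    rw [Finset.sum_mul_sum, Finset.sum_mul_sum, Finset.sum_mul]
    refine Finset.sum_congr rfl fun q1 _ => ?_
    rw [Finset.sum_mul]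
    refine Finset.sum_congr rfl fun q2 _ => ?_
    rw [Finset.mul_sum]
    refine Finset.sum_congr rfl fun q3 _ => ?_
    rw [Finset.mul_sum]
  rw [Finset.sum_congr rfl fun δ _ => e δ, Finset.sum_comm]
  set F2 : ℝ := ((Fintype.card α - 2).factorial : ℝ) with hF2
  set F3 : ℝ := ((Fintype.card α - 3).factorial : ℝ) with hF3
  set F4 : ℝ := ((Fintype.card α - 4).factorial : ℝ) with hF4
  have key : ∀ q1 ∈ A1, ∑ δ : Perm α, ∑ q2 ∈ A2, ∑ q3 ∈ A1, ∑ q4 ∈ A2,
        (KIu s δ q1 * KIu s δ q2) * (KIu t δ q3 * KIu t δ q4) ≤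
      ∑ q2 ∈ A2, ∑ q3 ∈ A1, ∑ q4 ∈ A2, (F4 +
      (if q1 = q3 then (if s q1 = t q1 then F3 else 0) else 0) +
      (if q2 = q4 then (if s q2 = t q2 then F3 else 0) else 0) +
      (if q1 = q3 then (if q2 = q4 then (if s q1 = t q1 then F2 else 0) else 0) else 0)) := by
    intro q1 h1
    rw [Finset.sum_comm]
    refine Finset.sum_le_sum fun q2 h2 => ?_
    rw [Finset.sum_comm]
    refine Finset.sum_le_sum fun q3 h3 => ?_
    rw [Finset.sum_comm]
    refine Finset.sum_le_sum fun q4 h4 => ?_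
    have hne : ∀ {x y : α}, x ∈ A1 → y ∈ A2 → x ≠ y := by
      rintro x y hx hy rfl
      exact Finset.disjoint_left.1 hd hx hy
    exact KI_sum4 s t q1 q2 q3 q4 (hne h1 h2) (hne h1 h4) (hne h3 h2) (hne h3 h4)
  refine (Finset.sum_le_sum key).trans ?_
  have s4 : ∀ q1 ∈ A1, ∀ q2 ∈ A2, ∀ q3 ∈ A1, ∑ q4 ∈ A2, (F4 +
      (if q1 = q3 then (if s q1 = t q1 then F3 else 0) else 0) +
      (if q2 = q4 then (if s q2 = t q2 then F3 else 0) else 0) +
      (if q1 = q3 then (if q2 = q4 then (if s q1 = t q1 then F2 else 0) else 0) else 0)) =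
      (A2.card : ℝ) * F4 + (A2.card : ℝ) * (if q1 = q3 then (if s q1 = t q1 then F3 else 0) else 0)
      + (if s q2 = t q2 then F3 else 0) +
      (if q1 = q3 then (if s q1 = t q1 then F2 else 0) else 0) := by
    intro q1 _ q2 h2 q3 _
    rw [Finset.sum_add_distrib, Finset.sum_add_distrib, Finset.sum_add_distrib, Finset.sum_const,
      Finset.sum_const, nsmul_eq_mul, nsmul_eq_mul, Finset.sum_ite_eq, if_pos h2]
    congr 1
    by_cases h : q1 = q3
    · simp only [if_pos h]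
      rw [Finset.sum_ite_eq, if_pos h2]
    · simp only [if_neg h, Finset.sum_const_zero]
  have s3 : ∀ q1 ∈ A1, ∀ q2 ∈ A2, ∑ q3 ∈ A1, ∑ q4 ∈ A2, (F4 +
      (if q1 = q3 then (if s q1 = t q1 then F3 else 0) else 0) +
      (if q2 = q4 then (if s q2 = t q2 then F3 else 0) else 0) +
      (if q1 = q3 then (if q2 = q4 then (if s q1 = t q1 then F2 else 0) else 0) else 0)) =
      (A1.card : ℝ) * ((A2.card : ℝ) * F4) + (A2.card : ℝ) * (if s q1 = t q1 then F3 else 0)
      + (A1.card : ℝ) * (if s q2 = t q2 then F3 else 0) +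
      (if s q1 = t q1 then F2 else 0) := by
    intro q1 h1 q2 h2
    rw [Finset.sum_congr rfl fun q3 h3 => s4 q1 h1 q2 h2 q3 h3]
    rw [Finset.sum_add_distrib, Finset.sum_add_distrib, Finset.sum_add_distrib, Finset.sum_const,
      Finset.sum_const, nsmul_eq_mul, nsmul_eq_mul, Finset.sum_ite_eq, if_pos h1,
      ← Finset.mul_sum, Finset.sum_ite_eq, if_pos h1]
  have s2 : ∀ q1 ∈ A1, ∑ q2 ∈ A2, ∑ q3 ∈ A1, ∑ q4 ∈ A2, (F4 +
      (if q1 = q3 then (if s q1 = t q1 then F3 else 0) else 0) +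
      (if q2 = q4 then (if s q2 = t q2 then F3 else 0) else 0) +
      (if q1 = q3 then (if q2 = q4 then (if s q1 = t q1 then F2 else 0) else 0) else 0)) =
      (A2.card : ℝ) * ((A1.card : ℝ) * ((A2.card : ℝ) * F4)) +
      (A2.card : ℝ) * ((A2.card : ℝ) * (if s q1 = t q1 then F3 else 0))
      + (A1.card : ℝ) * (((A2.filter fun q => s q = t q).card : ℝ) * F3) +
      (A2.card : ℝ) * (if s q1 = t q1 then F2 else 0) := by
    intro q1 h1
    rw [Finset.sum_congr rfl fun q2 h2 => s3 q1 h1 q2 h2]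
    rw [Finset.sum_add_distrib, Finset.sum_add_distrib, Finset.sum_add_distrib, Finset.sum_const,
      Finset.sum_const, Finset.sum_const, nsmul_eq_mul, nsmul_eq_mul, nsmul_eq_mul,
      ← Finset.mul_sum, ← Finset.sum_filter, Finset.sum_const, nsmul_eq_mul]
  rw [Finset.sum_congr rfl s2]
  rw [Finset.sum_add_distrib, Finset.sum_add_distrib, Finset.sum_add_distrib, Finset.sum_const,
    Finset.sum_const, nsmul_eq_mul, nsmul_eq_mul, ← Finset.mul_sum, ← Finset.mul_sum,
    ← Finset.mul_sum, ← Finset.sum_filter, ← Finset.sum_filter, Finset.sum_const, Finset.sum_const,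
    nsmul_eq_mul, nsmul_eq_mul]
  apply le_of_eq
  ring

theorem KI_fact (N : ℕ) (h4 : 4 ≤ N) :
    ((N - 3).factorial : ℝ) = ((N : ℝ) - 3) * ((N - 4).factorial : ℝ) ∧
    ((N - 2).factorial : ℝ) = ((N : ℝ) - 2) * ((N : ℝ) - 3) * ((N - 4).factorial : ℝ) ∧
    (N.factorial : ℝ) = (N : ℝ) * ((N : ℝ) - 1) * ((N : ℝ) - 2) * ((N : ℝ) - 3) *
      ((N - 4).factorial : ℝ) := by
  obtain ⟨m, rfl⟩ := Nat.exists_eq_add_of_le h4
  have e1 : 4 + m - 3 = m + 1 := by omega
  have e2 : 4 + m - 2 = m + 1 + 1 := by omega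
  have e3 : 4 + m - 4 = m := by omega
  have e4 : 4 + m = m + 1 + 1 + 1 + 1 := by omega
  rw [e1, e2, e3]
  refine ⟨?_, ?_, ?_⟩
  · rw [Nat.factorial_succ]
    push_cast
    ring
  · rw [Nat.factorial_succ, Nat.factorial_succ]
    push_cast
    ring
  · rw [e4, Nat.factorial_succ, Nat.factorial_succ, Nat.factorial_succ, Nat.factorial_succ]
    push_cast
    ring

/-- the numerical part: `c` is the number of bad permutations -/
theorem KI_num (n a b ε ε' M F2 F3 F4 F c S1 S2 : ℝ) (hn : 4 ≤ n) (ha : ε * n ≤ a)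
    (hb : ε * n ≤ b) (hab : a + b ≤ n) (hε : 0 < ε) (hε' : 0 ≤ ε') (hM : 1 ≤ M) (hF4 : 0 < F4)
    (h3 : F3 = (n - 3) * F4) (h2 : F2 = (n - 2) * (n - 3) * F4)
    (h0 : F = n * (n - 1) * (n - 2) * (n - 3) * F4) (hc : 0 ≤ c)
    (hS1 : S1 = M * (a * b * F2))
    (hS2 : S2 ≤ M ^ 2 * (a ^ 2 * b ^ 2 * F4 + b ^ 2 * (ε' * n) * F3 + a ^ 2 * (ε' * n) * F3 +
      b * (ε' * n) * F2) + M * (b ^ 2 * a * F3 + a ^ 2 * b * F3 + b * a * F2))
    (hch : c * (M * (a * b / (n * (n - 1)))) ^ 2 ≤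
      S2 - 2 * (M * (a * b / (n * (n - 1)))) * S1 + (M * (a * b / (n * (n - 1)))) ^ 2 * F) :
    c ≤ F * ((4 / M + 8 * ε' + 20 / n) / ε ^ 4) := by
  have hn0 : 0 < n := by linarith
  have hn1 : 0 < n - 1 := by linarith
  have hn2 : 0 < n - 2 := by linarith
  have hn3 : 0 < n - 3 := by linarith
  have ha0 : 0 < a := lt_of_lt_of_le (mul_pos hε hn0) ha
  have hb0 : 0 < b := lt_of_lt_of_le (mul_pos hε hn0) hb
  have hM0 : 0 < M := by linarith
  set p := a * b / (n * (n - 1)) with hp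
  have hFpos : 0 < F := by rw [h0]; positivity
  have hpn : a * b = p * (n * (n - 1)) := by
    rw [hp]
    field_simp
  have hS1' : S1 = M * p * F := by
    rw [hS1, hpn, h2, h0]
    ring
  -- the main term
  have hmain : a ^ 2 * b ^ 2 * F4 ≤ (1 + 20 / n) * p ^ 2 * F := by
    have e : a ^ 2 * b ^ 2 * F4 = p ^ 2 * (n * (n - 1)) ^ 2 * F4 := by
      rw [← mul_pow, hpn]
      ring
    rw [e, h0]
    have e2 : n * (n - 1) ≤ (1 + 20 / n) * ((n - 2) * (n - 3)) := by
      have : (1 + 20 / n) * ((n - 2) * (n - 3)) = ((n + 20) * ((n - 2) * (n - 3))) / n := by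
        field_simp
      rw [this, le_div_iff₀ hn0]
      nlinarith [mul_nonneg (sub_nonneg.2 hn) (sub_nonneg.2 hn), sq_nonneg (n - 4)]
    calc p ^ 2 * (n * (n - 1)) ^ 2 * F4 = (p ^ 2 * (n * (n - 1)) * F4) * (n * (n - 1)) := by ring
      _ ≤ (p ^ 2 * (n * (n - 1)) * F4) * ((1 + 20 / n) * ((n - 2) * (n - 3))) := by
          apply mul_le_mul_of_nonneg_left e2
          positivity
      _ = _ := by ring
  have hab2 : a ^ 2 + b ^ 2 ≤ n ^ 2 := by nlinarith [mul_pos ha0 hb0]
  have habn : 4 * (a * b) ≤ n ^ 2 := by nlinarith [sq_nonneg (a - b)]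
  have hε'F : 0 ≤ ε' * F4 := by positivity
  -- the error term
  have herr : b ^ 2 * (ε' * n) * F3 + a ^ 2 * (ε' * n) * F3 + b * (ε' * n) * F2 ≤
      8 * ε' * F := by
    rw [h3, h2, h0]
    have e1 : b ^ 2 * (ε' * n) * ((n - 3) * F4) + a ^ 2 * (ε' * n) * ((n - 3) * F4) +
        b * (ε' * n) * ((n - 2) * (n - 3) * F4) =
        (ε' * F4) * (n * (n - 3)) * ((a ^ 2 + b ^ 2) + b * (n - 2)) := by ring
    have e2 : 8 * ε' * (n * (n - 1) * (n - 2) * (n - 3) * F4) =
        (ε' * F4) * (n * (n - 3)) * (8 * ((n - 1) * (n - 2))) := by ring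
    rw [e1, e2]
    apply mul_le_mul_of_nonneg_left _ (by positivity)
    have e3 : b * (n - 2) ≤ n * (n - 2) := mul_le_mul_of_nonneg_right (by linarith) hn2.le
    nlinarith [mul_nonneg (sub_nonneg.2 hn) (sub_nonneg.2 hn)]
  -- the diagonal term
  have hdiag : b ^ 2 * a * F3 + a ^ 2 * b * F3 + b * a * F2 ≤ 4 * F := by
    rw [h3, h2, h0]
    have e1 : b ^ 2 * a * ((n - 3) * F4) + a ^ 2 * b * ((n - 3) * F4) +
        b * a * ((n - 2) * (n - 3) * F4) = F4 * (n - 3) * ((a * b) * (a + b + (n - 2))) := by ring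
    have e2 : 4 * (n * (n - 1) * (n - 2) * (n - 3) * F4) =
        F4 * (n - 3) * (4 * (n * ((n - 1) * (n - 2)))) := by ring
    rw [e1, e2]
    apply mul_le_mul_of_nonneg_left _ (by positivity)
    have e3 : (a * b) * (a + b + (n - 2)) ≤ (n ^ 2 / 4) * (2 * n) := by
      apply mul_le_mul (by linarith) (by linarith) (by linarith) (by positivity)
    have e4 : (n ^ 2 / 4) * (2 * n) = n * (n ^ 2 / 2) := by ring
    rw [e4] at e3
    refine e3.trans ?_
    have e5 : n ^ 2 / 2 ≤ 4 * ((n - 1) * (n - 2)) := by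
      nlinarith [mul_nonneg (sub_nonneg.2 hn) (sub_nonneg.2 hn)]
    nlinarith
  -- Chebyshev
  have hS2' : S2 ≤ M ^ 2 * ((1 + 20 / n) * p ^ 2 * F + 8 * ε' * F) + M * (4 * F) := by
    refine hS2.trans ?_
    apply add_le_add
    · apply mul_le_mul_of_nonneg_left _ (by positivity)
      linarith
    · exact mul_le_mul_of_nonneg_left hdiag hM0.le
  have hfin : c * (M * p) ^ 2 ≤ F * M ^ 2 * (20 / n * p ^ 2 + 8 * ε' + 4 / M) := by
    refine hch.trans ?_
    rw [hS1']
    have e : F * M ^ 2 * (20 / n * p ^ 2 + 8 * ε' + 4 / M) =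
        (M ^ 2 * ((1 + 20 / n) * p ^ 2 * F + 8 * ε' * F) + M * (4 * F)) -
          2 * (M * p) * (M * p * F) + (M * p) ^ 2 * F := by
      field_simp
      ring
    rw [e]
    linarith
  have hfin2 : c * p ^ 2 ≤ F * (20 / n * p ^ 2 + 8 * ε' + 4 / M) := by
    have hM2 : 0 < M ^ 2 := by positivity
    refine le_of_mul_le_mul_right ?_ hM2
    calc c * p ^ 2 * M ^ 2 = c * (M * p) ^ 2 := by ring
      _ ≤ _ := hfin
      _ = _ := by ring
  -- `p ≥ ε ^ 2`
  have hpε : ε ^ 2 ≤ p := by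
    rw [hp, le_div_iff₀ (by positivity)]
    have e1 : (ε * n) * (ε * n) ≤ a * b := mul_le_mul ha hb (by positivity) ha0.le
    have e2 : ε ^ 2 * (n * (n - 1)) ≤ (ε * n) * (ε * n) := by
      have : 0 ≤ ε ^ 2 * n := by positivity
      nlinarith
    linarith
  have hp0 : 0 < p := lt_of_lt_of_le (by positivity) hpε
  have hε1 : ε ≤ 1 := by
    by_contra h
    push Not at h
    nlinarith
  have hε4 : ε ^ 4 ≤ 1 := pow_le_one₀ hε.le hε1
  have hpp : ε ^ 4 ≤ p ^ 2 := by
    calc ε ^ 4 = (ε ^ 2) ^ 2 := by ring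
      _ ≤ p ^ 2 := pow_le_pow_left₀ (by positivity) hpε 2
  have hε4p : 0 < ε ^ 4 := by positivity
  rw [← mul_div_assoc, le_div_iff₀ hε4p]
  -- r = ε ^ 4 / p ^ 2 ≤ 1
  set r := ε ^ 4 / p ^ 2 with hr
  have hr1 : r ≤ 1 := by
    rw [hr, div_le_one (by positivity)]
    exact hpp
  have hr0 : 0 ≤ r := by positivity
  have hrp : r * p ^ 2 = ε ^ 4 := by
    rw [hr]
    field_simp
  calc c * ε ^ 4 = (c * p ^ 2) * r := by rw [← hrp]; ring
    _ ≤ (F * (20 / n * p ^ 2 + 8 * ε' + 4 / M)) * r := mul_le_mul_of_nonneg_right hfin2 hr0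
    _ = F * (20 / n * ε ^ 4 + 8 * ε' * r + 4 / M * r) := by rw [← hrp]; ring
    _ ≤ F * (4 / M + 8 * ε' + 20 / n) := by
        apply mul_le_mul_of_nonneg_left _ hFpos.le
        have e1 : 20 / n * ε ^ 4 ≤ 20 / n := mul_le_of_le_one_right (by positivity) hε4
        have e2 : 8 * ε' * r ≤ 8 * ε' := mul_le_of_le_one_right (by positivity) hr1
        have e3 : 4 / M * r ≤ 4 / M := mul_le_of_le_one_right (by positivity) hr1
        linarith

/-! ### KI: two fixed points -/

theorem two_fixed (M : ℕ) (hM : 1 ≤ M) (s : Fin M → Perm α) (A1 A2 : Finset α)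
    (hd : _root_.Disjoint A1 A2) (ε ε' : ℝ) (hε : 0 < ε) (hε' : 0 ≤ ε')
    (h1 : ε * (Fintype.card α : ℝ) ≤ (A1.card : ℝ)) (h2 : ε * (Fintype.card α : ℝ) ≤ (A2.card : ℝ))
    (hs : ∀ i j, i ≠ j → (Nat.card {q // s i q = s j q} : ℝ) ≤ ε' * (Fintype.card α : ℝ))
    (h4 : 4 ≤ Fintype.card α) :
    (Nat.card {δ : Perm α // ∀ i, ¬ ((∃ q ∈ A1, δ (s i q) = q) ∧ ∃ q ∈ A2, δ (s i q) = q)} : ℝ) ≤
      ((Fintype.card α).factorial : ℝ) *
        ((4 / (M : ℝ) + 8 * ε' + 20 / (Fintype.card α : ℝ)) / ε ^ 4) := by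
  classical
  obtain ⟨g3, g2, g0⟩ := KI_fact (Fintype.card α) h4
  have hn : (4 : ℝ) ≤ (Fintype.card α : ℝ) := by exact_mod_cast h4
  have hM' : (1 : ℝ) ≤ (M : ℝ) := by exact_mod_cast hM
  set Z : Perm α → ℝ := fun δ => ∑ i, KIX A1 (s i) δ * KIX A2 (s i) δ with hZ
  have hS1 : ∑ δ, Z δ = (M : ℝ) * ((A1.card : ℝ) * (A2.card : ℝ) *
      ((Fintype.card α - 2).factorial : ℝ)) := by
    rw [hZ, Finset.sum_comm, Finset.sum_congr rfl fun i _ => KI_EXY A1 A2 hd (s i),
      Finset.sum_const, nsmul_eq_mul, Finset.card_univ, Fintype.card_fin]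
  have hfl : ∀ (A : Finset α) (i j : Fin M), i ≠ j →
      ((A.filter fun q => s i q = s j q).card : ℝ) ≤ ε' * (Fintype.card α : ℝ) := by
    intro A i j hij
    refine le_trans ?_ (hs i j hij)
    rw [Nat.card_eq_fintype_card, Fintype.card_subtype]
    exact_mod_cast Finset.card_le_card (Finset.filter_subset_filter _ (Finset.subset_univ A))
  set F2 : ℝ := ((Fintype.card α - 2).factorial : ℝ) with hF2
  set F3 : ℝ := ((Fintype.card α - 3).factorial : ℝ) with hF3
  set F4 : ℝ := ((Fintype.card α - 4).factorial : ℝ) with hF4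
  have z2 : 0 ≤ F2 := Nat.cast_nonneg _
  have z3 : 0 ≤ F3 := Nat.cast_nonneg _
  have z4 : 0 < F4 := Nat.cast_pos.2 (Nat.factorial_pos _)
  set a : ℝ := (A1.card : ℝ) with hadef
  set b : ℝ := (A2.card : ℝ) with hbdef
  have ha0 : 0 ≤ a := Nat.cast_nonneg _
  have hb0 : 0 ≤ b := Nat.cast_nonneg _
  set n : ℝ := (Fintype.card α : ℝ) with hndef
  have hpair : ∀ i j : Fin M, ∑ δ : Perm α, (KIX A1 (s i) δ * KIX A2 (s i) δ) *
      (KIX A1 (s j) δ * KIX A2 (s j) δ) ≤
      (a ^ 2 * b ^ 2 * F4 + b ^ 2 * (ε' * n) * F3 + a ^ 2 * (ε' * n) * F3 + b * (ε' * n) * F2) +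
      (if i = j then b ^ 2 * a * F3 + a ^ 2 * b * F3 + b * a * F2 else 0) := by
    intro i j
    refine (KI_EXYXY A1 A2 hd (s i) (s j)).trans ?_
    have hE : 0 ≤ ε' * n := by positivity
    by_cases hij : i = j
    · rw [if_pos hij]
      have f1 : ((A1.filter fun q => s i q = s j q).card : ℝ) ≤ a :=
        Nat.cast_le.2 (Finset.card_filter_le _ _)
      have f2 : ((A2.filter fun q => s i q = s j q).card : ℝ) ≤ b :=
        Nat.cast_le.2 (Finset.card_filter_le _ _)
      have k1 : b ^ 2 * ((A1.filter fun q => s i q = s j q).card : ℝ) * F3 ≤ b ^ 2 * a * F3 := by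
        gcongr
      have k2 : a ^ 2 * ((A2.filter fun q => s i q = s j q).card : ℝ) * F3 ≤ a ^ 2 * b * F3 := by
        gcongr
      have k3 : b * ((A1.filter fun q => s i q = s j q).card : ℝ) * F2 ≤ b * a * F2 := by
        gcongr
      have k4 : 0 ≤ b ^ 2 * (ε' * n) * F3 := by positivity
      have k5 : 0 ≤ a ^ 2 * (ε' * n) * F3 := by positivity
      have k6 : 0 ≤ b * (ε' * n) * F2 := by positivity
      linarith
    · rw [if_neg hij, add_zero]
      have f1 := hfl A1 i j hij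
      have f2 := hfl A2 i j hij
      have k1 : b ^ 2 * ((A1.filter fun q => s i q = s j q).card : ℝ) * F3 ≤
          b ^ 2 * (ε' * n) * F3 := by
        gcongr
      have k2 : a ^ 2 * ((A2.filter fun q => s i q = s j q).card : ℝ) * F3 ≤
          a ^ 2 * (ε' * n) * F3 := by
        gcongr
      have k3 : b * ((A1.filter fun q => s i q = s j q).card : ℝ) * F2 ≤
          b * (ε' * n) * F2 := by
        gcongr
      linarith
  have hS2 : ∑ δ, Z δ * Z δ ≤ (M : ℝ) ^ 2 * (a ^ 2 * b ^ 2 * F4 + b ^ 2 * (ε' * n) * F3 +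
      a ^ 2 * (ε' * n) * F3 + b * (ε' * n) * F2) +
      (M : ℝ) * (b ^ 2 * a * F3 + a ^ 2 * b * F3 + b * a * F2) := by
    have e : ∀ δ, Z δ * Z δ = ∑ i, ∑ j, (KIX A1 (s i) δ * KIX A2 (s i) δ) *
        (KIX A1 (s j) δ * KIX A2 (s j) δ) := by
      intro δ
      rw [hZ]
      exact Finset.sum_mul_sum _ _ _ _
    rw [Finset.sum_congr rfl fun δ _ => e δ, Finset.sum_comm]
    have e2 : ∀ i ∈ (Finset.univ : Finset (Fin M)), ∑ δ : Perm α, ∑ j,
        (KIX A1 (s i) δ * KIX A2 (s i) δ) * (KIX A1 (s j) δ * KIX A2 (s j) δ) ≤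
        (M : ℝ) * (a ^ 2 * b ^ 2 * F4 + b ^ 2 * (ε' * n) * F3 + a ^ 2 * (ε' * n) * F3 +
          b * (ε' * n) * F2) + (b ^ 2 * a * F3 + a ^ 2 * b * F3 + b * a * F2) := by
      intro i _
      rw [Finset.sum_comm]
      refine (Finset.sum_le_sum fun j _ => hpair i j).trans ?_
      rw [Finset.sum_add_distrib, Finset.sum_const, nsmul_eq_mul, Finset.card_univ,
        Fintype.card_fin, Finset.sum_ite_eq, if_pos (Finset.mem_univ i)]
    refine (Finset.sum_le_sum e2).trans ?_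
    rw [Finset.sum_const, nsmul_eq_mul, Finset.card_univ, Fintype.card_fin]
    apply le_of_eq
    ring
  have hab : a + b ≤ n := by
    rw [hadef, hbdef, hndef]
    have : A1.card + A2.card ≤ Fintype.card α := by
      rw [← Finset.card_union_of_disjoint hd]
      exact Finset.card_le_univ _
    exact_mod_cast this
  refine KI_num n a b ε ε' M F2 F3 F4 _ _ (∑ δ, Z δ) (∑ δ, Z δ * Z δ) hn h1 h2 hab hε hε' hM' z4
    g3 g2 g0 (Nat.cast_nonneg _) hS1 hS2 ?_
  -- Chebyshev
  set μ : ℝ := (M : ℝ) * (a * b / (n * (n - 1))) with hμ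
  have hch : ∑ δ, (Z δ - μ) ^ 2 = ∑ δ, Z δ * Z δ - 2 * μ * ∑ δ, Z δ +
      μ ^ 2 * ((Fintype.card α).factorial : ℝ) := by
    have e : ∀ δ, (Z δ - μ) ^ 2 = Z δ * Z δ - 2 * μ * Z δ + μ ^ 2 := fun δ => by ring
    rw [Finset.sum_congr rfl fun δ _ => e δ, Finset.sum_add_distrib, Finset.sum_sub_distrib,
      Finset.sum_const, nsmul_eq_mul, Finset.card_univ, Fintype.card_perm, ← Finset.mul_sum]
    ring
  rw [← hch]
  have hbad : ∀ δ : Perm α, (∀ i, ¬ ((∃ q ∈ A1, δ (s i q) = q) ∧ ∃ q ∈ A2, δ (s i q) = q)) →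
      Z δ = 0 := by
    intro δ hδ
    rw [hZ]
    apply Finset.sum_eq_zero
    intro i _
    by_contra hne
    apply hδ i
    have hx : KIX A1 (s i) δ ≠ 0 := fun h => hne (by rw [h, zero_mul])
    have hy : KIX A2 (s i) δ ≠ 0 := fun h => hne (by rw [h, mul_zero])
    obtain ⟨q, hq, hq'⟩ := Finset.exists_ne_zero_of_sum_ne_zero hx
    obtain ⟨r, hr, hr'⟩ := Finset.exists_ne_zero_of_sum_ne_zero hy
    refine ⟨⟨q, hq, ?_⟩, r, hr, ?_⟩
    · by_contra h
      exact hq' (if_neg h)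
    · by_contra h
      exact hr' (if_neg h)
  rw [Nat.card_eq_fintype_card, Fintype.card_subtype, ← nsmul_eq_mul, ← Finset.sum_const]
  refine (Finset.sum_le_sum fun δ hδ => ?_).trans
    (Finset.sum_le_sum_of_subset_of_nonneg (Finset.filter_subset _ _) fun δ _ _ => sq_nonneg _)
  rw [Finset.mem_filter] at hδ
  rw [hbad δ hδ.2, zero_sub, neg_sq]

end perm

end RNK40
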