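import Pool.Agent.Lib_helper40.RNK.Defs
import Pool.Agent.Lib_helper40.RND.RA
import Pool.Agent.Lib_helper40.RND.RD

set_option autoImplicit false

/-! Block KJ (helper37): the second moment (first half of `two_private` in RND/RC.lean). -/

namespace RNK40

open Equiv Equiv.Perm RND40 GF40

variable {α : Type*} [Fintype α] [DecidableEq α]

private theorem KJ_len_eq (s : Perm α) {x y : α} (h : SameCycle s x y) : len s x = len s y := by
  rw [← card_sameCycle, ← card_sameCycle]
  exact Nat.card_congr (Equiv.subtypeEquivRight fun z =>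
    ⟨fun hz => h.symm.trans hz, fun hz => h.trans hz⟩)

private theorem KJ_len_pos (s : Perm α) (x : α) : 1 ≤ len s x := by
  rw [← card_sameCycle]
  have : Nonempty {y // SameCycle s x y} := ⟨⟨x, SameCycle.refl s x⟩⟩
  exact Nat.card_pos

private theorem KJ_len_le (s : Perm α) (x : α) : len s x ≤ Fintype.card α := by
  rw [← card_sameCycle, ← Nat.card_eq_fintype_card]
  exact Nat.card_le_card_of_injective _ Subtype.val_injective

private theorem KJ_len_mem (s : Perm α) (x : α) : len s x ∈ Finset.Icc 1 (Fintype.card α) :=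
  Finset.mem_Icc.2 ⟨KJ_len_pos s x, KJ_len_le s x⟩

open Classical in
private theorem KJ_cycle (s : Perm α) (x : α) (c : ℝ) :
    ∑ y, (if SameCycle s x y then c else 0) = (len s x : ℝ) * c := by
  rw [← Finset.sum_filter, Finset.sum_const, nsmul_eq_mul, ← card_sameCycle,
    Nat.card_eq_fintype_card, Fintype.card_subtype]

private theorem KJ_sum1 (x : α) (g : ℕ → ℝ) : ∑ s : Perm α, g (len s x) =
    (∑ l ∈ Finset.Icc 1 (Fintype.card α), g l) * ((Fintype.card α - 1).factorial : ℝ) := by
  classical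
  rw [← Finset.sum_fiberwise_of_maps_to (s := Finset.univ) (t := Finset.Icc 1 (Fintype.card α))
    (g := fun s : Perm α => len s x) (fun s _ => KJ_len_mem s x), Finset.sum_mul]
  refine Finset.sum_congr rfl fun l hl => ?_
  obtain ⟨h1, h2⟩ := Finset.mem_Icc.1 hl
  rw [Finset.sum_congr rfl (g := fun _ => g l) (fun s hs => by rw [(Finset.mem_filter.1 hs).2]),
    Finset.sum_const, nsmul_eq_mul, ← card_period x l h1 h2, Nat.card_eq_fintype_card,
    Fintype.card_subtype, mul_comm]

open Classical in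
private theorem KJ_sum2 (x y : α) (hxy : x ≠ y) (F : ℕ → ℕ → ℝ) (hF : ∀ l m, 0 ≤ F l m) :
    ∑ s : Perm α, (if SameCycle s x y then 0 else F (len s x) (len s y)) ≤
      (∑ l ∈ Finset.Icc 1 (Fintype.card α), ∑ m ∈ Finset.Icc 1 (Fintype.card α), F l m) *
        ((Fintype.card α - 2).factorial : ℝ) := by
  have h0 : ∀ s : Perm α, (if SameCycle s x y then 0 else F (len s x) (len s y)) =
      (if ¬ SameCycle s x y then F (len s x) (len s y) else 0) := fun s => by
    split_ifs <;> rfl
  simp only [h0]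
  rw [← Finset.sum_filter, ← Finset.sum_product', Finset.sum_mul]
  rw [← Finset.sum_fiberwise_of_maps_to
    (t := Finset.Icc 1 (Fintype.card α) ×ˢ Finset.Icc 1 (Fintype.card α))
    (g := fun s : Perm α => (len s x, len s y))
    (fun s _ => Finset.mem_product.2 ⟨KJ_len_mem s x, KJ_len_mem s y⟩)]
  refine Finset.sum_le_sum fun p hp => ?_
  obtain ⟨h1, h2⟩ := Finset.mem_product.1 hp
  rw [Finset.sum_congr rfl (g := fun _ => F p.1 p.2) (fun s hs => by
      rw [← (Finset.mem_filter.1 hs).2]),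
    Finset.sum_const, nsmul_eq_mul, mul_comm]
  refine mul_le_mul_of_nonneg_left ?_ (hF _ _)
  have h3 := card_two_periods x y hxy p.1 p.2 (Finset.mem_Icc.1 h1).1 (Finset.mem_Icc.1 h2).1
  rw [Nat.card_eq_fintype_card, Fintype.card_subtype] at h3
  refine le_trans ?_ (Nat.cast_le.2 h3)
  refine Nat.cast_le.2 (Finset.card_le_card fun s hs => ?_)
  rw [Finset.mem_filter, Finset.mem_filter] at hs
  refine Finset.mem_filter.2 ⟨Finset.mem_univ _, ?_, ?_, hs.1.2⟩
  · exact congrArg Prod.fst hs.2
  · exact congrArg Prod.snd hs.2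

open Classical in
private theorem KJ_pairs (F : ℕ → ℕ → ℝ) (hF : ∀ l m, 0 ≤ F l m) :
    ∑ s : Perm α, ∑ x, ∑ y, (if SameCycle s x y then 0 else F (len s x) (len s y)) ≤
      (∑ l ∈ Finset.Icc 1 (Fintype.card α), ∑ m ∈ Finset.Icc 1 (Fintype.card α), F l m) *
        ((Fintype.card α).factorial : ℝ) := by
  set K := ∑ l ∈ Finset.Icc 1 (Fintype.card α), ∑ m ∈ Finset.Icc 1 (Fintype.card α), F l m
    with hK
  have hK0 : 0 ≤ K := Finset.sum_nonneg fun l _ => Finset.sum_nonneg fun m _ => hF l m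
  rw [Finset.sum_comm]
  have h1 : ∀ x : α, ∑ s : Perm α, ∑ y,
      (if SameCycle s x y then 0 else F (len s x) (len s y)) ≤
      ((Fintype.card α - 1 : ℕ) : ℝ) * (K * ((Fintype.card α - 2).factorial : ℝ)) := fun x => by
    rw [Finset.sum_comm]
    have h2 : ∀ y : α, ∑ s : Perm α,
        (if SameCycle s x y then 0 else F (len s x) (len s y)) ≤
        if x = y then 0 else K * ((Fintype.card α - 2).factorial : ℝ) := fun y => by
      split_ifs with h
      · subst h
        refine le_of_eq (Finset.sum_eq_zero fun s _ => if_pos (SameCycle.refl s x))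
      · exact KJ_sum2 x y h F hF
    refine (Finset.sum_le_sum fun y _ => h2 y).trans (le_of_eq ?_)
    have h3 : ∀ y : α, (if x = y then 0 else K * ((Fintype.card α - 2).factorial : ℝ)) =
        if y ∈ Finset.univ.erase x then K * ((Fintype.card α - 2).factorial : ℝ) else 0 :=
      fun y => by
        by_cases h : x = y
        · simp [h]
        · simp [h, Ne.symm h]
    rw [Finset.sum_congr rfl fun y _ => h3 y, Finset.sum_ite_mem, Finset.univ_inter,
      Finset.sum_const, nsmul_eq_mul, Finset.card_erase_of_mem (Finset.mem_univ _),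
      Finset.card_univ]
  refine (Finset.sum_le_sum fun x _ => h1 x).trans ?_
  rw [Finset.sum_const, nsmul_eq_mul, Finset.card_univ]
  have h4 : Fintype.card α * ((Fintype.card α - 1) * (Fintype.card α - 2).factorial) ≤
      (Fintype.card α).factorial := by
    rcases Nat.lt_or_ge (Fintype.card α) 2 with h | h
    · have : Fintype.card α = 0 ∨ Fintype.card α = 1 := by omega
      rcases this with h' | h' <;> rw [h'] <;> simp
    · obtain ⟨k, hk⟩ := Nat.exists_eq_add_of_le h
      rw [hk, show 2 + k - 1 = k + 1 by omega, show 2 + k - 2 = k by omega,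
        show 2 + k = (k + 1) + 1 by omega, Nat.factorial_succ, Nat.factorial_succ]
  have h5 : (Fintype.card α : ℝ) * (((Fintype.card α - 1 : ℕ) : ℝ) *
      ((Fintype.card α - 2).factorial : ℝ)) ≤ ((Fintype.card α).factorial : ℝ) := by
    exact_mod_cast h4
  calc (Fintype.card α : ℝ) * (((Fintype.card α - 1 : ℕ) : ℝ) *
        (K * ((Fintype.card α - 2).factorial : ℝ)))
      = K * ((Fintype.card α : ℝ) * (((Fintype.card α - 1 : ℕ) : ℝ) *
        ((Fintype.card α - 2).factorial : ℝ))) := by ring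
    _ ≤ K * ((Fintype.card α).factorial : ℝ) := mul_le_mul_of_nonneg_left h5 hK0

theorem second_moment (L : Finset ℕ) (hL : ∀ l ∈ L, 1 ≤ l ∧ l ≤ Fintype.card α) (μ : ℝ)
    (hμ : μ = ∑ l ∈ L, (1 : ℝ) / (l : ℝ)) (hpos : 0 < μ) :
    (Nat.card {s : Perm α // XX L s ≤ μ / 2} : ℝ) ≤
      ((Fintype.card α).factorial : ℝ) * (4 / μ) := by
  classical
  obtain ⟨n, hn⟩ : ∃ n, n = Fintype.card α := ⟨_, rfl⟩
  rw [← hn]
  have hLsub : L ⊆ Finset.Icc 1 n := fun l hl => Finset.mem_Icc.2 (by rw [hn]; exact hL l hl)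
  have hn1 : 1 ≤ n := by
    by_contra hc
    have : L = ∅ := by
      rw [Finset.eq_empty_iff_forall_notMem]
      intro l hl
      have := hL l hl
      omega
    rw [this] at hμ
    simp at hμ
    linarith
  -- the functions
  let u : Perm α → α → ℝ := fun s x => if len s x ∈ L then (1 : ℝ) / (len s x : ℝ) else 0
  let X : Perm α → ℝ := fun s => ∑ x, u s x
  have hu0 : ∀ s x, 0 ≤ u s x := fun s x => by
    simp only [u]
    split_ifs
    · positivity
    · exact le_rfl
  have hind : ∑ l ∈ Finset.Icc 1 n, (if l ∈ L then (1 : ℝ) / (l : ℝ) else 0) = μ := by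
    rw [hμ, Finset.sum_ite_mem, Finset.inter_eq_right.2 hLsub]
  -- first moment
  have hfac : (n : ℝ) * ((n - 1).factorial : ℝ) = (n.factorial : ℝ) := by
    exact_mod_cast Nat.mul_factorial_pred (by omega)
  have hX1 : ∑ s, X s = (n.factorial : ℝ) * μ := by
    simp only [X]
    rw [Finset.sum_comm]
    have h1 : ∀ x : α, ∑ s : Perm α, u s x = μ * ((n - 1).factorial : ℝ) := fun x => by
      rw [← hind, hn]
      exact KJ_sum1 x (fun l => if l ∈ L then (1 : ℝ) / (l : ℝ) else 0)
    rw [Finset.sum_congr rfl fun x _ => h1 x, Finset.sum_const, nsmul_eq_mul, Finset.card_univ,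
      ← hn, ← hfac]
    ring
  -- second moment
  have hX2 : ∑ s, X s ^ 2 ≤ (n.factorial : ℝ) * (μ + μ ^ 2) := by
    have h1 : ∀ s : Perm α, X s ^ 2 = X s + ∑ x, ∑ y, (if SameCycle s x y then 0 else
        (fun l m : ℕ => (if l ∈ L then (1 : ℝ) / (l : ℝ) else 0) *
          (if m ∈ L then (1 : ℝ) / (m : ℝ) else 0)) (len s x) (len s y)) := fun s => by
      have h2 : ∀ x : α, u s x = ∑ y, (if SameCycle s x y then u s x * u s x else 0) := fun x => by
        rw [KJ_cycle]
        simp only [u]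
        split_ifs
        · have : (len s x : ℝ) ≠ 0 := by
            have := KJ_len_pos s x
            positivity
          field_simp
        · ring
      have h3 : X s = ∑ x, ∑ y, (if SameCycle s x y then u s x * u s x else 0) :=
        Finset.sum_congr rfl fun x _ => h2 x
      have h4 : X s ^ 2 = ∑ x, ∑ y, u s x * u s y := by
        rw [pow_two]
        exact Finset.sum_mul_sum _ _ _ _
      rw [h4]
      nth_rewrite 1 [h3]
      rw [← Finset.sum_add_distrib]
      refine Finset.sum_congr rfl fun x _ => ?_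
      rw [← Finset.sum_add_distrib]
      refine Finset.sum_congr rfl fun y _ => ?_
      by_cases hs : SameCycle s x y
      · rw [if_pos hs, if_pos hs, add_zero]
        simp only [u]
        rw [KJ_len_eq s hs]
      · rw [if_neg hs, if_neg hs, zero_add]
    rw [Finset.sum_congr rfl fun s _ => h1 s, Finset.sum_add_distrib, hX1]
    have h5 := KJ_pairs (α := α) (fun l m : ℕ => (if l ∈ L then (1 : ℝ) / (l : ℝ) else 0) *
      (if m ∈ L then (1 : ℝ) / (m : ℝ) else 0)) (fun l m => by
        split_ifs <;> positivity)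
    have h6 : ∑ l ∈ Finset.Icc 1 n, ∑ m ∈ Finset.Icc 1 n,
        (if l ∈ L then (1 : ℝ) / (l : ℝ) else 0) * (if m ∈ L then (1 : ℝ) / (m : ℝ) else 0) =
        μ ^ 2 := by
      rw [← Finset.sum_mul_sum, hind, pow_two]
    rw [← hn] at h5
    rw [h6] at h5
    linarith
  obtain ⟨B1, hB1⟩ : ∃ B1, B1 = Finset.univ.filter (fun s : Perm α => X s ≤ μ / 2) := ⟨_, rfl⟩
  have hc1 : (B1.card : ℝ) ≤ (n.factorial : ℝ) * (4 / μ) := by
    have h1 : (B1.card : ℝ) * (μ ^ 2 / 4) ≤ (n.factorial : ℝ) * μ := by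
      have h2 : (B1.card : ℝ) * (μ ^ 2 / 4) ≤ ∑ s ∈ B1, (X s - μ) ^ 2 := by
        rw [← nsmul_eq_mul, ← Finset.sum_const]
        refine Finset.sum_le_sum fun s hs => ?_
        rw [hB1] at hs
        have := (Finset.mem_filter.1 hs).2
        nlinarith
      have h3 : ∑ s ∈ B1, (X s - μ) ^ 2 ≤ ∑ s, (X s - μ) ^ 2 :=
        Finset.sum_le_sum_of_subset_of_nonneg (Finset.subset_univ _) fun s _ _ => sq_nonneg _
      have h4 : ∑ s, (X s - μ) ^ 2 = ∑ s, X s ^ 2 - 2 * μ * ∑ s, X s + (n.factorial : ℝ) * μ ^ 2 := by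
        have h5 : ∀ s : Perm α, (X s - μ) ^ 2 = X s ^ 2 - 2 * μ * X s + μ ^ 2 := fun s => by ring
        rw [Finset.sum_congr rfl fun s _ => h5 s, Finset.sum_add_distrib, Finset.sum_sub_distrib,
          ← Finset.mul_sum, Finset.sum_const, nsmul_eq_mul, Finset.card_univ, Fintype.card_perm,
          ← hn]
      rw [h4, hX1] at h3
      nlinarith
    have h6 : (B1.card : ℝ) = ((B1.card : ℝ) * (μ ^ 2 / 4)) * (4 / μ ^ 2) := by
      field_simp
    rw [h6]
    calc ((B1.card : ℝ) * (μ ^ 2 / 4)) * (4 / μ ^ 2)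
        ≤ ((n.factorial : ℝ) * μ) * (4 / μ ^ 2) := mul_le_mul_of_nonneg_right h1 (by positivity)
      _ = (n.factorial : ℝ) * (4 / μ) := by field_simp
  have hcard : Nat.card {s : Perm α // XX L s ≤ μ / 2} = B1.card := by
    rw [Nat.card_eq_fintype_card, Fintype.card_subtype, hB1]
    rfl
  rw [hcard]
  exact hc1

end RNK40
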