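import Pool.Agent.Lib_helper40.RNK.Defs
import Pool.Agent.Lib_helper40.RND.RA

set_option autoImplicit false

/-! Block KK (helper53): weighted cycles. -/

namespace RNK40

open Equiv Equiv.Perm RND40 GF40

private theorem KK_det (w : ℕ → ℕ) (q : ℕ) (hq : 1 ≤ q) (n : ℕ) :
    ∃ m, m ≤ n ∧ q ∣ ∑ i ∈ Finset.range m, w i ∧
    ∑ j ∈ Finset.range n, (if q ∣ ∑ i ∈ Finset.range (j + 1), w i then
      (1 : ℝ) / ((j : ℝ) + 1) else 0) ≤
      ∑ j ∈ Finset.range m, ((1 / (q : ℝ)) * (1 / ((j : ℝ) + 1)) +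
        (if w j ≠ 1 then (1 : ℝ) / ((j : ℝ) + 1) else 0)) := by
  have hq' : (0 : ℝ) < q := by exact_mod_cast hq
  have hg : ∀ j : ℕ, (0 : ℝ) ≤ (1 / (q : ℝ)) * (1 / ((j : ℝ) + 1)) +
        (if w j ≠ 1 then (1 : ℝ) / ((j : ℝ) + 1) else 0) := by
    intro j
    have h1 : (0 : ℝ) ≤ (if w j ≠ 1 then (1 : ℝ) / ((j : ℝ) + 1) else 0) := by
      split_ifs
      · positivity
      · exact le_rfl
    positivity
  induction n with
  | zero => exact ⟨0, le_rfl, by simp, by simp⟩
  | succ n ih =>
    obtain ⟨m, hmn, hm, hF⟩ := ih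
    rw [Finset.sum_range_succ]
    by_cases hN : q ∣ ∑ i ∈ Finset.range (n + 1), w i
    · rw [if_pos hN]
      refine ⟨n + 1, le_rfl, hN, ?_⟩
      have hsplit : ∑ j ∈ Finset.range (n + 1), ((1 / (q : ℝ)) * (1 / ((j : ℝ) + 1)) +
          (if w j ≠ 1 then (1 : ℝ) / ((j : ℝ) + 1) else 0)) =
          ∑ j ∈ Finset.range m, ((1 / (q : ℝ)) * (1 / ((j : ℝ) + 1)) +
          (if w j ≠ 1 then (1 : ℝ) / ((j : ℝ) + 1) else 0)) +
          ∑ j ∈ Finset.Ico m (n + 1), ((1 / (q : ℝ)) * (1 / ((j : ℝ) + 1)) +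
          (if w j ≠ 1 then (1 : ℝ) / ((j : ℝ) + 1) else 0)) :=
        (Finset.sum_range_add_sum_Ico _ (by omega)).symm
      rw [hsplit]
      refine add_le_add hF ?_
      by_cases hall : ∀ i ∈ Finset.Ico m (n + 1), w i = 1
      · have h1 : ∑ i ∈ Finset.range (n + 1), w i =
            ∑ i ∈ Finset.range m, w i + ∑ i ∈ Finset.Ico m (n + 1), w i :=
          (Finset.sum_range_add_sum_Ico _ (by omega)).symm
        have h2 : ∑ i ∈ Finset.Ico m (n + 1), w i = n + 1 - m := by
          rw [Finset.sum_congr rfl hall]; simp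
        rw [h1, h2] at hN
        have h3 : q ∣ n + 1 - m := (Nat.dvd_add_right hm).1 hN
        have h4 : q ≤ n + 1 - m := Nat.le_of_dvd (by omega) h3
        have h5 : (q : ℝ) ≤ ((n + 1 - m : ℕ) : ℝ) := by exact_mod_cast h4
        calc (1 : ℝ) / ((n : ℝ) + 1)
            = (q : ℝ) * ((1 / (q : ℝ)) * (1 / ((n : ℝ) + 1))) := by field_simp
          _ ≤ ((n + 1 - m : ℕ) : ℝ) * ((1 / (q : ℝ)) * (1 / ((n : ℝ) + 1))) := by
              gcongr
          _ = ∑ j ∈ Finset.Ico m (n + 1), ((1 / (q : ℝ)) * (1 / ((n : ℝ) + 1))) := by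
              rw [Finset.sum_const, Nat.card_Ico, nsmul_eq_mul]
          _ ≤ _ := by
              refine Finset.sum_le_sum fun j hj => ?_
              rw [Finset.mem_Ico] at hj
              have h6 : (j : ℝ) ≤ n := by exact_mod_cast (by omega : j ≤ n)
              have h7 : (0 : ℝ) ≤ (if w j ≠ 1 then (1 : ℝ) / ((j : ℝ) + 1) else 0) := by
                split_ifs
                · positivity
                · exact le_rfl
              have h8 : (1 / (q : ℝ)) * (1 / ((n : ℝ) + 1)) ≤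
                  (1 / (q : ℝ)) * (1 / ((j : ℝ) + 1)) := by
                gcongr
              linarith
      · push Not at hall
        obtain ⟨i, hi, hwi⟩ := hall
        refine le_trans ?_ (Finset.single_le_sum (fun j _ => hg j) hi)
        rw [if_pos hwi]
        rw [Finset.mem_Ico] at hi
        have h6 : (i : ℝ) ≤ n := by exact_mod_cast (by omega : i ≤ n)
        have h7 : (1 : ℝ) / ((n : ℝ) + 1) ≤ 1 / ((i : ℝ) + 1) := by gcongr
        have h8 : (0 : ℝ) ≤ (1 / (q : ℝ)) * (1 / ((i : ℝ) + 1)) := by positivity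
        linarith
    · rw [if_neg hN, add_zero]
      exact ⟨m, by omega, hm, hF⟩

private theorem KK_det' (w : ℕ → ℕ) (q : ℕ) (hq : 1 ≤ q) (n : ℕ) :
    ∑ j ∈ Finset.range n, (if q ∣ ∑ i ∈ Finset.range (j + 1), w i then
      (1 : ℝ) / ((j : ℝ) + 1) else 0) ≤
      ∑ j ∈ Finset.range n, ((1 / (q : ℝ)) * (1 / ((j : ℝ) + 1)) +
        (if w j ≠ 1 then (1 : ℝ) / ((j : ℝ) + 1) else 0)) := by
  obtain ⟨m, hmn, _, hF⟩ := KK_det w q hq n
  refine hF.trans (Finset.sum_le_sum_of_subset_of_nonneg ?_ ?_)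
  · intro i hi
    rw [Finset.mem_range] at hi ⊢
    omega
  · intro j _ _
    have h1 : (0 : ℝ) ≤ (if w j ≠ 1 then (1 : ℝ) / ((j : ℝ) + 1) else 0) := by
      split_ifs
      · positivity
      · exact le_rfl
    positivity

section perm

variable {α : Type*} [Fintype α] [DecidableEq α]

/-- number of permutations with a prescribed prefix -/
private theorem KK_prefix (j : ℕ) (e v : Fin j ↪ α) :
    (Finset.univ.filter fun σ : Perm α => e.trans σ.toEmbedding = v).card =
      (Fintype.card α - j).factorial := by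
  have hj : j ≤ Fintype.card α := by
    simpa using Fintype.card_le_of_embedding e
  have hsame : ∀ v' : Fin j ↪ α,
      (Finset.univ.filter fun σ : Perm α => e.trans σ.toEmbedding = v').card =
      (Finset.univ.filter fun σ : Perm α => e.trans σ.toEmbedding = v).card := by
    intro v'
    obtain ⟨τ, hτ⟩ := (Equiv.Perm.isMultiplyPretransitive α j).exists_smul_eq v' v
    have hτ' : ∀ i, τ (v' i) = v i := by
      intro i
      have := congrArg (fun f : Fin j ↪ α => f i) hτ
      simpa using this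
    refine Finset.card_bij (fun σ _ => τ * σ) ?_ ?_ ?_
    · intro σ hσ
      rw [Finset.mem_filter] at hσ ⊢
      refine ⟨Finset.mem_univ _, ?_⟩
      ext i
      have h1 := congrArg (fun f : Fin j ↪ α => f i) hσ.2
      simp only [Function.Embedding.trans_apply, Equiv.coe_toEmbedding] at h1
      simp only [Function.Embedding.trans_apply, Equiv.coe_toEmbedding, Perm.mul_apply]
      rw [h1, hτ']
    · intro σ _ σ' _ h
      exact mul_left_cancel h
    · intro σ hσ
      rw [Finset.mem_filter] at hσ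
      refine ⟨τ⁻¹ * σ, ?_, by group⟩
      rw [Finset.mem_filter]
      refine ⟨Finset.mem_univ _, ?_⟩
      ext i
      have h1 := congrArg (fun f : Fin j ↪ α => f i) hσ.2
      simp only [Function.Embedding.trans_apply, Equiv.coe_toEmbedding] at h1
      simp only [Function.Embedding.trans_apply, Equiv.coe_toEmbedding, Perm.mul_apply]
      rw [h1, ← hτ' i]
      exact τ.symm_apply_apply _
  have h1 := Finset.card_eq_sum_card_fiberwise (f := fun σ : Perm α => e.trans σ.toEmbedding)
    (s := Finset.univ) (t := Finset.univ) (fun _ _ => Finset.mem_univ _)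
  rw [Finset.sum_congr rfl (fun v' _ => hsame v'), Finset.sum_const, Finset.card_univ,
    Finset.card_univ, Fintype.card_perm, Fintype.card_embedding_eq, Fintype.card_fin,
    smul_eq_mul] at h1
  have h2 := Nat.factorial_mul_descFactorial hj
  have h3 : 0 < (Fintype.card α).descFactorial j := by
    rw [Nat.pos_iff_ne_zero, Ne, Nat.descFactorial_eq_zero_iff_lt]
    omega
  rw [← h2, mul_comm] at h1
  exact (Nat.eq_of_mul_eq_mul_left h3 h1).symm

/-- averaging over one value -/
private theorem KK_one (x : α) (g : α → ℝ) :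
    ∑ σ : Perm α, g (σ x) = ((Fintype.card α).factorial : ℝ) *
      ((∑ y, g y) / (Fintype.card α : ℝ)) := by
  have hsame : ∀ y : α, ∑ σ : Perm α, g (σ y) = ∑ σ : Perm α, g (σ x) := by
    intro y
    refine Fintype.sum_equiv (Equiv.mulRight (Equiv.swap x y)) _ _ fun σ => ?_
    simp
  have h1 : ∑ y : α, ∑ σ : Perm α, g (σ y) = (Fintype.card α : ℝ) * ∑ σ : Perm α, g (σ x) := by
    rw [Finset.sum_congr rfl (fun y _ => hsame y), Finset.sum_const, Finset.card_univ,
      nsmul_eq_mul]
  have h2 : ∑ y : α, ∑ σ : Perm α, g (σ y) = ((Fintype.card α).factorial : ℝ) * ∑ y, g y := by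
    rw [Finset.sum_comm]
    rw [Finset.sum_congr rfl (fun σ _ => Equiv.sum_comp σ g), Finset.sum_const, Finset.card_univ,
      Fintype.card_perm, nsmul_eq_mul]
  have hn : (Fintype.card α : ℝ) ≠ 0 := by
    have : 0 < Fintype.card α := Fintype.card_pos_iff.2 ⟨x⟩
    positivity
  rw [h1] at h2
  field_simp
  linarith

omit [DecidableEq α] in
private theorem KK_len_mem (s : Perm α) (x : α) : len s x ∈ Finset.Icc 1 (Fintype.card α) := by
  rw [Finset.mem_Icc]
  constructor
  · exact Function.minimalPeriod_pos_of_mem_periodicPts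
      (Function.mem_periodicPts.2 ⟨orderOf s, orderOf_pos s, by
        rw [Function.IsPeriodicPt, Function.IsFixedPt, Equiv.Perm.iterate_eq_pow,
          pow_orderOf_eq_one, Equiv.Perm.one_apply]⟩)
  · have hinj : Function.Injective (fun i : Fin (len s x) => (s ^ (i : ℕ)) x) := by
      intro i k hik
      exact Fin.ext (RA_pow_inj s x i.2 k.2 hik)
    simpa using Fintype.card_le_of_injective _ hinj

open Classical in
/-- pairs (permutation, point) with a given length: at most `(n-j)!` for each tuple -/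
private theorem KK_pairs (wt : α → ℕ) (q j : ℕ) (hj : 1 ≤ j) :
    (Finset.univ.filter fun p : Perm α × α => len p.1 p.2 = j ∧
      q ∣ ∑ i ∈ Finset.range (len p.1 p.2), wt ((p.1 ^ i) p.2)).card ≤
      (Finset.univ.filter fun v : Fin j ↪ α => q ∣ ∑ i, wt (v i)).card *
        (Fintype.card α - j).factorial := by
  set A := Finset.univ.filter fun p : Perm α × α => len p.1 p.2 = j ∧
      q ∣ ∑ i ∈ Finset.range (len p.1 p.2), wt ((p.1 ^ i) p.2) with hA
  set B := (Finset.univ.filter fun v : Fin j ↪ α => q ∣ ∑ i, wt (v i)) with hB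
  set C : Finset (Fin j → α) := B.map ⟨fun v : Fin j ↪ α => (fun i => v i), fun v v' hv => DFunLike.ext _ _ fun i => congrFun hv i⟩ with hC
  have hCcard : C.card = B.card := Finset.card_map _
  rw [← hCcard]
  refine (Finset.card_le_mul_card_image_of_maps_to (f := fun p : Perm α × α =>
    fun i : Fin j => (p.1 ^ (i : ℕ)) p.2) (s := A) (t := C) ?_ _ ?_).trans (le_of_eq (mul_comm _ _))
  · rintro ⟨s, t⟩ hst
    rw [hA, Finset.mem_filter] at hst
    obtain ⟨_, h1, h2⟩ := hst
    simp only at h1 h2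
    rw [hC, Finset.mem_map]
    refine ⟨⟨fun i : Fin j => (s ^ (i : ℕ)) t, ?_⟩, ?_, rfl⟩
    · intro i k hik
      refine Fin.ext (RA_pow_inj s t ?_ ?_ hik)
      · rw [h1]; exact i.2
      · rw [h1]; exact k.2
    · rw [hB, Finset.mem_filter]
      refine ⟨Finset.mem_univ _, ?_⟩
      rw [h1, Finset.sum_range] at h2
      exact h2
  · intro v _
    have hj0 : 0 < j := hj
    have h := RA_gen (α := α) (I := Fin j) (J := Fin j)
      (fun s => len s (v ⟨0, hj0⟩) = j ∧ ∀ i : Fin j, (s ^ (i : ℕ)) (v ⟨0, hj0⟩) = v i)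
      (fun s i => (s ^ (i : ℕ)) (v ⟨0, hj0⟩)) id v ?_ ?_ ?_ ?_
    · rw [Fintype.card_fin] at h
      refine le_trans ?_ h
      rw [Nat.card_eq_fintype_card, Fintype.card_subtype]
      refine Finset.card_le_card_of_injOn (fun p => p.1) ?_ ?_
      · rintro ⟨s, t⟩ hst
        rw [Finset.mem_coe, Finset.mem_filter, hA, Finset.mem_filter] at hst
        obtain ⟨⟨_, h1, _⟩, h3⟩ := hst
        simp only at h1 h3
        have h4 : t = v ⟨0, hj0⟩ := by
          have := congrFun h3 ⟨0, hj0⟩
          simpa using this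
        rw [Finset.mem_coe, Finset.mem_filter]
        refine ⟨Finset.mem_univ _, ?_, ?_⟩
        · rw [← h4]; exact h1
        · intro i
          rw [← h4]; exact congrFun h3 i
      · rintro ⟨s, t⟩ hst ⟨s', t'⟩ hst' hss
        simp only [Finset.coe_filter, Set.mem_setOf_eq] at hst hst' hss
        have h4 : t = v ⟨0, hj0⟩ := by
          have := congrFun hst.2 ⟨0, hj0⟩
          simpa using this
        have h4' : t' = v ⟨0, hj0⟩ := by
          have := congrFun hst'.2 ⟨0, hj0⟩
          simpa using this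
        rw [hss, h4, h4']
    · rintro s ⟨h1, _⟩ i k hik
      refine Fin.ext (RA_pow_inj s _ ?_ ?_ hik)
      · rw [h1]; exact i.2
      · rw [h1]; exact k.2
    · exact Function.injective_id
    · rintro s ⟨_, h2⟩ k
      exact h2 k
    · rintro s t ⟨h1, h2⟩ ⟨h1', h2'⟩ hP i
      exact RA_agree s t _ j h1 h1' (fun i hi => congrFun hP ⟨i, hi⟩) i i.2

/-! ### KK: weighted cycles -/

theorem weight_count (wt : α → ℕ) (hwt : ∀ t, 1 ≤ wt t) (q : ℕ) (hq : 1 ≤ q)
    (h : 1 ≤ Fintype.card α) :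
    ∑ s : Perm α, ∑ t, (if q ∣ ∑ i ∈ Finset.range (len s t), wt ((s ^ i) t) then
      (1 : ℝ) / (len s t : ℝ) else 0) ≤
      ((Fintype.card α).factorial : ℝ) * ((1 + Real.log (Fintype.card α : ℝ)) *
        (1 / (q : ℝ) + (Nat.card {t // wt t ≠ 1} : ℝ) / (Fintype.card α : ℝ))) := by
  classical
  set n := Fintype.card α with hn
  let e : Fin n ≃ α := (Fintype.equivFin α).symm
  let x0 : α := e ⟨0, h⟩
  -- the enumeration on ℕ
  let u : ℕ → α := fun i => if hi : i < n then e ⟨i, hi⟩ else x0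
  have hu : ∀ i j, i < n → j < n → u i = u j → i = j := by
    intro i j hi hj hij
    simp only [u, dif_pos hi, dif_pos hj] at hij
    have := e.injective hij
    simpa using this
  -- step 1
  have h1 : ∑ s : Perm α, ∑ t, (if q ∣ ∑ i ∈ Finset.range (len s t), wt ((s ^ i) t) then
      (1 : ℝ) / (len s t : ℝ) else 0) =
      ∑ j ∈ Finset.Icc 1 n, (((Finset.univ.filter fun p : Perm α × α => len p.1 p.2 = j ∧
      q ∣ ∑ i ∈ Finset.range (len p.1 p.2), wt ((p.1 ^ i) p.2)).card : ℝ) * (1 / (j : ℝ))) := by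
    rw [← Fintype.sum_prod_type' (f := fun (s : Perm α) (t : α) =>
      (if q ∣ ∑ i ∈ Finset.range (len s t), wt ((s ^ i) t) then
      (1 : ℝ) / (len s t : ℝ) else 0))]
    rw [← Finset.sum_fiberwise_of_maps_to (s := Finset.univ) (t := Finset.Icc 1 n)
      (g := fun p : Perm α × α => len p.1 p.2) (fun p _ => KK_len_mem p.1 p.2)]
    refine Finset.sum_congr rfl fun j _ => ?_
    rw [← Finset.sum_filter, Finset.filter_filter, ← nsmul_eq_mul, ← Finset.sum_const]
    refine Finset.sum_congr rfl fun p hp => ?_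
    rw [Finset.mem_filter] at hp
    rw [hp.2.1]
  -- step 2
  have h2 : ∀ j ∈ Finset.Icc 1 n, (((Finset.univ.filter fun p : Perm α × α => len p.1 p.2 = j ∧
      q ∣ ∑ i ∈ Finset.range (len p.1 p.2), wt ((p.1 ^ i) p.2)).card : ℝ) * (1 / (j : ℝ))) ≤
      ∑ σ : Perm α, (if q ∣ ∑ i ∈ Finset.range j, wt (σ (u i)) then (1 : ℝ) / (j : ℝ) else 0) := by
    intro j hj
    rw [Finset.mem_Icc] at hj
    let ej : Fin j ↪ α := ⟨fun i => u i, by
      intro i k hik
      exact Fin.ext (hu i k (by omega) (by omega) hik)⟩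
    have h3 := KK_pairs wt q j hj.1
    have h4 : (Finset.univ.filter fun v : Fin j ↪ α => q ∣ ∑ i, wt (v i)).card *
        (n - j).factorial =
        (Finset.univ.filter fun σ : Perm α => q ∣ ∑ i ∈ Finset.range j, wt (σ (u i))).card := by
      rw [Finset.card_eq_sum_card_fiberwise (f := fun σ : Perm α => ej.trans σ.toEmbedding)
        (s := Finset.univ.filter fun σ : Perm α => q ∣ ∑ i ∈ Finset.range j, wt (σ (u i)))
        (t := Finset.univ.filter fun v : Fin j ↪ α => q ∣ ∑ i, wt (v i))]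
      · rw [Finset.sum_congr rfl (g := fun _ => (n - j).factorial), Finset.sum_const, smul_eq_mul]
        intro v hv
        rw [Finset.mem_filter] at hv
        rw [← KK_prefix j ej v, Finset.filter_filter]
        congr 1
        refine Finset.filter_congr fun σ _ => ?_
        constructor
        · exact fun h => h.2
        · intro hσ
          refine ⟨?_, hσ⟩
          rw [Finset.sum_range]
          have h5 := hv.2
          rw [← hσ] at h5
          exact h5
      · intro σ hσ
        rw [Finset.mem_coe, Finset.mem_filter] at hσ ⊢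
        refine ⟨Finset.mem_univ _, ?_⟩
        have h5 := hσ.2
        rw [Finset.sum_range] at h5
        exact h5
    rw [h4] at h3
    rw [← Finset.sum_filter, Finset.sum_const, nsmul_eq_mul]
    have h6 : (0 : ℝ) ≤ 1 / (j : ℝ) := by positivity
    exact mul_le_mul_of_nonneg_right (by exact_mod_cast h3) h6
  rw [h1]
  refine (Finset.sum_le_sum h2).trans ?_
  rw [Finset.sum_comm]
  -- step 3
  have h3 : ∀ σ : Perm α, ∑ j ∈ Finset.Icc 1 n,
      (if q ∣ ∑ i ∈ Finset.range j, wt (σ (u i)) then (1 : ℝ) / (j : ℝ) else 0) ≤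
      ∑ j ∈ Finset.range n, ((1 / (q : ℝ)) * (1 / ((j : ℝ) + 1)) +
        (if wt (σ (u j)) ≠ 1 then (1 : ℝ) / ((j : ℝ) + 1) else 0)) := by
    intro σ
    refine le_trans (le_of_eq ?_) (KK_det' (fun i => wt (σ (u i))) q hq n)
    have h9 := Finset.sum_Ico_add' (fun j : ℕ =>
      (if q ∣ ∑ i ∈ Finset.range j, wt (σ (u i)) then (1 : ℝ) / (j : ℝ) else 0)) 0 n 1
    have h10 : Finset.Ico (0 + 1) (n + 1) = Finset.Icc 1 n := by
      ext i
      simp only [Finset.mem_Ico, Finset.mem_Icc]
      omega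
    rw [h10] at h9
    rw [← h9, Finset.range_eq_Ico]
    refine Finset.sum_congr rfl fun j _ => ?_
    push_cast
    rfl
  refine (Finset.sum_le_sum fun σ _ => h3 σ).trans ?_
  rw [Finset.sum_comm]
  have h4 : ∀ j ∈ Finset.range n, ∑ σ : Perm α, ((1 / (q : ℝ)) * (1 / ((j : ℝ) + 1)) +
        (if wt (σ (u j)) ≠ 1 then (1 : ℝ) / ((j : ℝ) + 1) else 0)) =
      (n.factorial : ℝ) * (1 / (q : ℝ) + (Nat.card {t // wt t ≠ 1} : ℝ) / (n : ℝ)) *
        (1 / ((j : ℝ) + 1)) := by
    intro j _
    rw [Finset.sum_add_distrib, KK_one (u j) (fun y => if wt y ≠ 1 then (1 : ℝ) / ((j : ℝ) + 1) else 0),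
      ← Finset.sum_filter, Finset.sum_const, Finset.sum_const, Finset.card_univ,
      Fintype.card_perm, nsmul_eq_mul, nsmul_eq_mul, Nat.card_eq_fintype_card,
      Fintype.card_subtype, ← hn]
    ring
  rw [Finset.sum_congr rfl h4, ← Finset.mul_sum]
  have h5 : ∑ j ∈ Finset.range n, (1 / ((j : ℝ) + 1)) ≤ 1 + Real.log (n : ℝ) := by
    have := harmonic_le_one_add_log n
    rw [harmonic] at this
    push_cast at this
    simpa using this
  have h6 : (0 : ℝ) ≤ (n.factorial : ℝ) *
      (1 / (q : ℝ) + (Nat.card {t // wt t ≠ 1} : ℝ) / (n : ℝ)) := by positivity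
  calc _ ≤ (n.factorial : ℝ) * (1 / (q : ℝ) + (Nat.card {t // wt t ≠ 1} : ℝ) / (n : ℝ)) *
        (1 + Real.log (n : ℝ)) := mul_le_mul_of_nonneg_left h5 h6
    _ = _ := by ring

end perm

end RNK40
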