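import Pool.Agent.Lib_helper40.RNK.Defs

set_option autoImplicit false

/-! Block KL: cycle lengths and the return map (helper76). -/

namespace RNK40

open Equiv Equiv.Perm RND40 GF40

private theorem KL_per {β : Type*} (s : Perm β) (x : β) (n : ℕ) :
    (s ^ n) x = x ↔ len s x ∣ n := by
  rw [len, ← Function.isPeriodicPt_iff_minimalPeriod_dvd, Function.IsPeriodicPt,
    Function.IsFixedPt, Perm.iterate_eq_pow]

private theorem KL_pos {β : Type*} [Finite β] (s : Perm β) (x : β) : 0 < len s x := by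
  have h : Function.IsPeriodicPt s (orderOf s) x := by
    rw [Function.IsPeriodicPt, Function.IsFixedPt, Perm.iterate_eq_pow, pow_orderOf_eq_one]
    rfl
  exact h.minimalPeriod_pos (orderOf_pos s)

private theorem KL_len_pow {β : Type*} (s : Perm β) (x : β) (n : ℕ) :
    len s ((s ^ n) x) = len s x := by
  apply Nat.dvd_antisymm
  · rw [← KL_per, ← Perm.mul_apply, ← pow_add, add_comm, pow_add, Perm.mul_apply,
      (KL_per s x _).2 dvd_rfl]
  · rw [← KL_per]
    have h := (KL_per s ((s ^ n) x) _).2 dvd_rfl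
    rw [← Perm.mul_apply, ← pow_add, add_comm, pow_add, Perm.mul_apply] at h
    exact (s ^ n).injective h

variable {α : Type*} [Fintype α] [DecidableEq α]

private theorem KL_pow (φ : Perm α) (p : α → Prop) [DecidablePred p] (γ : Perm {x // p x})
    (x : {x // p x}) (i : ℕ) (hi : i < RL_d φ p x) :
    ((Perm.ofSubtype γ * φ) ^ i) (x : α) = (φ ^ i) (x : α) := by
  induction i with
  | zero => simp
  | succ i ih =>
    have h2 := ih (by omega)
    rw [pow_succ', Perm.mul_apply, h2, pow_succ', Perm.mul_apply, Perm.mul_apply]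
    have h3 := RL_d_min φ p x (i + 1) (Nat.succ_pos i) hi
    rw [pow_succ', Perm.mul_apply] at h3
    exact Perm.ofSubtype_apply_of_not_mem γ h3

private theorem KL_notp (φ : Perm α) (p : α → Prop) [DecidablePred p] (γ : Perm {x // p x})
    (x : {x // p x}) (i : ℕ) (h0 : 0 < i) (hi : i < RL_d φ p x) :
    ¬ p (((Perm.ofSubtype γ * φ) ^ i) (x : α)) := by
  rw [KL_pow φ p γ x i hi]
  exact RL_d_min φ p x i h0 hi

private theorem KL_ret (φ : Perm α) (p : α → Prop) [DecidablePred p] (γ : Perm {x // p x})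
    (x : {x // p x}) :
    ((Perm.ofSubtype γ * φ) ^ (RL_d φ p x)) (x : α) = ((γ * RL_R φ p) x : {x // p x}) := by
  obtain ⟨d, hd⟩ := Nat.exists_eq_succ_of_ne_zero (RL_d_pos φ p x).ne'
  have h5 : RL_d φ p x = d + 1 := hd
  have h4 : ((Perm.ofSubtype γ * φ) ^ (d + 1)) (x : α) =
      Perm.ofSubtype γ ((φ ^ (d + 1)) (x : α)) := by
    rw [pow_succ', Perm.mul_apply, KL_pow φ p γ x d (by omega), Perm.mul_apply, pow_succ',
      Perm.mul_apply]
  have h6 := RL_d_mem φ p x
  rw [h5] at h6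
  rw [h5, h4, Perm.ofSubtype_apply_of_mem γ h6, Perm.mul_apply]
  congr 2
  apply Subtype.ext
  show (φ ^ (d + 1)) (x : α) = (φ ^ (RL_d φ p x)) (x : α)
  rw [h5]

/-- partial sums of the return times -/
private noncomputable def KL_S (φ : Perm α) (p : α → Prop) [DecidablePred p]
    (γ : Perm {x // p x}) (x : {x // p x}) (j : ℕ) : ℕ :=
  ∑ i ∈ Finset.range j, RL_d φ p (((γ * RL_R φ p) ^ i) x)

private theorem KL_S_succ (φ : Perm α) (p : α → Prop) [DecidablePred p]
    (γ : Perm {x // p x}) (x : {x // p x}) (j : ℕ) :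
    KL_S φ p γ x (j + 1) = KL_S φ p γ x j + RL_d φ p (((γ * RL_R φ p) ^ j) x) :=
  Finset.sum_range_succ _ _

private theorem KL_S_pow (φ : Perm α) (p : α → Prop) [DecidablePred p]
    (γ : Perm {x // p x}) (x : {x // p x}) (j : ℕ) :
    ((Perm.ofSubtype γ * φ) ^ (KL_S φ p γ x j)) (x : α) =
      (((γ * RL_R φ p) ^ j) x : {x // p x}) := by
  induction j with
  | zero => simp [KL_S]
  | succ j ih =>
    rw [KL_S_succ, add_comm, pow_add, Perm.mul_apply, ih, KL_ret, pow_succ' (γ * RL_R φ p),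
      Perm.mul_apply (γ * RL_R φ p)]

private theorem KL_decomp (φ : Perm α) (p : α → Prop) [DecidablePred p]
    (γ : Perm {x // p x}) (x : {x // p x}) (n : ℕ) :
    ∃ j i, n = KL_S φ p γ x j + i ∧ i < RL_d φ p (((γ * RL_R φ p) ^ j) x) := by
  induction n with
  | zero => exact ⟨0, 0, by simp [KL_S], RL_d_pos _ _ _⟩
  | succ n ih =>
    obtain ⟨j, i, h1, h2⟩ := ih
    by_cases h : i + 1 < RL_d φ p (((γ * RL_R φ p) ^ j) x)
    · exact ⟨j, i + 1, by omega, h⟩
    · exact ⟨j + 1, 0, by rw [KL_S_succ]; omega, RL_d_pos _ _ _⟩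

theorem kac_len (φ : Perm α) (p : α → Prop) [DecidablePred p] (γ : Perm {x // p x})
    (x : {x // p x}) :
    len (Perm.ofSubtype γ * φ) (x : α) = ∑ i ∈ Finset.range (len (γ * RL_R φ p) x),
      RL_d φ p (((γ * RL_R φ p) ^ i) x) := by
  show _ = KL_S φ p γ x (len (γ * RL_R φ p) x)
  have hL : ((γ * RL_R φ p) ^ (len (γ * RL_R φ p) x)) x = x := (KL_per _ x _).2 dvd_rfl
  have h1 : len (Perm.ofSubtype γ * φ) (x : α) ∣ KL_S φ p γ x (len (γ * RL_R φ p) x) := by
    rw [← KL_per, KL_S_pow, hL]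
  have hpos := KL_pos (Perm.ofSubtype γ * φ) (x : α)
  have hLpos := KL_pos (γ * RL_R φ p) x
  have hSmono : ∀ a b, a ≤ b → KL_S φ p γ x a ≤ KL_S φ p γ x b := fun a b hab =>
    Finset.sum_le_sum_of_subset (Finset.range_mono hab)
  have hSpos : 0 < KL_S φ p γ x (len (γ * RL_R φ p) x) := by
    have h2 := hSmono 1 _ hLpos
    have h3 : 0 < KL_S φ p γ x 1 := by
      rw [KL_S_succ]
      have := RL_d_pos φ p (((γ * RL_R φ p) ^ 0) x)
      omega
    omega
  apply le_antisymm (Nat.le_of_dvd hSpos h1)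
  obtain ⟨j, i, hm, hi⟩ := KL_decomp φ p γ x (len (Perm.ofSubtype γ * φ) (x : α))
  have hx : ((Perm.ofSubtype γ * φ) ^ (len (Perm.ofSubtype γ * φ) (x : α))) (x : α) = x :=
    (KL_per _ _ _).2 dvd_rfl
  have hx2 : ((Perm.ofSubtype γ * φ) ^ i) ((((γ * RL_R φ p) ^ j) x : {x // p x}) : α) = x := by
    rw [← KL_S_pow, ← Perm.mul_apply, ← pow_add, add_comm, ← hm]
    exact hx
  have hi0 : i = 0 := by
    by_contra h0
    refine KL_notp φ p γ (((γ * RL_R φ p) ^ j) x) i (Nat.pos_of_ne_zero h0) hi ?_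
    rw [hx2]
    exact x.2
  rw [hi0, pow_zero, Perm.one_apply] at hx2
  have hj : ((γ * RL_R φ p) ^ j) x = x := Subtype.ext hx2
  have hdj := (KL_per _ x j).1 hj
  have hj0 : 0 < j := by
    rcases Nat.eq_zero_or_pos j with h | h
    · exfalso
      rw [h, hi0] at hm
      simp [KL_S] at hm
      omega
    · exact h
  have := hSmono _ _ (Nat.le_of_dvd hj0 hdj)
  omega

private theorem KL_avg {β : Type*} [Fintype β] (s : Perm β) (g : β → ℝ) :
    ∑ t, (∑ i ∈ Finset.range (len s t), g ((s ^ i) t)) / (len s t : ℝ) = ∑ t, g t := by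
  classical
  obtain ⟨N, hN⟩ : ∃ N, ∀ t, len s t ≤ N := by
    refine ⟨∑ t, len s t, fun t => ?_⟩
    exact Finset.single_le_sum (f := fun t => len s t) (fun _ _ => Nat.zero_le _)
      (Finset.mem_univ t)
  have h1 : ∀ (f : β → ℝ) (t : β), ∑ i ∈ Finset.range (len s t), f ((s ^ i) t) =
      ∑ i ∈ Finset.range N, if i < len s t then f ((s ^ i) t) else 0 := by
    intro f t
    rw [← Finset.sum_filter]
    congr 1
    ext i
    simp only [Finset.mem_range, Finset.mem_filter]
    have := hN t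
    omega
  calc ∑ t, (∑ i ∈ Finset.range (len s t), g ((s ^ i) t)) / (len s t : ℝ)
      = ∑ t, ∑ i ∈ Finset.range N, if i < len s t then g ((s ^ i) t) / (len s t : ℝ) else 0 := by
        refine Finset.sum_congr rfl fun t _ => ?_
        rw [h1, Finset.sum_div]
        refine Finset.sum_congr rfl fun i _ => ?_
        split_ifs <;> simp
    _ = ∑ i ∈ Finset.range N, ∑ t, if i < len s t then g ((s ^ i) t) / (len s t : ℝ) else 0 :=
        Finset.sum_comm
    _ = ∑ i ∈ Finset.range N, ∑ t, if i < len s t then g t / (len s t : ℝ) else 0 := by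
        refine Finset.sum_congr rfl fun i _ => ?_
        rw [← Equiv.sum_comp (s ^ i) (fun t => if i < len s t then g t / (len s t : ℝ) else 0)]
        refine Finset.sum_congr rfl fun t _ => ?_
        rw [KL_len_pow]
    _ = ∑ t, ∑ i ∈ Finset.range N, if i < len s t then g t / (len s t : ℝ) else 0 :=
        Finset.sum_comm
    _ = ∑ t, g t := by
        refine Finset.sum_congr rfl fun t _ => ?_
        rw [← Finset.sum_filter, Finset.sum_const]
        have h2 : (Finset.range N).filter (fun i => i < len s t) = Finset.range (len s t) := by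
          ext i
          simp only [Finset.mem_range, Finset.mem_filter]
          have := hN t
          omega
        rw [h2, Finset.card_range, nsmul_eq_mul]
        have h3 : (len s t : ℝ) ≠ 0 := by exact_mod_cast (KL_pos s t).ne'
        field_simp

open Classical in
theorem kac_sum (φ : Perm α) (p : α → Prop) [DecidablePred p] (γ : Perm {x // p x}) (q : ℕ) :
    ∑ y : α, (if (∃ t, p t ∧ SameCycle (Perm.ofSubtype γ * φ) t y) ∧
        q ∣ len (Perm.ofSubtype γ * φ) y then (1 : ℝ) / (len (Perm.ofSubtype γ * φ) y : ℝ) else 0) =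
      ∑ t : {x // p x}, (if q ∣ len (Perm.ofSubtype γ * φ) (t : α) then
        (1 : ℝ) / (len (γ * RL_R φ p) t : ℝ) else 0) := by
  obtain ⟨σ, hσ⟩ : ∃ σ, σ = Perm.ofSubtype γ * φ := ⟨_, rfl⟩
  obtain ⟨R, hR⟩ : ∃ R, R = γ * RL_R φ p := ⟨_, rfl⟩
  obtain ⟨h, hh⟩ : ∃ h : α → ℝ, h = fun y => if q ∣ len σ y then (1 : ℝ) / (len σ y : ℝ) else 0 :=
    ⟨_, rfl⟩
  have hkl : ∀ t : {x // p x}, len σ (t : α) = ∑ i ∈ Finset.range (len R t),
      RL_d φ p ((R ^ i) t) := by
    intro t
    rw [hσ, hR]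
    exact kac_len φ p γ t
  have hnp : ∀ (t : {x // p x}) (i : ℕ), 0 < i → i < RL_d φ p t → ¬ p ((σ ^ i) (t : α)) := by
    intro t i h0 hi
    rw [hσ]
    exact KL_notp φ p γ t i h0 hi
  rw [← hσ, ← hR]
  -- the left side as a sum over segments
  have hL : ∑ y : α, (if (∃ t, p t ∧ SameCycle σ t y) ∧ q ∣ len σ y then
      (1 : ℝ) / (len σ y : ℝ) else 0) =
      ∑ t : {x // p x}, ∑ i ∈ Finset.range (RL_d φ p t), h ((σ ^ i) (t : α)) := by
    rw [Finset.sum_sigma']
    have h1 : ∑ y : α, (if (∃ t, p t ∧ SameCycle σ t y) ∧ q ∣ len σ y then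
        (1 : ℝ) / (len σ y : ℝ) else 0) =
        ∑ y ∈ Finset.univ.filter (fun y => ∃ t, p t ∧ SameCycle σ t y), h y := by
      rw [Finset.sum_filter]
      refine Finset.sum_congr rfl fun y _ => ?_
      rw [hh]
      by_cases h2 : ∃ t, p t ∧ SameCycle σ t y
      · by_cases h3 : q ∣ len σ y
        · rw [if_pos ⟨h2, h3⟩, if_pos h2]
          simp only [if_pos h3]
        · rw [if_neg (fun h4 => h3 h4.2), if_pos h2]
          simp only [if_neg h3]
      · rw [if_neg (fun h4 => h2 h4.1), if_neg h2]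
    rw [h1]
    symm
    refine Finset.sum_bij (fun x _ => (σ ^ x.2) (x.1 : α)) ?_ ?_ ?_ ?_
    · rintro ⟨t, i⟩ _
      rw [Finset.mem_filter]
      exact ⟨Finset.mem_univ _, (t : α), t.2, (i : ℤ), by simp⟩
    · have key : ∀ (t t' : {x // p x}) (i j : ℕ), i < RL_d φ p t → j < RL_d φ p t' → i ≤ j →
          (σ ^ i) (t : α) = (σ ^ j) (t' : α) → t = t' ∧ i = j := by
        intro t t' i j hi hj hij heq
        obtain ⟨e, rfl⟩ := Nat.exists_eq_add_of_le hij
        rw [pow_add, Perm.mul_apply] at heq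
        have h2 := (σ ^ i).injective heq
        have he : e = 0 := by
          by_contra h0
          refine hnp t' e (Nat.pos_of_ne_zero h0) (by omega) ?_
          rw [← h2]
          exact t.2
        subst he
        exact ⟨Subtype.ext (by simpa using h2), rfl⟩
      rintro ⟨t, i⟩ hi ⟨t', j⟩ hj heq
      rw [Finset.mem_sigma, Finset.mem_range] at hi hj
      rcases le_total i j with hij | hij
      · obtain ⟨rfl, rfl⟩ := key t t' i j hi.2 hj.2 hij heq
        rfl
      · obtain ⟨rfl, rfl⟩ := key t' t j i hj.2 hi.2 hij heq.symm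
        rfl
    · intro y hy
      rw [Finset.mem_filter] at hy
      obtain ⟨-, t, ht, hty⟩ := hy
      obtain ⟨n, -, hn⟩ := hty.exists_pow_eq'
      obtain ⟨j, i, h1, h2⟩ := KL_decomp φ p γ ⟨t, ht⟩ n
      refine ⟨⟨((γ * RL_R φ p) ^ j) ⟨t, ht⟩, i⟩, ?_, ?_⟩
      · rw [Finset.mem_sigma, Finset.mem_range]
        exact ⟨Finset.mem_univ _, h2⟩
      · show (σ ^ i) ((((γ * RL_R φ p) ^ j) ⟨t, ht⟩ : {x // p x}) : α) = y
        rw [← KL_S_pow, ← hσ, ← Perm.mul_apply, ← pow_add, add_comm, ← h1]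
        exact hn
    · intro x _
      rfl
  rw [hL]
  -- constant along cycles
  have hc : ∀ (t : α) (i : ℕ), h ((σ ^ i) t) = h t := by
    intro t i
    rw [hh]
    simp only [KL_len_pow]
  have hstep : ∀ (t : {x // p x}) (i : ℕ), h ((((R ^ i) t : {x // p x})) : α) = h (t : α) := by
    intro t i
    have h1 := KL_S_pow φ p γ t i
    rw [← hσ, ← hR] at h1
    rw [← h1, hc]
  have h2 : ∀ t : {x // p x}, ∑ i ∈ Finset.range (RL_d φ p t), h ((σ ^ i) (t : α)) =
      (RL_d φ p t : ℝ) * h (t : α) := by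
    intro t
    rw [Finset.sum_congr rfl fun i _ => hc (t : α) i, Finset.sum_const, Finset.card_range,
      nsmul_eq_mul]
  rw [Finset.sum_congr rfl fun t _ => h2 t, ← KL_avg R (fun t => (RL_d φ p t : ℝ) * h (t : α))]
  refine Finset.sum_congr rfl fun t _ => ?_
  have h3 : ∑ i ∈ Finset.range (len R t), (RL_d φ p ((R ^ i) t) : ℝ) * h (((R ^ i) t : {x // p x}) : α) =
      (len σ (t : α) : ℝ) * h (t : α) := by
    rw [Finset.sum_congr rfl fun i _ => by rw [hstep t i], ← Finset.sum_mul, hkl t]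
    push_cast
    rfl
  rw [h3, hh]
  simp only
  have h4 : (len σ (t : α) : ℝ) ≠ 0 := by exact_mod_cast (KL_pos σ (t : α)).ne'
  split_ifs
  · rw [mul_one_div, div_self h4]
  · rw [mul_zero, zero_div]

end RNK40
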