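import Pool.Agent.Lib_helper40.RNK.Defs

set_option autoImplicit false

/-! RNK, block KM: the cycles inside the cycle of `x`. -/

namespace RNK40

open Equiv Equiv.Perm RND40 GF40

section perm

variable {α : Type*} [Fintype α] [DecidableEq α]

omit [DecidableEq α] in
private theorem KM_mono {P Q : Perm α → Prop} (h : ∀ s, P s → Q s) :
    Nat.card {s : Perm α // P s} ≤ Nat.card {s : Perm α // Q s} := by
  classical
  exact Nat.card_le_card_of_injective (Subtype.impEmbedding P Q h) (Subtype.impEmbedding P Q h).injective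

omit [DecidableEq α] in
private theorem KM_union {ι : Type*} [Fintype ι] {P : Perm α → Prop} (Q : ι → Perm α → Prop)
    (h : ∀ s, P s → ∃ i, Q i s) :
    Nat.card {s : Perm α // P s} ≤ ∑ i, Nat.card {s : Perm α // Q i s} := by
  classical
  rw [← Nat.card_sigma]
  refine Nat.card_le_card_of_injective
    (fun s : {s : Perm α // P s} => (⟨(h s.1 s.2).choose, ⟨s.1, (h s.1 s.2).choose_spec⟩⟩ :
      (i : ι) × {s : Perm α // Q i s})) ?_
  intro s t hst
  have h1 := congrArg (fun z : (i : ι) × {s : Perm α // Q i s} => z.2.1) hst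
  exact Subtype.ext h1

private theorem KM_gen (x : α) (l : ℕ) {J : Type*} [Fintype J] (j : J → Fin l)
    (hj : Function.Injective j) (b : J → α) :
    Nat.card {s : Perm α // len s x = l ∧ ∀ k, (s ^ (j k : ℕ)) x = b k} ≤
      (Fintype.card α - Fintype.card J).factorial := by
  refine RA_gen (α := α) (I := Fin l) (J := J)
    (fun s => len s x = l ∧ ∀ k, (s ^ (j k : ℕ)) x = b k)
    (fun s i => (s ^ (i : ℕ)) x) j b ?_ hj (fun s hs k => hs.2 k) ?_
  · intro s hs i k hik
    refine Fin.ext (RA_pow_inj s x ?_ ?_ hik)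
    · rw [hs.1]; exact i.2
    · rw [hs.1]; exact k.2
  · intro s t hs ht hP i
    exact RA_agree s t x l hs.1 ht.1 (fun i hi => congrFun hP ⟨i, hi⟩) i i.2

omit [DecidableEq α] in
private theorem KM_same {s : Perm α} {x y : α} {l : ℕ} (h1 : 1 ≤ l) (hl : len s x = l)
    (h : SameCycle s x y) : ∃ i : Fin l, (s ^ (i : ℕ)) x = y := by
  obtain ⟨i, hi⟩ := h.exists_nat_pow_eq
  refine ⟨⟨i % l, Nat.mod_lt _ h1⟩, ?_⟩
  have h2 := Function.iterate_mod_minimalPeriod_eq (f := s) (x := x) (n := i)
  have h3 : Function.minimalPeriod s x = l := hl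
  rw [h3, Equiv.Perm.iterate_eq_pow, Equiv.Perm.iterate_eq_pow] at h2
  show (s ^ (i % l)) x = y
  rw [h2, hi]

private theorem KM_pair (a : Perm α) (x : α) (l : ℕ) (h1 : 1 ≤ l) (h2 : l + 1 ≤ Fintype.card α)
    (i j : Fin l) (hij : i ≠ j) :
    Nat.card {δ : Perm α // len δ x = l ∧ a ((δ ^ (i : ℕ)) x) = (δ ^ (j : ℕ)) x} *
      (Fintype.card α - l) ≤ (Fintype.card α - 1).factorial := by
  have hl2 : 2 ≤ l := by
    rcases i with ⟨i, hi⟩
    rcases j with ⟨j, hj⟩
    have : i ≠ j := fun h => hij (Fin.ext h)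
    omega
  have hA : ∀ m : ℕ, m ≤ (Fintype.card α - 2).factorial →
      m * (Fintype.card α - l) ≤ (Fintype.card α - 1).factorial := by
    intro m hm
    have e1 : (Fintype.card α - 1).factorial =
        (Fintype.card α - 1) * (Fintype.card α - 2).factorial := by
      have : Fintype.card α - 1 = (Fintype.card α - 2) + 1 := by omega
      rw [this, Nat.factorial_succ]
    rw [e1, mul_comm]
    exact Nat.mul_le_mul (by omega) hm
  by_cases hi0 : (i : ℕ) = 0
  · apply hA
    have hinj : Function.Injective (fun b : Bool => if b then j else i) := by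
      intro b c hbc
      cases b <;> cases c <;> simp at hbc ⊢
      · exact hij hbc
      · exact hij hbc.symm
    have h3 := KM_gen x l (fun b : Bool => if b then j else i) hinj
      (fun b : Bool => if b then a x else x)
    rw [Fintype.card_bool] at h3
    refine (KM_mono ?_).trans h3
    rintro s ⟨hs1, hs2⟩
    refine ⟨hs1, fun b => ?_⟩
    rw [hi0, pow_zero, Perm.one_apply] at hs2
    cases b
    · simp only [Bool.false_eq_true, if_false]
      rw [hi0, pow_zero, Perm.one_apply]
    · simp only [if_true]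
      exact hs2.symm
  by_cases hj0 : (j : ℕ) = 0
  · apply hA
    have hinj : Function.Injective (fun b : Bool => if b then i else j) := by
      intro b c hbc
      cases b <;> cases c <;> simp at hbc ⊢
      · exact hij hbc.symm
      · exact hij hbc
    have h3 := KM_gen x l (fun b : Bool => if b then i else j) hinj
      (fun b : Bool => if b then a⁻¹ x else x)
    rw [Fintype.card_bool] at h3
    refine (KM_mono ?_).trans h3
    rintro s ⟨hs1, hs2⟩
    refine ⟨hs1, fun b => ?_⟩
    rw [hj0, pow_zero, Perm.one_apply] at hs2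
    cases b
    · simp only [Bool.false_eq_true, if_false]
      rw [hj0, pow_zero, Perm.one_apply]
    · simp only [if_true]
      rw [Perm.eq_inv_iff_eq]
      exact hs2
  -- three different positions
  have hl3 : 3 ≤ l := by
    rcases i with ⟨i, hi⟩
    rcases j with ⟨j, hj⟩
    have : i ≠ j := fun h => hij (Fin.ext h)
    simp only at hi0 hj0
    omega
  have hu : Nat.card {δ : Perm α // len δ x = l ∧ a ((δ ^ (i : ℕ)) x) = (δ ^ (j : ℕ)) x} ≤
      ∑ z : {z : α // z ≠ x}, (Fintype.card α - 3).factorial := by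
    refine (KM_union (fun (z : {z : α // z ≠ x}) (s : Perm α) => len s x = l ∧
      (s ^ (i : ℕ)) x = z.1 ∧ (s ^ (j : ℕ)) x = a z.1) ?_).trans
      (Finset.sum_le_sum fun z _ => ?_)
    · rintro s ⟨hs1, hs2⟩
      refine ⟨⟨(s ^ (i : ℕ)) x, ?_⟩, hs1, rfl, hs2.symm⟩
      intro h
      apply hi0
      have h4 : (s ^ (i : ℕ)) x = (s ^ 0) x := by rw [h, pow_zero, Perm.one_apply]
      refine RA_pow_inj s x ?_ ?_ h4
      · rw [hs1]; exact i.2
      · rw [hs1]; omega
    · have hinj : Function.Injective (fun b : Fin 3 =>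
          if b = 0 then (⟨0, by omega⟩ : Fin l) else if b = 1 then i else j) := by
        intro b c hbc
        fin_cases b <;> fin_cases c <;> simp [Fin.ext_iff] at hbc ⊢
        · exact hi0 hbc.symm
        · exact hj0 hbc.symm
        · exact hi0 hbc
        · exact hij (Fin.ext hbc)
        · exact hj0 hbc
        · exact hij (Fin.ext hbc.symm)
      have h3 := KM_gen x l (fun b : Fin 3 =>
          if b = 0 then (⟨0, by omega⟩ : Fin l) else if b = 1 then i else j) hinj
          (fun b : Fin 3 => if b = 0 then x else if b = 1 then z.1 else a z.1)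
      rw [Fintype.card_fin] at h3
      refine (KM_mono ?_).trans h3
      rintro s ⟨hs1, hs2, hs3⟩
      refine ⟨hs1, fun b => ?_⟩
      fin_cases b
      · simp
      · simpa using hs2
      · simpa using hs3
  rw [Finset.sum_const, Finset.card_univ, smul_eq_mul] at hu
  have hc : Fintype.card {z : α // z ≠ x} = Fintype.card α - 1 := by
    rw [Fintype.card_subtype_compl, Fintype.card_subtype_eq]
  rw [hc] at hu
  have e1 : (Fintype.card α - 1).factorial =
      (Fintype.card α - 1) * ((Fintype.card α - 2) * (Fintype.card α - 3).factorial) := by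
    have e2 : Fintype.card α - 1 = (Fintype.card α - 2) + 1 := by omega
    have e3 : Fintype.card α - 2 = (Fintype.card α - 3) + 1 := by omega
    rw [e2, Nat.factorial_succ]
    congr 1
    rw [e3, Nat.factorial_succ]
  rw [e1]
  calc _ ≤ ((Fintype.card α - 1) * (Fintype.card α - 3).factorial) * (Fintype.card α - 2) :=
        Nat.mul_le_mul hu (by omega)
    _ = _ := by ring

/-- few `δ` have a pair `y ≠ a y` inside the cycle of `x` -/
theorem card_pair_inside (a : Perm α) (x : α) (l : ℕ) (h1 : 1 ≤ l)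
    (h2 : l + 1 ≤ Fintype.card α) :
    (Nat.card {δ : Perm α // len δ x = l ∧ ∃ y, SameCycle δ x y ∧ SameCycle δ x (a y) ∧
      a y ≠ y} : ℝ) ≤
      ((Fintype.card α - 1).factorial : ℝ) * ((l : ℝ) ^ 2 / ((Fintype.card α : ℝ) - (l : ℝ))) := by
  have hu := KM_union (α := α) (ι := {p : Fin l × Fin l // p.1 ≠ p.2})
    (P := fun δ => len δ x = l ∧ ∃ y, SameCycle δ x y ∧ SameCycle δ x (a y) ∧ a y ≠ y)
    (fun p δ => len δ x = l ∧ a ((δ ^ (p.1.1 : ℕ)) x) = (δ ^ (p.1.2 : ℕ)) x) (by
      rintro s ⟨hs1, y, hy1, hy2, hy3⟩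
      obtain ⟨i, hi⟩ := KM_same h1 hs1 hy1
      obtain ⟨j, hj⟩ := KM_same h1 hs1 hy2
      refine ⟨⟨(i, j), ?_⟩, hs1, ?_⟩
      · intro h
        apply hy3
        have h' : i = j := h
        rw [← hj, ← h', hi]
      · show a ((s ^ (i : ℕ)) x) = (s ^ (j : ℕ)) x
        rw [hi, hj])
  have hnl : (0 : ℝ) < (Fintype.card α : ℝ) - l := by
    have : (l : ℝ) + 1 ≤ Fintype.card α := by exact_mod_cast h2
    linarith
  have hp : ∀ p : {p : Fin l × Fin l // p.1 ≠ p.2},
      (Nat.card {δ : Perm α // len δ x = l ∧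
        a ((δ ^ (p.1.1 : ℕ)) x) = (δ ^ (p.1.2 : ℕ)) x} : ℝ) ≤
      ((Fintype.card α - 1).factorial : ℝ) / ((Fintype.card α : ℝ) - l) := by
    intro p
    rw [le_div_iff₀ hnl]
    have h3 := KM_pair a x l h1 h2 p.1.1 p.1.2 p.2
    have h4 : ((Fintype.card α - l : ℕ) : ℝ) = (Fintype.card α : ℝ) - l := by
      rw [Nat.cast_sub (by omega)]
    rw [← h4]
    exact_mod_cast h3
  have hcard : (Fintype.card {p : Fin l × Fin l // p.1 ≠ p.2} : ℝ) ≤ (l : ℝ) ^ 2 := by
    have h5 : Fintype.card {p : Fin l × Fin l // p.1 ≠ p.2} ≤ l ^ 2 := by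
      refine (Fintype.card_subtype_le _).trans ?_
      rw [Fintype.card_prod, Fintype.card_fin, sq]
    exact_mod_cast h5
  calc _ ≤ ((∑ p : {p : Fin l × Fin l // p.1 ≠ p.2}, Nat.card {δ : Perm α // len δ x = l ∧
        a ((δ ^ (p.1.1 : ℕ)) x) = (δ ^ (p.1.2 : ℕ)) x} : ℕ) : ℝ) := by exact_mod_cast hu
    _ = ∑ p : {p : Fin l × Fin l // p.1 ≠ p.2}, (Nat.card {δ : Perm α // len δ x = l ∧
        a ((δ ^ (p.1.1 : ℕ)) x) = (δ ^ (p.1.2 : ℕ)) x} : ℝ) := by push_cast; rfl
    _ ≤ ∑ p : {p : Fin l × Fin l // p.1 ≠ p.2},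
        ((Fintype.card α - 1).factorial : ℝ) / ((Fintype.card α : ℝ) - l) :=
        Finset.sum_le_sum fun p _ => hp p
    _ = (Fintype.card {p : Fin l × Fin l // p.1 ≠ p.2} : ℝ) *
        (((Fintype.card α - 1).factorial : ℝ) / ((Fintype.card α : ℝ) - l)) := by
        rw [Finset.sum_const, Finset.card_univ, nsmul_eq_mul]
    _ ≤ (l : ℝ) ^ 2 * (((Fintype.card α - 1).factorial : ℝ) / ((Fintype.card α : ℝ) - l)) := by
        gcongr
    _ = _ := by ring

private theorem KM_desc (f n : ℕ) (ε : ℝ) (hε : 0 ≤ ε) (hε1 : ε ≤ 1)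
    (h : (f : ℝ) ≤ (1 - ε) * n) (m : ℕ) :
    ((f - 1).descFactorial m : ℝ) ≤ (1 - ε) ^ m * ((n - 1).descFactorial m : ℝ) := by
  have h0 : 0 ≤ 1 - ε := by linarith
  induction m with
  | zero => simp
  | succ m ih =>
    rw [Nat.descFactorial_succ, Nat.descFactorial_succ, Nat.cast_mul, Nat.cast_mul]
    have h3 : ((f - 1 - m : ℕ) : ℝ) ≤ (1 - ε) * ((n - 1 - m : ℕ) : ℝ) := by
      by_cases hf : f ≤ 1 + m
      · have : f - 1 - m = 0 := by omega
        rw [this, Nat.cast_zero]
        positivity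
      · have hfn : (f : ℝ) ≤ n := by
          refine h.trans ?_
          have : (0 : ℝ) ≤ n := by positivity
          nlinarith
        have hfn' : f ≤ n := by exact_mod_cast hfn
        have e1 : ((f - 1 - m : ℕ) : ℝ) = (f : ℝ) - 1 - m := by
          rw [Nat.cast_sub (by omega), Nat.cast_sub (by omega), Nat.cast_one]
        have e2 : ((n - 1 - m : ℕ) : ℝ) = (n : ℝ) - 1 - m := by
          rw [Nat.cast_sub (by omega), Nat.cast_sub (by omega), Nat.cast_one]
        rw [e1, e2]
        have : (0 : ℝ) ≤ m := by positivity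
        nlinarith
    calc ((f - 1 - m : ℕ) : ℝ) * ((f - 1).descFactorial m : ℝ)
        ≤ ((1 - ε) * ((n - 1 - m : ℕ) : ℝ)) * ((1 - ε) ^ m * ((n - 1).descFactorial m : ℝ)) := by
          apply mul_le_mul h3 ih (by positivity) (by positivity)
      _ = _ := by ring

/-- few `δ` have a cycle of length `l` fixed pointwise by `a` -/
theorem card_fixed_inside (a : Perm α) (x : α) (l : ℕ) (h1 : 1 ≤ l)
    (h2 : l + 1 ≤ Fintype.card α) (ε : ℝ) (hε : 0 ≤ ε) (hε1 : ε ≤ 1)
    (ha : ε * (Fintype.card α : ℝ) ≤ (a.support.card : ℝ)) :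
    (Nat.card {δ : Perm α // len δ x = l ∧ ∀ y, SameCycle δ x y → a y = y} : ℝ) ≤
      ((Fintype.card α - 1).factorial : ℝ) * (1 - ε) ^ (l - 1) := by
  have h0 : 0 ≤ 1 - ε := by linarith
  by_cases hax : a x = x
  swap
  · have : IsEmpty {δ : Perm α // len δ x = l ∧ ∀ y, SameCycle δ x y → a y = y} :=
      ⟨fun s => hax (s.2.2 x (SameCycle.refl _ _))⟩
    rw [Nat.card_of_isEmpty, Nat.cast_zero]
    positivity
  have hT : Fintype.card {z : α // z ≠ x ∧ a z = z} =
      (Fintype.card α - a.support.card) - 1 := by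
    rw [Fintype.card_subtype]
    have e1 : Finset.univ.filter (fun z : α => z ≠ x ∧ a z = z) = (a.support)ᶜ.erase x := by
      ext z
      simp
    rw [e1, Finset.card_erase_of_mem (by simpa using hax), Finset.card_compl]
  let F : {δ : Perm α // len δ x = l ∧ ∀ y, SameCycle δ x y → a y = y} →
      (Fin (l - 1) ↪ {z : α // z ≠ x ∧ a z = z}) := fun s =>
    ⟨fun i => ⟨(s.1 ^ ((i : ℕ) + 1)) x, by
      intro h
      have h4 : (s.1 ^ ((i : ℕ) + 1)) x = (s.1 ^ 0) x := by rw [h, pow_zero, Perm.one_apply]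
      have h5 := RA_pow_inj s.1 x (by rw [s.2.1]; have := i.2; omega)
        (by rw [s.2.1]; omega) h4
      omega, s.2.2 _ ⟨((i : ℕ) + 1 : ℕ), by rw [zpow_natCast]⟩⟩, by
      intro i i' h
      have h3 : (s.1 ^ ((i : ℕ) + 1)) x = (s.1 ^ ((i' : ℕ) + 1)) x := congrArg Subtype.val h
      have h5 := RA_pow_inj s.1 x (by rw [s.2.1]; have := i.2; omega)
        (by rw [s.2.1]; have := i'.2; omega) h3
      exact Fin.ext (by omega)⟩
  have hfib : Nat.card {δ : Perm α // len δ x = l ∧ ∀ y, SameCycle δ x y → a y = y} ≤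
      ∑ e : (Fin (l - 1) ↪ {z : α // z ≠ x ∧ a z = z}), (Fintype.card α - l).factorial := by
    refine (KM_union (fun (e : Fin (l - 1) ↪ {z : α // z ≠ x ∧ a z = z}) (s : Perm α) =>
      len s x = l ∧ ∀ k : Fin l, (s ^ (k : ℕ)) x =
        if h : (k : ℕ) = 0 then x else (e ⟨(k : ℕ) - 1, by have := k.2; omega⟩).1) ?_).trans
      (Finset.sum_le_sum fun e _ => ?_)
    · intro s hs
      refine ⟨F ⟨s, hs⟩, hs.1, fun k => ?_⟩
      by_cases hk : (k : ℕ) = 0
      · rw [dif_pos hk, hk, pow_zero, Perm.one_apply]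
      · rw [dif_neg hk]
        show (s ^ (k : ℕ)) x = (s ^ ((k : ℕ) - 1 + 1)) x
        congr 2
        omega
    · have h3 := KM_gen x l (fun k : Fin l => k) (fun _ _ h => h) (fun k : Fin l =>
        if h : (k : ℕ) = 0 then x else (e ⟨(k : ℕ) - 1, by have := k.2; omega⟩).1)
      rw [Fintype.card_fin] at h3
      exact h3
  rw [Finset.sum_const, Finset.card_univ, smul_eq_mul, Fintype.card_embedding_eq, hT,
    Fintype.card_fin] at hfib
  have hsupp : a.support.card ≤ Fintype.card α := Finset.card_le_univ _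
  have hf : ((Fintype.card α - a.support.card : ℕ) : ℝ) ≤ (1 - ε) * Fintype.card α := by
    rw [Nat.cast_sub hsupp]
    linarith
  have hd := KM_desc (Fintype.card α - a.support.card) (Fintype.card α) ε hε hε1 hf (l - 1)
  have hfac := Nat.factorial_mul_descFactorial (show l - 1 ≤ Fintype.card α - 1 by omega)
  have e4 : Fintype.card α - 1 - (l - 1) = Fintype.card α - l := by omega
  rw [e4] at hfac
  calc (Nat.card {δ : Perm α // len δ x = l ∧ ∀ y, SameCycle δ x y → a y = y} : ℝ)
      ≤ (((Fintype.card α - a.support.card - 1).descFactorial (l - 1) *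
        (Fintype.card α - l).factorial : ℕ) : ℝ) := by exact_mod_cast hfib
    _ = ((Fintype.card α - a.support.card - 1).descFactorial (l - 1) : ℝ) *
        ((Fintype.card α - l).factorial : ℝ) := by push_cast; rfl
    _ ≤ ((1 - ε) ^ (l - 1) * ((Fintype.card α - 1).descFactorial (l - 1) : ℝ)) *
        ((Fintype.card α - l).factorial : ℝ) := by gcongr
    _ = (((Fintype.card α - l).factorial * (Fintype.card α - 1).descFactorial (l - 1) : ℕ) : ℝ) *
        (1 - ε) ^ (l - 1) := by push_cast; ring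
    _ = _ := by rw [hfac]

end perm

end RNK40
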