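import Pool.Agent.Lib_helper40.RNK.KK
import Pool.Agent.Lib_helper40.RNK.KL
import Pool.Agent.Lib_helper40.RNK.KM

set_option autoImplicit false

/-! Block KN: cycles of `δ a` divisible by `q`, given a cycle of length `l` of `δ`. -/

namespace RNK40

open Equiv Equiv.Perm RND40 GF40

section perm

variable {α : Type*} [Fintype α] [DecidableEq α]

omit [DecidableEq α] in
private theorem KN_card_sameCycle (s : Perm α) (x : α) :
    Nat.card {y // SameCycle s x y} = len s x := by
  classical
  unfold len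
  have h2 := MulAction.minimalPeriod_eq_card (a := s) (b := x)
  have h3 : Function.minimalPeriod s x =
      Fintype.card (MulAction.orbit (Subgroup.zpowers s) x) := h2
  rw [h3, ← Nat.card_eq_fintype_card]
  refine Nat.card_congr (Equiv.subtypeEquivRight fun y => ?_)
  constructor
  · rintro ⟨i, hi⟩
    exact ⟨⟨s ^ i, i, rfl⟩, hi⟩
  · rintro ⟨⟨g, i, rfl⟩, hg⟩
    exact ⟨i, hg⟩

omit [DecidableEq α] in
private theorem KN_len_pos (s : Perm α) (x : α) : 1 ≤ len s x := by
  rw [← KN_card_sameCycle]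
  have : Nonempty {y // SameCycle s x y} := ⟨⟨x, SameCycle.refl s x⟩⟩
  exact Nat.card_pos

omit [DecidableEq α] in
private theorem KN_len_eq (s : Perm α) {x y : α} (h : SameCycle s x y) : len s x = len s y := by
  rw [← KN_card_sameCycle, ← KN_card_sameCycle]
  exact Nat.card_congr (Equiv.subtypeEquivRight fun z =>
    ⟨fun hz => h.symm.trans hz, fun hz => h.trans hz⟩)

omit [Fintype α] [DecidableEq α] in
private theorem KN_agree {ψ δ : Perm α} {x : α} (h : ∀ y, SameCycle δ x y → ψ y = δ y) (i : ℕ) :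
    (ψ ^ i) x = (δ ^ i) x := by
  induction i with
  | zero => rfl
  | succ i ih =>
    rw [pow_succ', Perm.mul_apply, ih, pow_succ', Perm.mul_apply]
    exact h _ ⟨i, by rw [zpow_natCast]⟩

omit [DecidableEq α] in
private theorem KN_same {ψ δ : Perm α} {x : α} (h : ∀ y, SameCycle δ x y → ψ y = δ y) (t : α) :
    SameCycle ψ x t ↔ SameCycle δ x t := by
  classical
  constructor
  · intro ht
    obtain ⟨i, _, hi⟩ := ht.exists_pow_eq'
    rw [KN_agree h] at hi
    exact ⟨i, by rw [zpow_natCast, hi]⟩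
  · intro ht
    obtain ⟨i, _, hi⟩ := ht.exists_pow_eq'
    rw [← KN_agree h] at hi
    exact ⟨i, by rw [zpow_natCast, hi]⟩

omit [DecidableEq α] in
private theorem KN_len {ψ δ : Perm α} {x : α} (h : ∀ y, SameCycle δ x y → ψ y = δ y) :
    len ψ x = len δ x := by
  rw [← KN_card_sameCycle, ← KN_card_sameCycle]
  exact Nat.card_congr (Equiv.subtypeEquivRight fun z => KN_same h z)

/-- the part of `CC` of the cycles which meet `p` -/
private noncomputable def KNA (p : α → Prop) (q : ℕ) (s : Perm α) : ℝ :=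
  open Classical in
  ∑ y : α, (if (∃ t, p t ∧ SameCycle s t y) ∧ q ∣ len s y then (1 : ℝ) / (len s y : ℝ) else 0)

private theorem KN_avg (φ : Perm α) (p : α → Prop) [DecidablePred p] (q : ℕ) (hq : 1 ≤ q)
    (h : 1 ≤ Fintype.card {x // p x}) :
    ∑ γ : Perm {x // p x}, KNA p q (Perm.ofSubtype γ * φ) ≤
      ((Fintype.card {x // p x}).factorial : ℝ) *
        ((1 + Real.log (Fintype.card {x // p x} : ℝ)) *
        (1 / (q : ℝ) + (Nat.card {t : {x // p x} // RL_d φ p t ≠ 1} : ℝ) /
          (Fintype.card {x // p x} : ℝ))) := by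
  classical
  have h1 : ∀ γ : Perm {x // p x}, KNA p q (Perm.ofSubtype γ * φ) =
      (fun s : Perm {x // p x} => ∑ t, (if q ∣ ∑ i ∈ Finset.range (len s t),
        RL_d φ p ((s ^ i) t) then (1 : ℝ) / (len s t : ℝ) else 0)) (γ * RL_R φ p) := by
    intro γ
    have h2 := kac_sum φ p γ q
    unfold KNA
    refine Eq.trans ?_ (h2.trans ?_)
    · refine Finset.sum_congr rfl fun y _ => ?_
      congr
    · refine Finset.sum_congr rfl fun t _ => ?_
      rw [kac_len φ p γ t]
  rw [Finset.sum_congr rfl fun γ _ => h1 γ]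
  rw [Fintype.sum_equiv (Equiv.mulRight (RL_R φ p))
    (fun γ : Perm {x // p x} => (fun s : Perm {x // p x} => ∑ t,
      (if q ∣ ∑ i ∈ Finset.range (len s t), RL_d φ p ((s ^ i) t) then
        (1 : ℝ) / (len s t : ℝ) else 0)) (γ * RL_R φ p))
    (fun s : Perm {x // p x} => ∑ t, (if q ∣ ∑ i ∈ Finset.range (len s t),
        RL_d φ p ((s ^ i) t) then (1 : ℝ) / (len s t : ℝ) else 0)) fun γ => rfl]
  exact weight_count (RL_d φ p) (fun t => RL_d_pos φ p t) q hq h

open Classical in
/-- the average over the permutations of the complement of the cycle -/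
private theorem KN_fiber (a : Perm α) (x : α) (R : Finset α) (l q : ℕ) (hl : R.card = l)
    (h2 : l + 1 ≤ Fintype.card α) (hq : 1 ≤ q) :
    ∑ δ ∈ Finset.univ.filter (fun δ : Perm α => Finset.univ.filter (SameCycle δ x) = R),
      KNA (fun t => ¬ SameCycle δ x t) q (δ * a) ≤
    ((Finset.univ.filter (fun δ : Perm α =>
      Finset.univ.filter (SameCycle δ x) = R)).card : ℝ) *
      ((1 + Real.log (Fintype.card α : ℝ)) *
        (1 / (q : ℝ) + (l : ℝ) / ((Fintype.card α : ℝ) - (l : ℝ)))) := by
  set F := Finset.univ.filter (fun δ : Perm α => Finset.univ.filter (SameCycle δ x) = R) with hF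
  set p : α → Prop := fun t => t ∉ R with hp
  have hmem : ∀ δ : Perm α, δ ∈ F ↔ ∀ t, SameCycle δ x t ↔ t ∈ R := by
    intro δ
    simp only [hF, Finset.mem_filter, Finset.mem_univ, true_and, Finset.ext_iff]
  have hcard : Fintype.card {t // p t} = Fintype.card α - l := by
    rw [Fintype.card_subtype_compl, Fintype.card_coe, hl]
  have hcard1 : 1 ≤ Fintype.card {t // p t} := by omega
  have hcardR : (Fintype.card {t // p t} : ℝ) = (Fintype.card α : ℝ) - (l : ℝ) := by
    rw [hcard, Nat.cast_sub (by omega)]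
  have hinv : ∀ (γ : Perm {t // p t}) (δ : Perm α), δ ∈ F → Perm.ofSubtype γ * δ ∈ F := by
    intro γ δ hδ
    rw [hmem] at hδ ⊢
    intro t
    rw [← hδ t]
    apply KN_same
    intro y hy
    rw [Perm.mul_apply]
    apply Perm.ofSubtype_apply_of_not_mem
    simp only [hp, not_not]
    rw [← hδ]
    exact sameCycle_apply_right.2 hy
  have hfirst : ∑ δ ∈ F, KNA (fun t => ¬ SameCycle δ x t) q (δ * a) =
      ∑ δ ∈ F, KNA p q (δ * a) := by
    refine Finset.sum_congr rfl fun δ hδ => ?_
    rw [hmem] at hδ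
    congr 1
    funext t
    simp only [hp, hδ t]
  rw [hfirst]
  have hshift : ∀ γ : Perm {t // p t}, ∑ δ ∈ F, KNA p q (δ * a) =
      ∑ δ ∈ F, KNA p q (Perm.ofSubtype γ * (δ * a)) := by
    intro γ
    symm
    refine Finset.sum_bij' (fun δ _ => Perm.ofSubtype γ * δ) (fun δ _ => Perm.ofSubtype γ⁻¹ * δ)
      (fun δ hδ => hinv γ δ hδ) (fun δ hδ => hinv γ⁻¹ δ hδ) ?_ ?_ ?_
    · intro δ _
      rw [← mul_assoc, ← map_mul]
      simp
    · intro δ _
      rw [← mul_assoc, ← map_mul]
      simp
    · intro δ _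
      rw [mul_assoc]
  have hB : ∀ δ ∈ F, ∑ γ : Perm {t // p t}, KNA p q (Perm.ofSubtype γ * (δ * a)) ≤
      ((Fintype.card {t // p t}).factorial : ℝ) * ((1 + Real.log (Fintype.card α : ℝ)) *
        (1 / (q : ℝ) + (l : ℝ) / ((Fintype.card α : ℝ) - (l : ℝ)))) := by
    intro δ hδ
    rw [hmem] at hδ
    refine (KN_avg (δ * a) p q hq hcard1).trans ?_
    refine mul_le_mul_of_nonneg_left ?_ (by positivity)
    have hpos : (0 : ℝ) < (Fintype.card {t // p t} : ℝ) := by exact_mod_cast hcard1
    refine mul_le_mul ?_ ?_ (by positivity) ?_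
    · have hle : (Fintype.card {t // p t} : ℝ) ≤ (Fintype.card α : ℝ) := by
        rw [hcardR]
        have : (0 : ℝ) ≤ (l : ℝ) := Nat.cast_nonneg l
        linarith
      have := Real.log_le_log hpos hle
      linarith
    · rw [hcardR]
      rw [hcardR] at hpos
      have hc : (Nat.card {t : {x // p x} // RL_d (δ * a) p t ≠ 1} : ℝ) ≤ (l : ℝ) := by
        have h3 : Nat.card {t : {x // p x} // RL_d (δ * a) p t ≠ 1} ≤ Nat.card R := by
          refine Nat.card_le_card_of_injective
            (fun t => (⟨a (t.1 : α), ?_⟩ : R)) ?_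
          · by_contra hcon
            apply t.2
            have h4 : p ((δ * a) (t.1 : α)) := by
              simp only [hp, Perm.mul_apply]
              rw [← hδ]
              intro h5
              apply hcon
              rw [← hδ]
              exact sameCycle_apply_right.1 h5
            by_contra h6
            have h7 := RL_d_pos (δ * a) p t.1
            have h8 := RL_d_min (δ * a) p t.1 1 one_pos (by omega)
            rw [pow_one] at h8
            exact h8 h4
          · intro t t' h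
            simp only [Subtype.mk.injEq] at h
            exact Subtype.ext (Subtype.ext (a.injective h))
        have h4 : Nat.card R = l := by
          rw [Nat.card_eq_fintype_card, Fintype.card_coe, hl]
        rw [h4] at h3
        exact_mod_cast h3
      gcongr
    · have : 0 ≤ Real.log (Fintype.card α : ℝ) := Real.log_natCast_nonneg _
      linarith
  have hfac : (0 : ℝ) < ((Fintype.card {t // p t}).factorial : ℝ) := by
    exact_mod_cast Nat.factorial_pos _
  have h3 : ((Fintype.card {t // p t}).factorial : ℝ) * ∑ δ ∈ F, KNA p q (δ * a) ≤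
      ((Fintype.card {t // p t}).factorial : ℝ) * ((F.card : ℝ) *
        ((1 + Real.log (Fintype.card α : ℝ)) *
        (1 / (q : ℝ) + (l : ℝ) / ((Fintype.card α : ℝ) - (l : ℝ))))) := by
    have h4 : ((Fintype.card {t // p t}).factorial : ℝ) * ∑ δ ∈ F, KNA p q (δ * a) =
        ∑ δ ∈ F, ∑ γ : Perm {t // p t}, KNA p q (Perm.ofSubtype γ * (δ * a)) := by
      rw [Finset.sum_comm, ← Finset.sum_congr rfl (fun γ _ => hshift γ), Finset.sum_const,
        nsmul_eq_mul, Finset.card_univ, Fintype.card_perm]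
    rw [h4]
    refine (Finset.sum_le_sum hB).trans ?_
    rw [Finset.sum_const, nsmul_eq_mul]
    apply le_of_eq
    ring
  exact le_of_mul_le_mul_left h3 hfac

open Classical in
private theorem KN_inside (a δ : Perm α) (x : α) (l q : ℕ) (h1 : 1 ≤ l) (hl : len δ x = l) :
    ∑ y : α, (if (¬ ∃ t, ¬ SameCycle δ x t ∧ SameCycle (δ * a) t y) ∧ q ∣ len (δ * a) y then
      (1 : ℝ) / (len (δ * a) y : ℝ) else 0) ≤
      (l : ℝ) * (if ∃ y, SameCycle δ x y ∧ SameCycle δ x (a y) ∧ a y ≠ y then (1 : ℝ) else 0) +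
        (if ∀ y, SameCycle δ x y → a y = y then (1 : ℝ) else 0) := by
  set R := Finset.univ.filter (SameCycle δ x) with hR
  have hRc : R.card = l := by
    rw [← hl, ← KN_card_sameCycle, Nat.card_eq_fintype_card, Fintype.card_subtype]
  have hlpos : (0 : ℝ) < (l : ℝ) := by exact_mod_cast h1
  have hb : ∀ c : ℝ, 0 ≤ c → (∀ y ∈ R, (1 : ℝ) / (len (δ * a) y : ℝ) ≤ c) →
      ∑ y : α, (if (¬ ∃ t, ¬ SameCycle δ x t ∧ SameCycle (δ * a) t y) ∧ q ∣ len (δ * a) y then
      (1 : ℝ) / (len (δ * a) y : ℝ) else 0) ≤ (l : ℝ) * c := by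
    intro c hc h
    have h3 : ∀ y : α, (if (¬ ∃ t, ¬ SameCycle δ x t ∧ SameCycle (δ * a) t y) ∧
        q ∣ len (δ * a) y then (1 : ℝ) / (len (δ * a) y : ℝ) else 0) ≤
        if y ∈ R then c else 0 := by
      intro y
      by_cases hy : y ∈ R
      · rw [if_pos hy]
        split_ifs
        · exact h y hy
        · exact hc
      · rw [if_neg hy, if_neg]
        rintro ⟨h4, -⟩
        apply h4
        refine ⟨y, ?_, SameCycle.refl _ _⟩
        simpa [hR] using hy
    refine (Finset.sum_le_sum fun y _ => h3 y).trans ?_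
    rw [Finset.sum_ite_mem, Finset.univ_inter, Finset.sum_const, nsmul_eq_mul, hRc]
  by_cases hE1 : ∃ y, SameCycle δ x y ∧ SameCycle δ x (a y) ∧ a y ≠ y
  · rw [if_pos hE1]
    have h3 := hb 1 zero_le_one fun y _ => by
      have h4 : (1 : ℝ) ≤ (len (δ * a) y : ℝ) := by exact_mod_cast KN_len_pos (δ * a) y
      rw [div_le_one (by linarith)]
      exact h4
    refine h3.trans ?_
    have : (0 : ℝ) ≤ (if ∀ y, SameCycle δ x y → a y = y then (1 : ℝ) else 0) := by
      split_ifs <;> norm_num
    linarith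
  · rw [if_neg hE1, mul_zero, zero_add]
    by_cases hz : ∃ y, (¬ ∃ t, ¬ SameCycle δ x t ∧ SameCycle (δ * a) t y)
    · obtain ⟨y0, hy0⟩ := hz
      push Not at hy0 hE1
      have hin : ∀ t, SameCycle (δ * a) y0 t → SameCycle δ x t := by
        intro t ht
        by_contra hcon
        exact hy0 t hcon ht.symm
      have hfix : ∀ t, SameCycle (δ * a) y0 t → a t = t := by
        intro t ht
        refine hE1 t (hin t ht) ?_
        have h4 : SameCycle (δ * a) y0 ((δ * a) t) := sameCycle_apply_right.2 ht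
        have h5 := hin _ h4
        rw [Perm.mul_apply] at h5
        exact sameCycle_apply_right.1 h5
      have hagree : ∀ t, SameCycle (δ * a) y0 t → δ t = (δ * a) t := by
        intro t ht
        rw [Perm.mul_apply, hfix t ht]
      have hsame := KN_same hagree
      have hxy : SameCycle δ x y0 := hin y0 (SameCycle.refl _ _)
      have hE2 : ∀ y, SameCycle δ x y → a y = y := by
        intro y hy
        apply hfix
        rw [← hsame]
        exact hxy.symm.trans hy
      rw [if_pos hE2]
      have h6 := hb (1 / (l : ℝ)) (by positivity) fun y hy => by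
        have hy' : SameCycle δ x y := by simpa [hR] using hy
        have h7 : len (δ * a) y = len δ y := by
          apply KN_len
          intro t ht
          rw [Perm.mul_apply, hE2 t (hy'.trans ht)]
        rw [h7, ← KN_len_eq δ hy', hl]
      refine h6.trans (le_of_eq ?_)
      field_simp
    · have h3 : ∀ y ∈ (Finset.univ : Finset α),
          (if (¬ ∃ t, ¬ SameCycle δ x t ∧ SameCycle (δ * a) t y) ∧
          q ∣ len (δ * a) y then (1 : ℝ) / (len (δ * a) y : ℝ) else 0) = 0 := by
        intro y _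
        rw [if_neg]
        rintro ⟨h4, -⟩
        exact hz ⟨y, h4⟩
      rw [Finset.sum_eq_zero h3]
      split_ifs <;> norm_num

theorem sum_CC_le (a : Perm α) (x : α) (l q : ℕ) (h1 : 1 ≤ l) (h2 : l + 1 ≤ Fintype.card α)
    (hq : 1 ≤ q) (ε : ℝ) (hε : 0 ≤ ε) (hε1 : ε ≤ 1)
    (ha : ε * (Fintype.card α : ℝ) ≤ (a.support.card : ℝ)) :
    ∑ δ : Perm α, (if len δ x = l then CC q (δ * a) else 0) ≤
      ((Fintype.card α - 1).factorial : ℝ) * ((1 + Real.log (Fintype.card α : ℝ)) *
        (1 / (q : ℝ) + (l : ℝ) / ((Fintype.card α : ℝ) - (l : ℝ))) +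
        (l : ℝ) ^ 3 / ((Fintype.card α : ℝ) - (l : ℝ)) + (1 - ε) ^ (l - 1)) := by
  classical
  set S := Finset.univ.filter (fun δ : Perm α => len δ x = l) with hS
  set B : ℝ := (1 + Real.log (Fintype.card α : ℝ)) *
        (1 / (q : ℝ) + (l : ℝ) / ((Fintype.card α : ℝ) - (l : ℝ))) with hB
  have hSc : (S.card : ℝ) = ((Fintype.card α - 1).factorial : ℝ) := by
    rw [← card_period x l h1 (by omega), Nat.card_eq_fintype_card, Fintype.card_subtype]
  rw [← Finset.sum_filter]
  -- split
  have hsplit : ∀ δ : Perm α, CC q (δ * a) = KNA (fun t => ¬ SameCycle δ x t) q (δ * a) +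
      ∑ y : α, (if (¬ ∃ t, ¬ SameCycle δ x t ∧ SameCycle (δ * a) t y) ∧ q ∣ len (δ * a) y then
      (1 : ℝ) / (len (δ * a) y : ℝ) else 0) := by
    intro δ
    unfold CC KNA
    rw [← Finset.sum_add_distrib]
    refine Finset.sum_congr rfl fun y _ => ?_
    by_cases h3 : ∃ t, ¬ SameCycle δ x t ∧ SameCycle (δ * a) t y
    · simp only [h3, not_true_eq_false, false_and, if_false, add_zero, true_and]
    · simp only [h3, not_false_eq_true, false_and, if_false, zero_add, true_and]
  rw [Finset.sum_congr rfl fun δ _ => hsplit δ, Finset.sum_add_distrib]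
  -- first part
  have hA : ∑ δ ∈ S, KNA (fun t => ¬ SameCycle δ x t) q (δ * a) ≤
      ((Fintype.card α - 1).factorial : ℝ) * B := by
    set g : Perm α → Finset α := fun δ => Finset.univ.filter (SameCycle δ x) with hg
    have hgc : ∀ δ : Perm α, (g δ).card = len δ x := by
      intro δ
      rw [← KN_card_sameCycle, Nat.card_eq_fintype_card, Fintype.card_subtype]
    have e1 : ∑ δ ∈ S, KNA (fun t => ¬ SameCycle δ x t) q (δ * a) =
        ∑ R ∈ S.image g, ∑ δ ∈ S.filter (fun δ => g δ = R),
          KNA (fun t => ¬ SameCycle δ x t) q (δ * a) :=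
      (Finset.sum_fiberwise_of_maps_to (fun δ hδ => Finset.mem_image_of_mem g hδ) _).symm
    have e2 : (S.card : ℝ) = ∑ R ∈ S.image g, ((S.filter (fun δ => g δ = R)).card : ℝ) := by
      exact_mod_cast Finset.card_eq_sum_card_fiberwise
        (fun δ hδ => Finset.mem_image_of_mem g hδ)
    rw [← hSc, e1, e2, Finset.sum_mul]
    refine Finset.sum_le_sum fun R hR => ?_
    obtain ⟨δ0, hδ0, rfl⟩ := Finset.mem_image.1 hR
    have hc0 : (g δ0).card = l := by
      rw [hgc]
      exact (Finset.mem_filter.1 hδ0).2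
    have e3 : S.filter (fun δ => g δ = g δ0) =
        Finset.univ.filter (fun δ : Perm α => Finset.univ.filter (SameCycle δ x) = g δ0) := by
      ext δ
      simp only [hS, Finset.mem_filter, Finset.mem_univ, true_and]
      constructor
      · rintro ⟨-, h⟩
        exact h
      · intro h
        refine ⟨?_, h⟩
        rw [← hgc, ← hc0]
        exact congrArg Finset.card h
    rw [e3]
    exact KN_fiber a x (g δ0) l q hc0 h2 hq
  -- second part
  have hC : ∑ δ ∈ S, ∑ y : α,
      (if (¬ ∃ t, ¬ SameCycle δ x t ∧ SameCycle (δ * a) t y) ∧ q ∣ len (δ * a) y then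
      (1 : ℝ) / (len (δ * a) y : ℝ) else 0) ≤
      (l : ℝ) * (((Fintype.card α - 1).factorial : ℝ) *
        ((l : ℝ) ^ 2 / ((Fintype.card α : ℝ) - (l : ℝ)))) +
      ((Fintype.card α - 1).factorial : ℝ) * (1 - ε) ^ (l - 1) := by
    have h3 : ∀ δ ∈ S, ∑ y : α,
        (if (¬ ∃ t, ¬ SameCycle δ x t ∧ SameCycle (δ * a) t y) ∧ q ∣ len (δ * a) y then
        (1 : ℝ) / (len (δ * a) y : ℝ) else 0) ≤
        (l : ℝ) * (if ∃ y, SameCycle δ x y ∧ SameCycle δ x (a y) ∧ a y ≠ y then (1 : ℝ) else 0) +
        (if ∀ y, SameCycle δ x y → a y = y then (1 : ℝ) else 0) := fun δ hδ =>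
      KN_inside a δ x l q h1 (Finset.mem_filter.1 hδ).2
    refine (Finset.sum_le_sum h3).trans ?_
    rw [Finset.sum_add_distrib, ← Finset.mul_sum]
    have e4 : ∑ δ ∈ S, (if ∃ y, SameCycle δ x y ∧ SameCycle δ x (a y) ∧ a y ≠ y then
        (1 : ℝ) else 0) = (Nat.card {δ : Perm α // len δ x = l ∧ ∃ y, SameCycle δ x y ∧
          SameCycle δ x (a y) ∧ a y ≠ y} : ℝ) := by
      rw [Finset.sum_boole, Nat.card_eq_fintype_card, Fintype.card_subtype, hS,
        Finset.filter_filter]
    have e5 : ∑ δ ∈ S, (if ∀ y, SameCycle δ x y → a y = y then (1 : ℝ) else 0) =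
        (Nat.card {δ : Perm α // len δ x = l ∧ ∀ y, SameCycle δ x y → a y = y} : ℝ) := by
      rw [Finset.sum_boole, Nat.card_eq_fintype_card, Fintype.card_subtype, hS,
        Finset.filter_filter]
    rw [e4, e5]
    exact add_le_add (mul_le_mul_of_nonneg_left (card_pair_inside a x l h1 h2) (by positivity))
      (card_fixed_inside a x l h1 h2 ε hε hε1 ha)
  refine (add_le_add hA hC).trans (le_of_eq ?_)
  ring

end perm

end RNK40
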