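import Pool.Agent.Lib_helper40.RNK.KJ
import Pool.Agent.Lib_helper40.RNK.KN
import Pool.Agent.Lib_helper40.RND.RD
import Pool.Agent.Lib_helper40.RND.RE
import Pool.Agent.Lib_helper40.RND.TT

set_option autoImplicit false

/-! Block KO (helper39): `δ` and `δ a` have different orders for almost all `δ`. -/

namespace RNK40

open Equiv Equiv.Perm RND40 GF40

section perm

variable {α : Type*} [Fintype α] [DecidableEq α]

theorem KO_len_eq (s : Perm α) {x y : α} (h : SameCycle s x y) : len s x = len s y := by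
  rw [← card_sameCycle, ← card_sameCycle]
  exact Nat.card_congr (Equiv.subtypeEquivRight fun z =>
    ⟨fun hz => h.symm.trans hz, fun hz => h.trans hz⟩)

theorem KO_len_pos (s : Perm α) (x : α) : 1 ≤ len s x := by
  rw [← card_sameCycle]
  have : Nonempty {y // SameCycle s x y} := ⟨⟨x, SameCycle.refl s x⟩⟩
  exact Nat.card_pos

theorem KO_pow (s : Perm α) (x : α) (N : ℕ) : (s ^ N) x = x ↔ len s x ∣ N := by
  unfold len
  rw [← Function.isPeriodicPt_iff_minimalPeriod_dvd, Function.IsPeriodicPt,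
    Function.IsFixedPt, ← Equiv.Perm.iterate_eq_pow]

/-- a cycle of length divisible by `q` counts -/
theorem KO_CC (s : Perm α) (q : ℕ) (y : α) (h : q ∣ len s y) : 1 ≤ CC q s := by
  classical
  unfold CC
  have h1 : ∀ z, (if SameCycle s y z then (1 : ℝ) / (len s y : ℝ) else 0) ≤
      (if q ∣ len s z then (1 : ℝ) / (len s z : ℝ) else 0) := by
    intro z
    split_ifs with h2 h3 h3
    · rw [KO_len_eq s h2]
    · exact absurd (by rw [← KO_len_eq s h2]; exact h) h3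
    · positivity
    · exact le_rfl
  refine le_trans ?_ (Finset.sum_le_sum fun z _ => h1 z)
  rw [← Finset.sum_filter, Finset.sum_const, nsmul_eq_mul]
  have h2 : (Finset.univ.filter fun z => SameCycle s y z).card = len s y := by
    rw [← card_sameCycle s y, Nat.card_eq_fintype_card, Fintype.card_subtype]
  rw [h2]
  have h3 : (0 : ℝ) < len s y := by exact_mod_cast KO_len_pos s y
  rw [mul_one_div_cancel h3.ne']

/-- a prime which divides a cycle length of `δ` divides one of `s` if the orders are equal -/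
theorem KO_ord (δ s : Perm α) (x : α) (p : ℕ) (hp : p.Prime) (h : p ∣ len δ x)
    (ho : orderOf δ = orderOf s) : ∃ y, p ∣ len s y := by
  have h1 : len δ x ∣ orderOf δ := by
    rw [← KO_pow, pow_orderOf_eq_one, Perm.one_apply]
  have h2 : orderOf s ∣ ∏ y, len s y := by
    rw [orderOf_dvd_iff_pow_eq_one]
    ext1 y
    rw [Perm.one_apply, KO_pow]
    exact Finset.dvd_prod_of_mem _ (Finset.mem_univ y)
  have h3 : p ∣ ∏ y, len s y := (h.trans h1).trans (by rw [ho]; exact h2)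
  obtain ⟨y, _, hy⟩ := (hp.prime.dvd_finsetProd_iff _).1 h3
  exact ⟨y, hy⟩

end perm

open Classical in
/-- the set of lengths -/
theorem KO_mu (n : ℕ) (ht : 100 ≤ tt n) :
    (tt n : ℝ) ^ 3 + 8 ≤ ∑ l ∈ (Finset.Icc 1 (2 ^ (Nat.log 2 n / 8))).filter
      (fun l => ∃ p, p.Prime ∧ tt n ^ 6 ≤ p ∧ p ∣ l), (1 : ℝ) / (l : ℝ) := by
  classical
  set t : ℕ := tt n with htdef
  set K : ℕ := Nat.log 2 n with hK
  have htK : t ^ 4 ≤ K := tt_pow_le n
  have h1 := euler_bound (t ^ 6) (2 ^ (K / 8)) (Nat.one_le_pow _ _ (by omega)) Nat.one_le_two_pow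
  have h2 : Real.log ((2 ^ (K / 8) : ℕ) : ℝ) = (K / 8 : ℕ) * Real.log 2 := by
    push_cast
    rw [Real.log_pow]
  have h3 : Real.sqrt ((t ^ 6 : ℕ) : ℝ) = (t : ℝ) ^ 3 := by
    push_cast
    have : (t : ℝ) ^ 6 = ((t : ℝ) ^ 3) ^ 2 := by ring
    rw [this, Real.sqrt_sq (by positivity)]
  rw [h2, h3] at h1
  have hlog : (1 : ℝ) / 2 ≤ Real.log 2 := by
    have := Real.log_two_gt_d9
    linarith
  have ht' : (100 : ℝ) ≤ t := by exact_mod_cast ht
  have h5 : (t : ℝ) ^ 4 / 8 - 1 ≤ ((K / 8 : ℕ) : ℝ) := by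
    have h6 : K < 8 * (K / 8 + 1) := by omega
    have h7 : (K : ℝ) < 8 * (((K / 8 : ℕ) : ℝ) + 1) := by exact_mod_cast h6
    have h8 : (t : ℝ) ^ 4 ≤ K := by exact_mod_cast htK
    linarith
  have h9 : ((t : ℝ) ^ 4 / 8 - 1) * Real.log 2 ≤ ((K / 8 : ℕ) : ℝ) * Real.log 2 :=
    mul_le_mul_of_nonneg_right h5 (Real.log_nonneg (by norm_num))
  have hA : (t : ℝ) ^ 3 + 8 ≤ ((t : ℝ) ^ 4 / 8 - 1) * Real.log 2 - 2 * (t : ℝ) ^ 3 := by
    have h1 : (100 : ℝ) ^ 3 ≤ (t : ℝ) ^ 3 := by gcongr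
    have h2 : (t : ℝ) ^ 4 = t * (t : ℝ) ^ 3 := by ring
    have h3 : 100 * (t : ℝ) ^ 3 ≤ (t : ℝ) ^ 4 := by
      rw [h2]
      gcongr
    have h4 : (0 : ℝ) ≤ (t : ℝ) ^ 4 / 8 - 1 := by nlinarith
    nlinarith
  refine le_trans ?_ (le_trans h1 ?_)
  · linarith
  · convert le_rfl

/-- the counting argument -/
theorem KO_count (n w z : ℕ) (hw : 1 ≤ w) (hzn : z + 1 ≤ n) (L : Finset ℕ)
    (hL : ∀ l ∈ L, 1 ≤ l ∧ l ≤ z) (q : ℕ → ℕ)
    (hq : ∀ l ∈ L, (q l).Prime ∧ w ≤ q l ∧ q l ∣ l) (μ : ℝ)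
    (hμ : μ = ∑ l ∈ L, (1 : ℝ) / (l : ℝ)) (hpos : 0 < μ) (ε : ℝ) (hε : 0 ≤ ε) (hε1 : ε ≤ 1)
    (a : Perm (Fin n)) (ha : ε * (n : ℝ) ≤ (a.support.card : ℝ)) :
    (Nat.card {δ : Perm (Fin n) // orderOf δ = orderOf (δ * a)} : ℝ) ≤
      (n.factorial : ℝ) * (4 / μ + 2 * ((1 + Real.log (n : ℝ)) *
        (1 / (w : ℝ) + (z : ℝ) / ((n : ℝ) - (z : ℝ))) + (z : ℝ) ^ 3 / ((n : ℝ) - (z : ℝ)) +
        (1 - ε) ^ (w - 1))) := by
  classical
  set Bd : ℝ := (1 + Real.log (n : ℝ)) * (1 / (w : ℝ) + (z : ℝ) / ((n : ℝ) - (z : ℝ))) +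
    (z : ℝ) ^ 3 / ((n : ℝ) - (z : ℝ)) + (1 - ε) ^ (w - 1) with hBd
  have hn1 : 1 ≤ n := by omega
  have hnR : (1 : ℝ) ≤ n := by exact_mod_cast hn1
  have hlog : 0 ≤ Real.log (n : ℝ) := Real.log_nonneg hnR
  have hwR : (0 : ℝ) < w := by exact_mod_cast hw
  have hzR : (z : ℝ) + 1 ≤ n := by exact_mod_cast hzn
  -- the random variable
  set Y : Perm (Fin n) → ℝ := fun δ => ∑ x, ∑ l ∈ L,
    (1 : ℝ) / (l : ℝ) * (if len δ x = l then CC (q l) (δ * a) else 0) with hY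
  have hCC0 : ∀ (m : ℕ) (s : Perm (Fin n)), 0 ≤ CC m s := by
    intro m s
    unfold CC
    refine Finset.sum_nonneg fun y _ => ?_
    split_ifs <;> positivity
  have hY0 : ∀ δ, 0 ≤ Y δ := by
    intro δ
    refine Finset.sum_nonneg fun x _ => Finset.sum_nonneg fun l _ => ?_
    refine mul_nonneg (by positivity) ?_
    split_ifs
    · exact hCC0 _ _
    · exact le_rfl
  have hXY : ∀ δ : Perm (Fin n), orderOf δ = orderOf (δ * a) → XX L δ ≤ Y δ := by
    intro δ ho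
    unfold XX
    refine Finset.sum_le_sum fun x _ => ?_
    split_ifs with hx
    · obtain ⟨hp, _, hd⟩ := hq _ hx
      obtain ⟨y, hy⟩ := KO_ord δ (δ * a) x _ hp hd ho
      have h1 := KO_CC (δ * a) _ y hy
      have h2 : (1 : ℝ) / (len δ x : ℝ) * (if len δ x = len δ x then
          CC (q (len δ x)) (δ * a) else 0) ≤ ∑ l ∈ L, (1 : ℝ) / (l : ℝ) *
          (if len δ x = l then CC (q l) (δ * a) else 0) := by
        refine Finset.single_le_sum (f := fun l : ℕ => (1 : ℝ) / (l : ℝ) *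
          (if len δ x = l then CC (q l) (δ * a) else 0)) (fun l _ => ?_) hx
        refine mul_nonneg (by positivity) ?_
        split_ifs
        · exact hCC0 _ _
        · exact le_rfl
      rw [if_pos rfl] at h2
      refine le_trans ?_ h2
      exact le_mul_of_one_le_right (by positivity) h1
    · refine Finset.sum_nonneg fun l _ => mul_nonneg (by positivity) ?_
      split_ifs
      · exact hCC0 _ _
      · exact le_rfl
  -- the sum of Y
  have hlB : ∀ l ∈ L, (1 + Real.log (n : ℝ)) * (1 / (q l : ℝ) + (l : ℝ) / ((n : ℝ) - (l : ℝ))) +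
      (l : ℝ) ^ 3 / ((n : ℝ) - (l : ℝ)) + (1 - ε) ^ (l - 1) ≤ Bd := by
    intro l hl
    obtain ⟨hl1, hlz⟩ := hL l hl
    obtain ⟨hp, hwq, hd⟩ := hq l hl
    have hql : q l ≤ l := Nat.le_of_dvd (by omega) hd
    have hlzR : (l : ℝ) ≤ z := by exact_mod_cast hlz
    have hwqR : (w : ℝ) ≤ ((q l : ℕ) : ℝ) := by exact_mod_cast hwq
    have hl0 : (0 : ℝ) ≤ l := Nat.cast_nonneg l
    have hz0 : (0 : ℝ) ≤ z := Nat.cast_nonneg z
    have e1 : 1 / (q l : ℝ) ≤ 1 / (w : ℝ) := one_div_le_one_div_of_le hwR hwqR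
    have hnz : 0 < (n : ℝ) - z := by linarith
    have e2 : (l : ℝ) / ((n : ℝ) - (l : ℝ)) ≤ (z : ℝ) / ((n : ℝ) - (z : ℝ)) :=
      div_le_div₀ hz0 hlzR hnz (by linarith)
    have e3 : (l : ℝ) ^ 3 / ((n : ℝ) - (l : ℝ)) ≤ (z : ℝ) ^ 3 / ((n : ℝ) - (z : ℝ)) :=
      div_le_div₀ (by positivity) (by gcongr) hnz (by linarith)
    have e4 : (1 - ε) ^ (l - 1) ≤ (1 - ε) ^ (w - 1) :=
      pow_le_pow_of_le_one (by linarith) (by linarith) (by omega)
    have e5 : (1 + Real.log (n : ℝ)) * (1 / (q l : ℝ) + (l : ℝ) / ((n : ℝ) - (l : ℝ))) ≤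
        (1 + Real.log (n : ℝ)) * (1 / (w : ℝ) + (z : ℝ) / ((n : ℝ) - (z : ℝ))) :=
      mul_le_mul_of_nonneg_left (add_le_add e1 e2) (by linarith)
    linarith
  have hsum : ∑ δ, Y δ ≤ (n.factorial : ℝ) * (μ * Bd) := by
    have h1 : ∑ δ, Y δ = ∑ x : Fin n, ∑ l ∈ L, (1 : ℝ) / (l : ℝ) *
        ∑ δ : Perm (Fin n), (if len δ x = l then CC (q l) (δ * a) else 0) := by
      rw [hY, Finset.sum_comm]
      refine Finset.sum_congr rfl fun x _ => ?_
      rw [Finset.sum_comm]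
      refine Finset.sum_congr rfl fun l _ => ?_
      rw [Finset.mul_sum]
    rw [h1]
    have h2 : ∀ x : Fin n, ∑ l ∈ L, (1 : ℝ) / (l : ℝ) *
        ∑ δ : Perm (Fin n), (if len δ x = l then CC (q l) (δ * a) else 0) ≤
        ((n - 1).factorial : ℝ) * (μ * Bd) := by
      intro x
      have h3 : ∀ l ∈ L, (1 : ℝ) / (l : ℝ) *
          ∑ δ : Perm (Fin n), (if len δ x = l then CC (q l) (δ * a) else 0) ≤
          (1 : ℝ) / (l : ℝ) * (((n - 1).factorial : ℝ) * Bd) := by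
        intro l hl
        obtain ⟨hl1, hlz⟩ := hL l hl
        have h4 := sum_CC_le a x l (q l) hl1 (by rw [Fintype.card_fin]; omega)
          (hq l hl).1.one_lt.le ε hε hε1 (by rw [Fintype.card_fin]; exact ha)
        rw [Fintype.card_fin] at h4
        refine mul_le_mul_of_nonneg_left (h4.trans ?_) (by positivity)
        exact mul_le_mul_of_nonneg_left (hlB l hl) (by positivity)
      refine (Finset.sum_le_sum h3).trans ?_
      rw [← Finset.sum_mul, ← hμ]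
      exact le_of_eq (by ring)
    refine (Finset.sum_le_sum fun x _ => h2 x).trans ?_
    rw [Finset.sum_const, Finset.card_univ, Fintype.card_fin, nsmul_eq_mul, ← mul_assoc]
    have h5 : (n : ℝ) * ((n - 1).factorial : ℝ) = (n.factorial : ℝ) := by
      have := Nat.mul_factorial_pred (by omega : n ≠ 0)
      exact_mod_cast this
    rw [h5]
  -- Markov
  set E : Finset (Perm (Fin n)) := Finset.univ.filter fun δ => orderOf δ = orderOf (δ * a) with hE
  set E1 : Finset (Perm (Fin n)) := Finset.univ.filter fun δ => XX L δ ≤ μ / 2 with hE1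
  have hEc : (Nat.card {δ : Perm (Fin n) // orderOf δ = orderOf (δ * a)} : ℝ) = (E.card : ℝ) := by
    rw [Nat.card_eq_fintype_card, Fintype.card_subtype]
  have hE1c : (Nat.card {δ : Perm (Fin n) // XX L δ ≤ μ / 2} : ℝ) = (E1.card : ℝ) := by
    rw [Nat.card_eq_fintype_card, Fintype.card_subtype]
  have hm := second_moment (α := Fin n) L (fun l hl => ⟨(hL l hl).1, by
    rw [Fintype.card_fin]; have := (hL l hl).2; omega⟩) μ hμ hpos
  rw [hE1c, Fintype.card_fin] at hm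
  have hE2 : ((E \ E1).card : ℝ) * (μ / 2) ≤ (n.factorial : ℝ) * (μ * Bd) := by
    calc ((E \ E1).card : ℝ) * (μ / 2) = ∑ _δ ∈ E \ E1, μ / 2 := by
          rw [Finset.sum_const, nsmul_eq_mul]
      _ ≤ ∑ δ ∈ E \ E1, Y δ := by
          refine Finset.sum_le_sum fun δ hδ => ?_
          rw [Finset.mem_sdiff, hE, hE1, Finset.mem_filter, Finset.mem_filter] at hδ
          have h1 := hXY δ hδ.1.2
          have h2 : ¬ XX L δ ≤ μ / 2 := fun h => hδ.2 ⟨Finset.mem_univ _, h⟩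
          linarith [not_le.1 h2]
      _ ≤ ∑ δ, Y δ := Finset.sum_le_sum_of_subset_of_nonneg (Finset.subset_univ _)
          fun δ _ _ => hY0 δ
      _ ≤ _ := hsum
  have hE3 : ((E \ E1).card : ℝ) ≤ (n.factorial : ℝ) * (2 * Bd) := by
    have h1 : (n.factorial : ℝ) * (μ * Bd) = (n.factorial : ℝ) * (2 * Bd) * (μ / 2) := by ring
    rw [h1] at hE2
    exact le_of_mul_le_mul_right hE2 (by positivity)
  have hE4 : (E.card : ℝ) ≤ (E1.card : ℝ) + ((E \ E1).card : ℝ) := by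
    have h1 : E.card ≤ E1.card + (E \ E1).card := by
      calc E.card ≤ (E1 ∪ (E \ E1)).card := Finset.card_le_card fun δ hδ => by
            rw [Finset.mem_union, Finset.mem_sdiff]
            by_cases h : δ ∈ E1
            · exact Or.inl h
            · exact Or.inr ⟨hδ, h⟩
        _ ≤ _ := Finset.card_union_le _ _
    exact_mod_cast h1
  rw [hEc, mul_add]
  linarith

/-- the error term -/
theorem KO_err (n : ℕ) (ε : ℝ) (hε : 0 < ε) (hε1 : ε ≤ 1) (ht : 100 ≤ tt n) :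
    2 ^ (Nat.log 2 n / 8) + 1 ≤ n ∧
    (1 + Real.log (n : ℝ)) * (1 / ((tt n ^ 6 : ℕ) : ℝ) + ((2 ^ (Nat.log 2 n / 8) : ℕ) : ℝ) /
      ((n : ℝ) - ((2 ^ (Nat.log 2 n / 8) : ℕ) : ℝ))) +
      ((2 ^ (Nat.log 2 n / 8) : ℕ) : ℝ) ^ 3 / ((n : ℝ) - ((2 ^ (Nat.log 2 n / 8) : ℕ) : ℝ)) +
      (1 - ε) ^ (tt n ^ 6 - 1) ≤ (5000 + 1 / ε) / (tt n : ℝ) := by
  set t : ℕ := tt n with htdef
  set K : ℕ := Nat.log 2 n with hK
  set z : ℕ := 2 ^ (K / 8) with hz
  have htK : t ^ 4 ≤ K := tt_pow_le n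
  have hK0 : 1 ≤ K := le_trans (Nat.one_le_pow _ _ (by omega)) htK
  have hn1 : 1 ≤ n := by
    by_contra h
    have : n = 0 := by omega
    rw [hK, this] at hK0
    simp at hK0
  have hpow1 : 2 ^ K ≤ n := Nat.pow_log_le_self 2 (by omega)
  have hz8 : z ^ 8 ≤ n := by
    refine le_trans ?_ hpow1
    rw [hz, ← pow_mul]
    exact Nat.pow_le_pow_right (by norm_num) (Nat.div_mul_le_self K 8)
  have hzt : t ^ 4 ≤ 8 * z := by
    have h1 : K / 8 < z := Nat.lt_two_pow_self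
    have h2 : K < 8 * (K / 8 + 1) := by omega
    omega
  have ht4 : 100 * 100 ≤ t ^ 4 := by
    calc 100 * 100 ≤ 100 ^ 4 := by norm_num
      _ ≤ t ^ 4 := Nat.pow_le_pow_left ht 4
  have hz2 : 2 ≤ z := by omega
  have hzR : (2 : ℝ) ≤ z := by exact_mod_cast hz2
  have hz8R : (z : ℝ) ^ 8 ≤ n := by exact_mod_cast hz8
  have hztR : (t : ℝ) ^ 4 ≤ 8 * z := by exact_mod_cast hzt
  have htR : (100 : ℝ) ≤ t := by exact_mod_cast ht
  have hz7 : (1 : ℝ) ≤ (z : ℝ) ^ 6 := one_le_pow₀ (by linarith)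
  have hnz : (z : ℝ) ^ 8 / 2 ≤ (n : ℝ) - z := by
    have h1 : 2 * (z : ℝ) ≤ (z : ℝ) ^ 8 := by
      have : (z : ℝ) ^ 8 = z * z * (z : ℝ) ^ 6 := by ring
      rw [this]
      nlinarith
    linarith
  have hz80 : (0 : ℝ) < (z : ℝ) ^ 8 / 2 := by positivity
  have hz1n : z + 1 ≤ n := by
    have h1 : (z : ℝ) + 1 ≤ n := by
      have h2 : (2 : ℝ) ^ 8 ≤ (z : ℝ) ^ 8 := by gcongr
      linarith
    exact_mod_cast h1
  refine ⟨hz1n, ?_⟩
  have hlog : 1 + Real.log (n : ℝ) ≤ 2 * ((t : ℝ) + 1) ^ 4 := log_le_tt n hn1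
  have hlog0 : 0 ≤ 1 + Real.log (n : ℝ) := by
    have := Real.log_nonneg (by exact_mod_cast hn1 : (1 : ℝ) ≤ n)
    linarith
  have hlog2 : 1 + Real.log (n : ℝ) ≤ 32 * (t : ℝ) ^ 4 := by
    have h1 : ((t : ℝ) + 1) ^ 4 ≤ (2 * t) ^ 4 := by
      gcongr
      linarith
    nlinarith
  have ht0 : (0 : ℝ) < t := by linarith
  -- first term
  have a1 : (1 + Real.log (n : ℝ)) * (1 / ((t ^ 6 : ℕ) : ℝ)) ≤ 32 / t := by
    push_cast
    calc (1 + Real.log (n : ℝ)) * (1 / (t : ℝ) ^ 6) ≤ 32 * (t : ℝ) ^ 4 * (1 / (t : ℝ) ^ 6) :=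
          mul_le_mul_of_nonneg_right hlog2 (by positivity)
      _ = 32 / t * (1 / t) := by field_simp
      _ ≤ 32 / t * 1 := by
          refine mul_le_mul_of_nonneg_left ?_ (by positivity)
          rw [div_le_one ht0]
          linarith
      _ = 32 / t := mul_one _
  have a2 : (z : ℝ) / ((n : ℝ) - z) ≤ 2 / (z : ℝ) ^ 7 := by
    calc (z : ℝ) / ((n : ℝ) - z) ≤ z / ((z : ℝ) ^ 8 / 2) :=
          div_le_div_of_nonneg_left (by positivity) hz80 hnz
      _ = 2 / (z : ℝ) ^ 7 := by field_simp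
  have a3 : (z : ℝ) ^ 3 / ((n : ℝ) - z) ≤ 2 / (z : ℝ) ^ 5 := by
    calc (z : ℝ) ^ 3 / ((n : ℝ) - z) ≤ (z : ℝ) ^ 3 / ((z : ℝ) ^ 8 / 2) :=
          div_le_div_of_nonneg_left (by positivity) hz80 hnz
      _ = 2 / (z : ℝ) ^ 5 := by field_simp
  have ht1 : (t : ℝ) ≤ (t : ℝ) ^ 4 := by
    have : (1 : ℝ) ≤ (t : ℝ) ^ 3 := one_le_pow₀ (by linarith)
    have h2 : (t : ℝ) ^ 4 = t * (t : ℝ) ^ 3 := by ring
    rw [h2]
    nlinarith
  have htz : (t : ℝ) / 8 ≤ z := by linarith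
  have hinv : 1 / (z : ℝ) ≤ 8 / t := by
    rw [div_le_div_iff₀ (by positivity) ht0]
    linarith
  have b3 : (z : ℝ) ^ 3 / ((n : ℝ) - z) ≤ 16 / t := by
    refine a3.trans ?_
    have h1 : 2 / (z : ℝ) ^ 5 ≤ 2 * (1 / (z : ℝ)) := by
      rw [mul_one_div]
      refine div_le_div_of_nonneg_left (by norm_num) (by positivity) ?_
      have h2 : (1 : ℝ) ≤ (z : ℝ) ^ 4 := one_le_pow₀ (by linarith)
      have h3 : (z : ℝ) ^ 5 = z * (z : ℝ) ^ 4 := by ring
      rw [h3]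
      nlinarith
    have h2 : 2 * (1 / (z : ℝ)) ≤ 2 * (8 / t) := by linarith
    have h3 : 2 * (8 / (t : ℝ)) = 16 / t := by ring
    linarith
  have b2 : (1 + Real.log (n : ℝ)) * ((z : ℝ) / ((n : ℝ) - z)) ≤ 4096 / t := by
    calc (1 + Real.log (n : ℝ)) * ((z : ℝ) / ((n : ℝ) - z)) ≤ 32 * (8 * z) * (2 / (z : ℝ) ^ 7) := by
          refine mul_le_mul (hlog2.trans (by linarith)) a2 ?_ (by positivity)
          have : 0 < (n : ℝ) - z := lt_of_lt_of_le hz80 hnz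
          positivity
      _ = 512 / (z : ℝ) ^ 6 := by field_simp; ring
      _ ≤ 512 * (1 / (z : ℝ)) := by
          rw [mul_one_div]
          refine div_le_div_of_nonneg_left (by norm_num) (by positivity) ?_
          have h2 : (1 : ℝ) ≤ (z : ℝ) ^ 5 := one_le_pow₀ (by linarith)
          have h3 : (z : ℝ) ^ 6 = z * (z : ℝ) ^ 5 := by ring
          rw [h3]
          nlinarith
      _ ≤ 512 * (8 / t) := by linarith
      _ = 4096 / t := by ring
  have b4 : (1 - ε) ^ (t ^ 6 - 1) ≤ (1 / ε) / t := by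
    have hm : t ≤ t ^ 6 - 1 := by
      have h1 : t * 2 ≤ t * t ^ 5 := Nat.mul_le_mul_left t
        (le_trans (by norm_num : 2 ≤ 100 ^ 5) (Nat.pow_le_pow_left ht 5))
      have h2 : t ^ 6 = t * t ^ 5 := by ring
      omega
    set m : ℕ := t ^ 6 - 1 with hmdef
    have h1 : 1 + (m : ℝ) * ε ≤ (1 + ε) ^ m := one_add_mul_le_pow (by linarith) m
    have h2 : (1 - ε) ^ m * (1 + ε) ^ m ≤ 1 := by
      rw [← mul_pow]
      refine pow_le_one₀ ?_ ?_
      · nlinarith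
      · nlinarith [sq_nonneg ε]
    have h3 : 0 ≤ (1 - ε) ^ m := pow_nonneg (by linarith) m
    have hmR : (t : ℝ) ≤ m := by exact_mod_cast hm
    have h4 : (1 - ε) ^ m * (t * ε) ≤ 1 := by
      refine le_trans ?_ h2
      refine mul_le_mul_of_nonneg_left ?_ h3
      nlinarith
    rw [div_div, le_div_iff₀ (by positivity)]
    linarith
  have hfin : (5000 + 1 / ε) / (t : ℝ) = 5000 / t + 1 / ε / t := by ring
  rw [hfin, mul_add]
  have h5 : (5000 : ℝ) / t = 32 / t + 4096 / t + 16 / t + 856 / t := by ring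
  have h6 : (0 : ℝ) ≤ 856 / t := by positivity
  linarith

/-! ### KO: different orders (needs KJ, KN) -/

theorem order_ne (ε : ℝ) (hε : 0 < ε) (η : ℝ) (hη : 0 < η) : ∃ n0 : ℕ, ∀ n ≥ n0,
    ∀ a : Perm (Fin n), ε * (n : ℝ) ≤ (a.support.card : ℝ) →
    (Nat.card {δ : Perm (Fin n) // orderOf δ = orderOf (δ * a)} : ℝ) ≤ η * (n.factorial : ℝ) := by
  classical
  set ε' : ℝ := min ε 1 with hε'
  have hε'0 : 0 < ε' := lt_min hε one_pos
  have hε'1 : ε' ≤ 1 := min_le_right _ _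
  obtain ⟨m, hm⟩ := exists_nat_ge ((4 + 2 * (5000 + 1 / ε')) / η)
  obtain ⟨n0, h0⟩ := tt_ge (max m 100)
  refine ⟨n0, fun n hn a ha => ?_⟩
  have ht := h0 n hn
  have ht100 : 100 ≤ tt n := (le_max_right _ _).trans ht
  have htm : m ≤ tt n := (le_max_left _ _).trans ht
  have ha' : ε' * (n : ℝ) ≤ (a.support.card : ℝ) :=
    (mul_le_mul_of_nonneg_right (min_le_left _ _) (Nat.cast_nonneg n)).trans ha
  set z : ℕ := 2 ^ (Nat.log 2 n / 8) with hz
  set w : ℕ := tt n ^ 6 with hw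
  obtain ⟨hzn, herr⟩ := KO_err n ε' hε'0 hε'1 ht100
  rw [← hz, ← hw] at herr
  set L : Finset ℕ := (Finset.Icc 1 z).filter (fun l => ∃ p, p.Prime ∧ w ≤ p ∧ p ∣ l) with hL
  set q : ℕ → ℕ := fun l => if h : ∃ p, p.Prime ∧ w ≤ p ∧ p ∣ l then h.choose else 0 with hq
  have hqL : ∀ l ∈ L, (q l).Prime ∧ w ≤ q l ∧ q l ∣ l := by
    intro l hl
    rw [hL, Finset.mem_filter] at hl
    have h1 : q l = hl.2.choose := by
      simp only [hq]
      rw [dif_pos hl.2]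
    rw [h1]
    exact hl.2.choose_spec
  have hLz : ∀ l ∈ L, 1 ≤ l ∧ l ≤ z := by
    intro l hl
    rw [hL, Finset.mem_filter, Finset.mem_Icc] at hl
    exact hl.1
  have hμ := KO_mu n ht100
  set μ : ℝ := ∑ l ∈ L, (1 : ℝ) / (l : ℝ) with hμdef
  have hμ' : (tt n : ℝ) ^ 3 + 8 ≤ μ := by
    refine hμ.trans (le_of_eq ?_)
    rw [hμdef, hL, hz, hw]
  have htR : (100 : ℝ) ≤ tt n := by exact_mod_cast ht100
  have hμ0 : (tt n : ℝ) ≤ μ := by
    have h1 : (1 : ℝ) ≤ (tt n : ℝ) ^ 2 := one_le_pow₀ (by linarith)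
    have h2 : (tt n : ℝ) ^ 3 = tt n * (tt n : ℝ) ^ 2 := by ring
    nlinarith
  have hcount := KO_count n w z (Nat.one_le_pow _ _ (by omega)) hzn L hLz q hqL μ hμdef
    (by linarith) ε' hε'0.le hε'1 a ha'
  refine hcount.trans ?_
  rw [mul_comm η]
  refine mul_le_mul_of_nonneg_left ?_ (by positivity)
  have ht0 : (0 : ℝ) < tt n := by linarith
  have h4 : 4 / μ ≤ 4 / (tt n : ℝ) := div_le_div_of_nonneg_left (by norm_num) ht0 hμ0
  have h5 : 4 / (tt n : ℝ) + 2 * ((5000 + 1 / ε') / (tt n : ℝ)) ≤ η := by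
    have h6 : 4 / (tt n : ℝ) + 2 * ((5000 + 1 / ε') / (tt n : ℝ)) =
        (4 + 2 * (5000 + 1 / ε')) / (tt n : ℝ) := by ring
    rw [h6, div_le_iff₀ ht0]
    rw [div_le_iff₀ hη] at hm
    have h7 : (m : ℝ) ≤ tt n := by exact_mod_cast htm
    have h8 : (m : ℝ) * η ≤ tt n * η := mul_le_mul_of_nonneg_right h7 hη.le
    linarith
  linarith

end RNK40
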