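import Pool.Agent.Lib_helper40.RNK.KA
import Pool.Agent.Lib_helper40.RNK.KB
import Pool.Agent.Lib_helper40.RNK.KF
import Pool.Agent.Lib_helper40.RNK.KD
import Pool.Agent.Lib_helper40.RNK.KH
import Pool.Agent.Lib_helper40.RNK.KO
import Pool.Agent.Lib_helper40.RNK.KI
import Pool.Agent.Lib_helper40.RND.Final

set_option autoImplicit false
set_option linter.unusedSectionVars false

/-! Assembly, part 1: left multiplication, the events, the deterministic conclusion. -/

namespace RNK40

open Equiv Equiv.Perm RND40 GF40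

section lm

variable {n k : ℕ}

/-- left multiplication of all transitions -/
noncomputable def lm (δ : Perm (Fin n)) (A : BT n k) : BT n k :=
  ⟨(fun x => δ * A.1.1 x, A.1.2), rl2_bir_mul A.1.1 A.1.2 δ A.2⟩

lemma lm_inj (δ : Perm (Fin n)) : Function.Injective (lm δ : BT n k → BT n k) := by
  intro A B h
  have h1 : (fun x => δ * A.1.1 x) = (fun x => δ * B.1.1 x) := congrArg (fun z => z.1.1) h
  have h2 : A.1.2 = B.1.2 := congrArg (fun z => z.1.2) h
  apply Subtype.ext
  apply Prod.ext
  · funext x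
    exact mul_left_cancel (congrFun h1 x)
  · exact h2

lemma lm_bij (δ : Perm (Fin n)) : Function.Bijective (lm δ : BT n k → BT n k) :=
  Finite.injective_iff_bijective.1 (lm_inj δ)

lemma MM_apply (A : BT n k) (y : Fin k) (q : Fin n) :
    MM A y q = A.1.1 ((A.1.2 q)⁻¹ y) q := rfl

lemma lm_MM (δ : Perm (Fin n)) (A : BT n k) (y : Fin k) : MM (lm δ A) y = δ * MM A y := by
  ext q
  rfl

/-- words with exactly one extra letter -/
lemma lift_WW {G : Type*} [Group G] (D : Fin k → G) (δ : G) (i : ℕ) :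
    ∀ v ∈ WW k i, FreeGroup.lift (fun x => δ * D x) v = δ * FreeGroup.lift D v := by
  induction i with
  | zero =>
    intro v hv
    simp only [WW, Finset.mem_image] at hv
    obtain ⟨x, _, rfl⟩ := hv
    simp
  | succ i ih =>
    intro v hv
    simp only [WW, Finset.mem_image] at hv
    obtain ⟨⟨a, d, c⟩, hp, rfl⟩ := hv
    have ha : a ∈ WW k i := (Finset.mem_product.1 hp).1
    simp only [map_mul, map_inv, FreeGroup.lift_apply_of, ih a ha]
    group

lemma wrd_mem (x y : Fin k) (i : ℕ) : wrd x y i ∈ WW k i := by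
  induction i with
  | zero =>
    simp only [WW, Finset.mem_image]
    exact ⟨x, Finset.mem_univ _, by simp [wrd]⟩
  | succ i ih =>
    simp only [WW, Finset.mem_image]
    refine ⟨(wrd x y i, y, x), Finset.mem_product.2 ⟨ih, Finset.mem_univ _⟩, ?_⟩
    simp only [wrd]
    rw [pow_succ]
    simp only [mul_assoc]

end lm

/-- the good event: two actions of a letter have different orders, and there is a word with two
fixed points at which the sections have different orders -/
def G1 {n k : ℕ} (A : BT n k) : Prop :=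
  (∃ x, orderOf (A.1.1 x) ≠ orderOf (MM A x)) ∧
  ∀ e, ∃ (w : FreeGroup (Fin k)) (q1 q2 : Fin n),
    (autoSys A.1.1 A.1.2 A.2).ρ true w q1 = q1 ∧ (autoSys A.1.1 A.1.2 A.2).ρ true w q2 = q2 ∧
    orderOf ((autoSys A.1.1 A.1.2 A.2).ρ e ((autoSys A.1.1 A.1.2 A.2).sc true w q1)) ≠
      orderOf ((autoSys A.1.1 A.1.2 A.2).ρ e ((autoSys A.1.1 A.1.2 A.2).sc true w q2))

/-- the transitions generate at least the alternating group -/
def G0 {n k : ℕ} (A : BT n k) : Prop :=
  alternatingGroup (Fin n) ≤ Subgroup.closure (Set.range A.1.1)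

lemma rho_true {n k : ℕ} (A : BT n k) :
    (autoSys A.1.1 A.1.2 A.2).ρ true = FreeGroup.lift A.1.1 := rfl

lemma rho_false {n k : ℕ} (A : BT n k) :
    (autoSys A.1.1 A.1.2 A.2).ρ false = FreeGroup.lift (MM A) := rfl

theorem hyps_of_good {n k : ℕ} (h6 : 6 ≤ n) (A : BT n k) (h0 : G0 A) (h0' : G0 (inv A))
    (h1 : G1 A) (h1' : G1 (inv A)) :
    (autoSys A.1.1 A.1.2 A.2).H2 ∧ (autoSys A.1.1 A.1.2 A.2).H3 := by
  set S := autoSys A.1.1 A.1.2 A.2 with hS
  have hc : 6 ≤ Fintype.card (Fin n) := by rwa [Fintype.card_fin]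
  have hH2 : S.H2 := by
    obtain ⟨x, hx⟩ := h1.1
    refine H2_of S hc ?_ (FreeGroup.of x) ?_
    · intro b
      cases b
      · rw [hS, rho_false, FreeGroup.range_lift_eq_closure]
        exact h0'
      · rw [hS, rho_true, FreeGroup.range_lift_eq_closure]
        exact h0
    · rw [hS, rho_true, rho_false, FreeGroup.lift_apply_of, FreeGroup.lift_apply_of]
      exact hx
  refine ⟨hH2, H3_of S hc hH2 ?_⟩
  intro b e
  cases b
  · obtain ⟨w, q1, q2, e1, e2, e3⟩ := h1'.2 (!e)
    refine ⟨w, q1, q2, ?_, ?_, ?_⟩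
    · rw [inv_rho] at e1
      exact e1
    · rw [inv_rho] at e2
      exact e2
    · rw [inv_rho, inv_rho, inv_sc, inv_sc, Bool.not_not] at e3
      exact e3
  · exact h1.2 e

/-- The states generate a free group with basis the states, and the group is torsion free. -/
def FreeOn {n m : ℕ} (δ : Fin n → Fin m → Fin n) (out : Fin n → Fin m → Fin m) : Prop :=
  ∀ f : Fin n → Perm (List (Fin m)), (∀ q, f q [] = []) →
    (∀ q a w, f q (a :: w) = out q a :: f (δ q a) w) →
    Function.Injective (FreeGroup.lift f) ∧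
      ∀ g ∈ Subgroup.closure (Set.range f), IsOfFinOrder g → g = 1

lemma torsion_free {n : ℕ} {G : Type*} [Group G] (f : Fin n → G)
    (h : Function.Injective (FreeGroup.lift f)) :
    ∀ g ∈ Subgroup.closure (Set.range f), IsOfFinOrder g → g = 1 := by
  intro g hg hfin
  rw [← FreeGroup.range_lift_eq_closure] at hg
  obtain ⟨u, rfl⟩ := hg
  have h1 : IsOfFinOrder u := by
    rw [isOfFinOrder_iff_pow_eq_one] at hfin ⊢
    obtain ⟨m, hm, hm1⟩ := hfin
    refine ⟨m, hm, h ?_⟩
    rw [map_pow, map_one]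
    exact hm1
  have h2 : u = 1 := by
    by_contra hne
    exact (not_isOfFinOrder_of_isMulTorsionFree hne) h1
  rw [h2, map_one]

theorem free_of_good {n k : ℕ} (h6 : 6 ≤ n) (A : BT n k) (h0 : G0 A) (h0' : G0 (inv A))
    (h1 : G1 A) (h1' : G1 (inv A)) :
    FreeOn (fun q x => A.1.1 x q) (fun q x => A.1.2 q x) := by
  intro f _ hf
  obtain ⟨h2, h3⟩ := hyps_of_good h6 A h0 h0' h1 h1'
  have hinj := free_of_H A.1.1 A.1.2 A.2 f hf (by rwa [Fintype.card_fin]) h2 h3
  exact ⟨hinj, torsion_free f hinj⟩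

end RNK40
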