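import Pool.Agent.Lib_helper40.RNK.Main

set_option autoImplicit false
set_option linter.unusedSectionVars false

/-! Assembly, part 2: counting. -/

namespace RNK40

open Equiv Equiv.Perm RND40 GF40

section gen

variable {T : Type*} [Finite T]

lemma cd_mono (P R : T → Prop) (h : ∀ A, P A → R A) :
    (Nat.card {A // P A} : ℝ) ≤ (Nat.card {A // R A} : ℝ) := by
  have : Nat.card {A // P A} ≤ Nat.card {A // R A} :=
    Nat.card_le_card_of_injective (fun A => (⟨A.1, h A.1 A.2⟩ : {A // R A})) (by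
      intro A B hAB
      exact Subtype.ext (congrArg (fun z : {A // R A} => z.1) hAB))
  exact_mod_cast this

lemma cd_or (P R : T → Prop) :
    (Nat.card {A // P A ∨ R A} : ℝ) ≤ (Nat.card {A // P A} : ℝ) + (Nat.card {A // R A} : ℝ) := by
  classical
  have := Fintype.ofFinite T
  simp only [Nat.card_eq_fintype_card, Fintype.card_subtype]
  have h : (Finset.univ.filter (fun A => P A ∨ R A)) =
      Finset.univ.filter (fun A => P A) ∪ Finset.univ.filter (fun A => R A) := by
    ext A; simp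
  rw [h]
  exact_mod_cast Finset.card_union_le _ _

lemma cd_ex {ι : Type*} (U : Finset ι) (P : ι → T → Prop) :
    (Nat.card {A // ∃ u ∈ U, P u A} : ℝ) ≤ ∑ u ∈ U, (Nat.card {A // P u A} : ℝ) := by
  classical
  induction U using Finset.induction_on with
  | empty => simp
  | insert u U hu ih =>
    rw [Finset.sum_insert hu]
    refine le_trans (cd_mono _ (fun A => P u A ∨ ∃ u ∈ U, P u A) ?_) ?_
    · rintro A ⟨v, hv, h⟩
      rcases Finset.mem_insert.1 hv with rfl | hv
      · left; exact h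
      · right; exact ⟨v, hv, h⟩
    · exact (cd_or _ _).trans (by linarith)

end gen

/-- averaging over the left multiplications -/
lemma averaging {n k : ℕ} (P Typ : BT n k → Prop) (η : ℝ) (hη : 0 ≤ η)
    (h : ∀ A, Typ A → (Nat.card {δ : Perm (Fin n) // P (lm δ A)} : ℝ) ≤ η * (n.factorial : ℝ)) :
    (Nat.card {A : BT n k // P A} : ℝ) ≤ (Nat.card {A : BT n k // ¬ Typ A} : ℝ) +
      η * (Nat.card (BT n k) : ℝ) := by
  classical
  have : Fintype (BT n k) := Fintype.ofFinite _
  have hF : (0 : ℝ) < (n.factorial : ℝ) := by exact_mod_cast n.factorial_pos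
  have e1 : ∀ δ : Perm (Fin n), (Nat.card {A : BT n k // P A} : ℝ) =
      ∑ A : BT n k, if P (lm δ A) then (1 : ℝ) else 0 := by
    intro δ
    rw [Nat.card_eq_fintype_card, Fintype.card_subtype, Finset.card_filter]
    push_cast
    exact ((Equiv.ofBijective _ (lm_bij δ)).sum_comp
      (fun A : BT n k => if P A then (1 : ℝ) else 0)).symm
  have e2 : (n.factorial : ℝ) * (Nat.card {A : BT n k // P A} : ℝ) =
      ∑ A : BT n k, (Nat.card {δ : Perm (Fin n) // P (lm δ A)} : ℝ) := by
    have e3 : (n.factorial : ℝ) * (Nat.card {A : BT n k // P A} : ℝ) =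
        ∑ _δ : Perm (Fin n), (Nat.card {A : BT n k // P A} : ℝ) := by
      rw [Finset.sum_const, nsmul_eq_mul, Finset.card_univ, Fintype.card_perm, Fintype.card_fin]
    rw [e3, Finset.sum_congr rfl (fun δ _ => e1 δ), Finset.sum_comm]
    apply Finset.sum_congr rfl
    intro A _
    rw [Nat.card_eq_fintype_card, Fintype.card_subtype, Finset.card_filter]
    push_cast
    rfl
  have e4 : ∑ A : BT n k, (Nat.card {δ : Perm (Fin n) // P (lm δ A)} : ℝ) ≤
      ∑ A : BT n k, ((if ¬ Typ A then (n.factorial : ℝ) else 0) + η * (n.factorial : ℝ)) := by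
    apply Finset.sum_le_sum
    intro A _
    by_cases hA : Typ A
    · simp only [hA, not_true_eq_false, if_false, zero_add]
      exact h A hA
    · simp only [hA, not_false_eq_true, if_true]
      have h1 : Nat.card {δ : Perm (Fin n) // P (lm δ A)} ≤ Nat.card (Perm (Fin n)) :=
        Nat.card_le_card_of_injective (fun d => d.1) Subtype.val_injective
      rw [Nat.card_eq_fintype_card (α := Perm (Fin n)), Fintype.card_perm, Fintype.card_fin] at h1
      have h2 : (Nat.card {δ : Perm (Fin n) // P (lm δ A)} : ℝ) ≤ (n.factorial : ℝ) := by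
        exact_mod_cast h1
      have h3 : 0 ≤ η * (n.factorial : ℝ) := by positivity
      linarith
  have e5 : ∑ A : BT n k, ((if ¬ Typ A then (n.factorial : ℝ) else 0) + η * (n.factorial : ℝ)) =
      (n.factorial : ℝ) * ((Nat.card {A : BT n k // ¬ Typ A} : ℝ) +
        η * (Nat.card (BT n k) : ℝ)) := by
    rw [Finset.sum_add_distrib, Finset.sum_const, nsmul_eq_mul, Finset.card_univ,
      ← Nat.card_eq_fintype_card, Nat.card_eq_fintype_card (α := {A : BT n k // ¬ Typ A}),
      Fintype.card_subtype, Finset.card_filter]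
    push_cast
    rw [mul_add, Finset.mul_sum]
    simp only [mul_ite, mul_one, mul_zero]
    ring
  rw [← e2, e5] at e4
  exact le_of_mul_le_mul_left e4 hF

/-- bad `δ` for two words -/
lemma card_order_pair {n : ℕ} (g h : Perm (Fin n)) (c : ℝ)
    (H : (Nat.card {δ : Perm (Fin n) // orderOf δ = orderOf (δ * (g⁻¹ * h))} : ℝ) ≤ c) :
    (Nat.card {δ : Perm (Fin n) // orderOf (δ * g) = orderOf (δ * h)} : ℝ) ≤ c := by
  refine le_trans (le_of_eq ?_) H
  have : Nat.card {δ : Perm (Fin n) // orderOf (δ * g) = orderOf (δ * h)} =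
      Nat.card {δ : Perm (Fin n) // orderOf δ = orderOf (δ * (g⁻¹ * h))} := by
    apply Nat.card_congr
    refine (Equiv.mulRight g).subtypeEquiv ?_
    intro δ
    simp only [Equiv.coe_mulRight]
    have : δ * g * (g⁻¹ * h) = δ * h := by group
    rw [this]
  rw [this]

lemma supp_of_fix {n : ℕ} (a : Perm (Fin n)) (c : ℝ)
    (h : (Nat.card {q : Fin n // a q = q} : ℝ) ≤ c) : (n : ℝ) - c ≤ (a.support.card : ℝ) := by
  have h1 : Nat.card {q : Fin n // a q = q} + a.support.card = n := by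
    rw [Nat.card_eq_fintype_card, Fintype.card_subtype]
    have h2 : a.support = Finset.univ.filter (fun q => ¬ a q = q) := by
      ext q; simp
    rw [h2]
    have := Finset.card_filter_add_card_filter_not (s := (Finset.univ : Finset (Fin n)))
      (fun q => a q = q)
    rw [Finset.card_univ, Fintype.card_fin] at this
    exact this
  have h3 : (Nat.card {q : Fin n // a q = q} : ℝ) + (a.support.card : ℝ) = (n : ℝ) := by
    exact_mod_cast h1
  linarith

open Classical in
/-- the finite set of words -/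
noncomputable def UU' (k M : ℕ) : Finset (FreeGroup (Fin k)) :=
  (((Finset.range M).biUnion (fun i => (WW k i ×ˢ WW k i).image (fun p => p.1⁻¹ * p.2))) ∪
    ((Finset.univ : Finset (Fin k × Fin k)) ×ˢ (Finset.range M ×ˢ Finset.range M)).image
      (fun p => (wrd p.1.1 p.1.2 p.2.1)⁻¹ * wrd p.1.1 p.1.2 p.2.2) ∪
    (Finset.univ : Finset (Fin k × Fin k)).image
      (fun p => (FreeGroup.of p.1)⁻¹ * FreeGroup.of p.2)).filter (fun u => u ≠ 1)

lemma UU'_ne {k M : ℕ} {u : FreeGroup (Fin k)} (h : u ∈ UU' k M) : u ≠ 1 := by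
  unfold UU' at h
  exact (Finset.mem_filter.1 h).2

lemma UU'_mem1 {k M i : ℕ} (hi : i < M) {v1 v2 : FreeGroup (Fin k)} (h1 : v1 ∈ WW k i)
    (h2 : v2 ∈ WW k i) (h : v1 ≠ v2) : v1⁻¹ * v2 ∈ UU' k M := by
  unfold UU'
  rw [Finset.mem_filter]
  refine ⟨?_, fun hc => h (inv_mul_eq_one.1 hc)⟩
  rw [Finset.mem_union, Finset.mem_union]
  left; left
  rw [Finset.mem_biUnion]
  exact ⟨i, Finset.mem_range.2 hi, Finset.mem_image.2 ⟨(v1, v2), Finset.mem_product.2 ⟨h1, h2⟩, rfl⟩⟩

lemma kappa_ne {k : ℕ} (x y : Fin k) (h : x ≠ y) :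
    (FreeGroup.of y)⁻¹ * FreeGroup.of x ≠ 1 := by
  intro hc
  exact h (FreeGroup.of_injective (inv_mul_eq_one.1 hc)).symm

lemma wrd_inv_mul {k : ℕ} (x y : Fin k) (i j : ℕ) : (wrd x y i)⁻¹ * wrd x y j =
    ((FreeGroup.of y)⁻¹ * FreeGroup.of x) ^ ((j : ℤ) - (i : ℤ)) := by
  unfold wrd
  rw [mul_inv_rev, mul_assoc, inv_mul_cancel_left, zpow_sub, zpow_natCast, zpow_natCast]
  exact ((Commute.refl _).pow_pow j i).inv_right.eq.symm

lemma UU'_mem2 {k M i j : ℕ} (hi : i < M) (hj : j < M) (hij : i ≠ j) {x y : Fin k} (h : x ≠ y) :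
    (wrd x y i)⁻¹ * wrd x y j ∈ UU' k M := by
  unfold UU'
  rw [Finset.mem_filter]
  constructor
  · rw [Finset.mem_union, Finset.mem_union]
    left; right
    rw [Finset.mem_image]
    exact ⟨((x, y), (i, j)), Finset.mem_product.2 ⟨Finset.mem_univ _, Finset.mem_product.2
      ⟨Finset.mem_range.2 hi, Finset.mem_range.2 hj⟩⟩, rfl⟩
  · rw [wrd_inv_mul]
    intro hc
    refine (not_isOfFinOrder_of_isMulTorsionFree (kappa_ne x y h))
      (isOfFinOrder_iff_zpow_eq_one.2 ⟨_, ?_, hc⟩)
    omega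

lemma UU'_mem3 {k M : ℕ} {x y : Fin k} (h : x ≠ y) :
    (FreeGroup.of y)⁻¹ * FreeGroup.of x ∈ UU' k M := by
  unfold UU'
  rw [Finset.mem_filter]
  refine ⟨?_, kappa_ne x y h⟩
  rw [Finset.mem_union]
  right
  rw [Finset.mem_image]
  exact ⟨(y, x), Finset.mem_univ _, rfl⟩

end RNK40
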