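import Pool.Agent.Lib_helper40.RNK.Main2

set_option autoImplicit false
set_option linter.unusedSectionVars false

/-! Assembly, part 3: the probability for a typical transducer. -/

namespace RNK40

open Equiv Equiv.Perm RND40 GF40

/-- the signed action -/
noncomputable def Es {n k : ℕ} (A : BT n k) (e : Bool) : Fin k → Perm (Fin n) :=
  if e then A.1.1 else MM A

lemma rho_lm {n k : ℕ} (A : BT n k) (δ : Perm (Fin n)) (e : Bool) (i : ℕ)
    (v : FreeGroup (Fin k)) (hv : v ∈ WW k i) :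
    (autoSys (lm δ A).1.1 (lm δ A).1.2 (lm δ A).2).ρ e v = δ * FreeGroup.lift (Es A e) v := by
  cases e
  · rw [rho_false]
    have : MM (lm δ A) = fun y => δ * MM A y := by
      funext y; exact lm_MM δ A y
    rw [this]
    exact lift_WW (MM A) δ i v hv
  · exact lift_WW A.1.1 δ i v hv

theorem per_A {n k : ℕ} (A : BT n k) (ε η' η'' : ℝ) (M : ℕ) (hM : 1 ≤ M) (hk : 2 ≤ k)
    (hε : 0 < ε) (hsp : Spread ε A.1.2)
    (hD : ∀ e, ∀ u ∈ UU' k M, (Nat.card {q : Fin n // FreeGroup.lift (Es A e) u q = q} : ℝ) ≤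
      η' * (n : ℝ))
    (hη' : 0 ≤ η') (hη1 : η' * (k : ℝ) ≤ ε / 2) (hη2 : η' ≤ 1 / 2) (hn : 4 ≤ n)
    (hord1 : ∀ a : Perm (Fin n), (1 / 2 : ℝ) * (n : ℝ) ≤ (a.support.card : ℝ) →
      (Nat.card {δ : Perm (Fin n) // orderOf δ = orderOf (δ * a)} : ℝ) ≤ η'' * (n.factorial : ℝ))
    (hord2 : ∀ a : Perm (Fin n), (ε / 2 : ℝ) * (n : ℝ) ≤ (a.support.card : ℝ) →
      (Nat.card {δ : Perm (Fin n) // orderOf δ = orderOf (δ * a)} : ℝ) ≤
        η'' * (n.factorial : ℝ)) :
    (Nat.card {δ : Perm (Fin n) // ¬ G1 (lm δ A)} : ℝ) ≤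
      (n.factorial : ℝ) * ((4 / (M : ℝ) + 8 * η' + 20 / (n : ℝ)) / ε ^ 4) +
      (1 + ∑ i ∈ Finset.range M, 2 * ((WW k i).card : ℝ) ^ 2) * (η'' * (n.factorial : ℝ)) := by
  classical
  obtain ⟨x, y1, y2, hy, hc1, hc2⟩ := hsp
  -- another letter
  obtain ⟨y0, hy0⟩ : ∃ y0 : Fin k, x ≠ y0 := by
    have : Nontrivial (Fin k) := Fin.nontrivial_iff_two_le.2 hk
    obtain ⟨y0, h⟩ := exists_ne x
    exact ⟨y0, h.symm⟩
  set A1 : Finset (Fin n) := Finset.univ.filter (fun q => A.1.2 q x = y1) with hA1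
  set A2 : Finset (Fin n) := Finset.univ.filter (fun q => A.1.2 q x = y2) with hA2
  have hA1c : ε * (Fintype.card (Fin n) : ℝ) ≤ (A1.card : ℝ) := by
    rw [Fintype.card_fin, hA1, ← Fintype.card_subtype, ← Nat.card_eq_fintype_card]
    exact hc1
  have hA2c : ε * (Fintype.card (Fin n) : ℝ) ≤ (A2.card : ℝ) := by
    rw [Fintype.card_fin, hA2, ← Fintype.card_subtype, ← Nat.card_eq_fintype_card]
    exact hc2
  have hdis : _root_.Disjoint A1 A2 := by
    rw [Finset.disjoint_left]
    intro q h1 h2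
    rw [hA1, Finset.mem_filter] at h1
    rw [hA2, Finset.mem_filter] at h2
    exact hy (h1.2.symm.trans h2.2)
  set s : Fin M → Perm (Fin n) := fun i => FreeGroup.lift A.1.1 (wrd x y0 i) with hs
  have hfar : ∀ i j, i ≠ j → (Nat.card {q // s i q = s j q} : ℝ) ≤
      η' * (Fintype.card (Fin n) : ℝ) := by
    intro i j hij
    rw [Fintype.card_fin]
    have h1 := hD true ((wrd x y0 i)⁻¹ * wrd x y0 j)
      (UU'_mem2 i.2 j.2 (fun h => hij (Fin.ext h)) hy0)
    refine le_trans (le_of_eq ?_) h1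
    have : Nat.card {q // s i q = s j q} = Nat.card {q : Fin n //
        FreeGroup.lift (Es A true) ((wrd x y0 i)⁻¹ * wrd x y0 j) q = q} := by
      apply Nat.card_congr
      apply Equiv.subtypeEquivRight
      intro q
      rw [map_mul, map_inv, Perm.mul_apply, Perm.inv_eq_iff_eq]
      simp only [hs, Es, if_true]
      exact eq_comm
    rw [this]
  have hB0 := two_fixed M hM s A1 A2 hdis ε η' hε hη' hA1c hA2c hfar (by rwa [Fintype.card_fin])
  rw [Fintype.card_fin] at hB0
  -- supports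
  have hpos : (0 : ℝ) < (n : ℝ) := by
    have : 0 < n := by omega
    exact_mod_cast this
  have hF : (0 : ℝ) < (n.factorial : ℝ) := by exact_mod_cast n.factorial_pos
  have hpair : ∀ (e : Bool) (i : ℕ), i < M → ∀ v1 ∈ WW k i, ∀ v2 ∈ WW k i, v1 ≠ v2 →
      (Nat.card {δ : Perm (Fin n) // orderOf (δ * FreeGroup.lift (Es A e) v1) =
        orderOf (δ * FreeGroup.lift (Es A e) v2)} : ℝ) ≤ η'' * (n.factorial : ℝ) := by
    intro e i hi v1 h1 v2 h2 hne
    apply card_order_pair
    apply hord1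
    have h3 := hD e (v1⁻¹ * v2) (UU'_mem1 hi h1 h2 hne)
    rw [map_mul, map_inv] at h3
    have h4 := supp_of_fix _ _ h3
    nlinarith
  have hB1 : (Nat.card {δ : Perm (Fin n) // orderOf (δ * A.1.1 x) = orderOf (δ * MM A x)} : ℝ) ≤
      η'' * (n.factorial : ℝ) := by
    apply card_order_pair
    apply hord2
    -- the support
    obtain ⟨y', hy', hcy'⟩ : ∃ y', y' ≠ x ∧ ε * (n : ℝ) ≤ (Nat.card {q // A.1.2 q x = y'} : ℝ) := by
      by_cases h : y1 = x
      · exact ⟨y2, fun h2 => hy (h.trans h2.symm), hc2⟩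
      · exact ⟨y1, h, hc1⟩
    set a := (A.1.1 x)⁻¹ * MM A x with ha
    set FX : Fin k → Finset (Fin n) := fun x' => Finset.univ.filter
      (fun q => x' ≠ x ∧ A.1.1 x' q = A.1.1 x q) with hFX
    have hFXc : ∀ x', ((FX x').card : ℝ) ≤ η' * (n : ℝ) := by
      intro x'
      by_cases hx' : x' = x
      · have : FX x' = ∅ := by
          rw [hFX]
          apply Finset.filter_eq_empty_iff.2
          rintro q _ ⟨h, _⟩
          exact h hx'
        rw [this]
        simp only [Finset.card_empty, Nat.cast_zero]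
        positivity
      · have h1 := hD true ((FreeGroup.of x)⁻¹ * FreeGroup.of x') (UU'_mem3 hx')
        refine le_trans ?_ h1
        have h2 : (FX x').card = Nat.card {q : Fin n //
            FreeGroup.lift (Es A true) ((FreeGroup.of x)⁻¹ * FreeGroup.of x') q = q} := by
          rw [Nat.card_eq_fintype_card, Fintype.card_subtype, hFX]
          congr 1
          ext q
          simp only [Finset.mem_filter, Finset.mem_univ, true_and]
          rw [map_mul, map_inv, Perm.mul_apply, Perm.inv_eq_iff_eq, FreeGroup.lift_apply_of,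
            FreeGroup.lift_apply_of]
          simp only [Es, if_true]
          exact ⟨fun h => h.2, fun h => ⟨hx', h⟩⟩
        rw [h2]
    have hsub : Finset.univ.filter (fun q => A.1.2 q x = y') ⊆
        a.support ∪ Finset.univ.biUnion FX := by
      intro q hq
      rw [Finset.mem_filter] at hq
      rw [Finset.mem_union]
      by_cases h : a q = q
      · right
        rw [Finset.mem_biUnion]
        refine ⟨(A.1.2 q)⁻¹ x, Finset.mem_univ _, ?_⟩
        rw [hFX, Finset.mem_filter]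
        refine ⟨Finset.mem_univ _, ?_, ?_⟩
        · intro hc
          have h5 : A.1.2 q x = x := by
            have h12 := congrArg (A.1.2 q) hc
            have h13 : (A.1.2 q) ((A.1.2 q)⁻¹ x) = x := (A.1.2 q).apply_symm_apply x
            rw [h13] at h12
            exact h12.symm
          exact hy' (hq.2.symm.trans h5)
        · rw [ha, Perm.mul_apply, Perm.inv_eq_iff_eq, MM_apply] at h
          exact h
      · left
        rw [Perm.mem_support]
        exact h
    have h6 := Finset.card_le_card hsub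
    have h7 := (Finset.card_union_le a.support (Finset.univ.biUnion FX))
    have h8 : (Finset.univ.biUnion FX).card ≤ ∑ x', (FX x').card := Finset.card_biUnion_le
    have h9 : ((∑ x', (FX x').card : ℕ) : ℝ) ≤ (k : ℝ) * (η' * (n : ℝ)) := by
      push_cast
      calc ∑ x', ((FX x').card : ℝ) ≤ ∑ _x' : Fin k, η' * (n : ℝ) :=
            Finset.sum_le_sum (fun x' _ => hFXc x')
        _ = _ := by rw [Finset.sum_const, nsmul_eq_mul, Finset.card_univ, Fintype.card_fin]
    have h10 : ε * (n : ℝ) ≤ ((Finset.univ.filter (fun q => A.1.2 q x = y')).card : ℝ) := by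
      rw [← Fintype.card_subtype, ← Nat.card_eq_fintype_card]
      exact hcy'
    have h11 : ((Finset.univ.filter (fun q => A.1.2 q x = y')).card : ℝ) ≤
        (a.support.card : ℝ) + ((∑ x', (FX x').card : ℕ) : ℝ) := by
      exact_mod_cast h6.trans (h7.trans (Nat.add_le_add_left h8 _))
    nlinarith
  -- the union
  have hun : ∀ δ : Perm (Fin n), ¬ G1 (lm δ A) →
      ((∀ i, ¬ ((∃ q ∈ A1, δ (s i q) = q) ∧ ∃ q ∈ A2, δ (s i q) = q)) ∨
        (orderOf (δ * A.1.1 x) = orderOf (δ * MM A x))) ∨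
      ∃ p ∈ (Finset.range M).sigma (fun i => (WW k i ×ˢ WW k i) ×ˢ (Finset.univ : Finset Bool)),
        p.2.1.1 ≠ p.2.1.2 ∧ orderOf (δ * FreeGroup.lift (Es A p.2.2) p.2.1.1) =
        orderOf (δ * FreeGroup.lift (Es A p.2.2) p.2.1.2) := by
    intro δ hδ
    by_contra hcon
    push Not at hcon
    obtain ⟨⟨⟨i, ⟨q1, hq1, e1⟩, q2, hq2, e2⟩, hx⟩, hp⟩ := hcon
    apply hδ
    constructor
    · refine ⟨x, ?_⟩
      rw [lm_MM]
      exact hx
    · intro e
      rw [hA1, Finset.mem_filter] at hq1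
      rw [hA2, Finset.mem_filter] at hq2
      have hw := wrd_mem x y0 (i : ℕ)
      have hr : (autoSys (lm δ A).1.1 (lm δ A).1.2 (lm δ A).2).ρ true (wrd x y0 i) = δ * s i := by
        rw [rho_lm A δ true i _ hw, hs]
        simp only [Es, if_true]
      refine ⟨wrd x y0 i, q1, q2, ?_, ?_, ?_⟩
      · rw [hr, Perm.mul_apply]; exact e1
      · rw [hr, Perm.mul_apply]; exact e2
      · set v1 := (autoSys (lm δ A).1.1 (lm δ A).1.2 (lm δ A).2).sc true (wrd x y0 i) q1 with hv1
        set v2 := (autoSys (lm δ A).1.1 (lm δ A).1.2 (lm δ A).2).sc true (wrd x y0 i) q2 with hv2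
        have m1 : v1 ∈ WW k i := sc_wrd_mem _ _ _ _ _
        have m2 : v2 ∈ WW k i := sc_wrd_mem _ _ _ _ _
        have hne : v1 ≠ v2 := by
          apply sc_wrd_ne (lm δ A) x y0 hy0
          show A.1.2 q1 x ≠ A.1.2 q2 x
          rw [hq1.2, hq2.2]
          exact hy
        rw [rho_lm A δ e i _ m1, rho_lm A δ e i _ m2]
        exact hp ⟨(i : ℕ), ((v1, v2), e)⟩ (by
          rw [Finset.mem_sigma]
          exact ⟨Finset.mem_range.2 i.2, Finset.mem_product.2
            ⟨Finset.mem_product.2 ⟨m1, m2⟩, Finset.mem_univ _⟩⟩) hne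
  refine (cd_mono _ _ hun).trans ((cd_or _ _).trans ?_)
  have t1 := (cd_or (fun δ : Perm (Fin n) => ∀ i, ¬ ((∃ q ∈ A1, δ (s i q) = q) ∧
    ∃ q ∈ A2, δ (s i q) = q)) (fun δ => orderOf (δ * A.1.1 x) = orderOf (δ * MM A x)))
  have t2 := cd_ex ((Finset.range M).sigma (fun i => (WW k i ×ˢ WW k i) ×ˢ
    (Finset.univ : Finset Bool))) (fun p (δ : Perm (Fin n)) => p.2.1.1 ≠ p.2.1.2 ∧
      orderOf (δ * FreeGroup.lift (Es A p.2.2) p.2.1.1) =
        orderOf (δ * FreeGroup.lift (Es A p.2.2) p.2.1.2))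
  have t3 : ∑ p ∈ (Finset.range M).sigma (fun i => (WW k i ×ˢ WW k i) ×ˢ
      (Finset.univ : Finset Bool)), (Nat.card {δ : Perm (Fin n) // p.2.1.1 ≠ p.2.1.2 ∧
      orderOf (δ * FreeGroup.lift (Es A p.2.2) p.2.1.1) =
        orderOf (δ * FreeGroup.lift (Es A p.2.2) p.2.1.2)} : ℝ) ≤
      (∑ i ∈ Finset.range M, 2 * ((WW k i).card : ℝ) ^ 2) * (η'' * (n.factorial : ℝ)) := by
    have hη'' : 0 ≤ η'' * (n.factorial : ℝ) := le_trans (Nat.cast_nonneg _) hB1
    calc _ ≤ ∑ _p ∈ (Finset.range M).sigma (fun i => (WW k i ×ˢ WW k i) ×ˢ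
      (Finset.univ : Finset Bool)), η'' * (n.factorial : ℝ) := by
          apply Finset.sum_le_sum
          rintro ⟨i, ⟨⟨v1, v2⟩, e⟩⟩ hp
          rw [Finset.mem_sigma] at hp
          obtain ⟨hi, hp⟩ := hp
          simp only at hi hp ⊢
          have hp' := Finset.mem_product.1 (Finset.mem_product.1 hp).1
          by_cases hne : v1 ≠ v2
          · refine (cd_mono _ _ ?_).trans (hpair e i (Finset.mem_range.1 hi) v1 hp'.1 v2 hp'.2 hne)
            rintro δ ⟨_, h⟩
            exact h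
          · have : IsEmpty {δ : Perm (Fin n) // v1 ≠ v2 ∧
                orderOf (δ * FreeGroup.lift (Es A e) v1) =
                orderOf (δ * FreeGroup.lift (Es A e) v2)} := ⟨fun d => hne d.2.1⟩
            rw [Nat.card_of_isEmpty]
            simpa using hη''
      _ = _ := by
          rw [Finset.sum_const, nsmul_eq_mul, Finset.card_sigma]
          push_cast
          congr 1
          apply Finset.sum_congr rfl
          intro i _
          rw [Finset.card_product, Finset.card_product, Finset.card_univ, Fintype.card_bool]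
          push_cast
          ring
  have t4 := t1.trans (add_le_add hB0 hB1)
  have t5 := t2.trans t3
  calc _ ≤ _ := add_le_add t4 t5
    _ = _ := by ring

end RNK40
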